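import Pool.Agent.WC.OrderArc

/-! Proof by helper334 (team lemma job). -/

set_option autoImplicit false
open TopologicalSpace Filter Topology Set

namespace Pool.Agent.WC


/-- the property delivered by `lemmaU` -/
def UU {X : Type*} [MetricSpace X] [CompactSpace X] (ω : NonemptyCompacts X → ℝ) (ε η : ℝ) : Prop :=
  ∀ S T : NonemptyCompacts X, EC ε (S : Set X) → EC ε (T : Set X) →
      (∀ x ∈ S, ∃ y ∈ T, dist x y ≤ ε) → ω T ≤ ω S + ε → dist S T ≤ η

theorem near_of_dist {X : Type*} [MetricSpace X] [CompactSpace X] {S T : NonemptyCompacts X}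
    {η : ℝ} (h : dist S T ≤ η) {x : X} (hx : x ∈ S) : ∃ y ∈ T, dist x y ≤ η := by
  obtain ⟨y, hy, hxy⟩ := T.isCompact.exists_infDist_eq_dist T.nonempty x
  refine ⟨y, hy, ?_⟩
  rw [← hxy]
  refine le_trans ?_ h
  rw [Metric.NonemptyCompacts.dist_eq]
  exact Metric.infDist_le_hausdorffDist_of_mem hx
    (Metric.hausdorffEDist_ne_top_of_nonempty_of_bounded S.nonempty T.nonempty
      S.isCompact.isBounded T.isCompact.isBounded)

theorem le_of_subset {X : Type*} [MetricSpace X] [CompactSpace X]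
    {ω : NonemptyCompacts X → ℝ} (hm : SMC ω) {A B : NonemptyCompacts X}
    (hA : IsConnected (A : Set X)) (hB : IsConnected (B : Set X)) (h : (A : Set X) ⊆ B) :
    ω A ≤ ω B := by
  rcases h.eq_or_ssubset with h | h
  · exact (congrArg ω (SetLike.coe_injective h)).le
  · exact (hm A B hA hB h).le

theorem eq_of_subset {X : Type*} [MetricSpace X] [CompactSpace X]
    {ω : NonemptyCompacts X → ℝ} (hm : SMC ω) {A B : NonemptyCompacts X}
    (hA : IsConnected (A : Set X)) (hB : IsConnected (B : Set X)) (h : (A : Set X) ⊆ B)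
    (hω : ω A = ω B) : A = B := by
  rcases h.eq_or_ssubset with h | h
  · exact SetLike.coe_injective h
  · exact absurd hω (hm A B hA hB h).ne

theorem clamp_arc {X : Type*} [MetricSpace X] [CompactSpace X]
    (ω : NonemptyCompacts X → ℝ) (hc : Continuous ω) (hm : SMC ω) (A : NonemptyCompacts X)
    (hA : IsConnected (A : Set X)) (a : X) (ha : a ∈ A) :
    ∃ α : ℝ → NonemptyCompacts X, (∀ u, IsConnected (α u : Set X)) ∧ (∀ u, a ∈ α u) ∧
      (∀ u, (α u : Set X) ⊆ A) ∧ (∀ u u', u ≤ u' → (α u : Set X) ⊆ α u') ∧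
      (∀ u, ω (α u) = ω {a} + max 0 (min u (ω A - ω {a}))) ∧ (∀ u, u ≤ 0 → α u = {a}) ∧
      (∀ u, ω A - ω {a} ≤ u → α u = A) := by
  obtain ⟨α, h1, h2, h3, h4⟩ := order_arc ω hc hm A hA a ha
  have hle : ω {a} ≤ ω A := by
    refine le_of_subset hm ?_ hA ?_
    · simpa using isConnected_singleton
    · simpa using ha
  set p : ℝ → ℝ := fun u => ω {a} + max 0 (min u (ω A - ω {a})) with hp
  have hp1 : ∀ u, ω {a} ≤ p u := fun u => by
    have : 0 ≤ max 0 (min u (ω A - ω {a})) := le_max_left _ _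
    simp only [hp]; linarith
  have hp2 : ∀ u, p u ≤ ω A := fun u => by
    have : max 0 (min u (ω A - ω {a})) ≤ ω A - ω {a} := max_le (by linarith) (min_le_right _ _)
    simp only [hp]; linarith
  have hp3 : ∀ u u', u ≤ u' → p u ≤ p u' := fun u u' h => by
    have : max 0 (min u (ω A - ω {a})) ≤ max 0 (min u' (ω A - ω {a})) :=
      max_le_max le_rfl (min_le_min_right _ h)
    simp only [hp]; linarith
  refine ⟨fun u => α (p u), fun u => (h1 _ (hp1 u) (hp2 u)).1, fun u => (h1 _ (hp1 u) (hp2 u)).2.2.1,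
    fun u => (h1 _ (hp1 u) (hp2 u)).2.2.2, fun u u' h => h2 _ _ (hp1 u) (hp3 u u' h) (hp2 u'),
    fun u => (h1 _ (hp1 u) (hp2 u)).2.1, fun u hu => ?_, fun u hu => ?_⟩
  · have : p u = ω {a} := by
      simp only [hp]
      rw [max_eq_left ((min_le_left _ _).trans hu)]
      ring
    simp only [this, h3]
  · have : p u = ω A := by
      simp only [hp]
      rw [min_eq_right hu, max_eq_right (by linarith)]
      ring
    simp only [this, h4]

theorem arc_modulus {X : Type*} [MetricSpace X] [CompactSpace X]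
    {ω : NonemptyCompacts X → ℝ} {ε η : ℝ} (hε : 0 < ε) (hU : UU ω ε η) {α : ℝ → NonemptyCompacts X}
    {t0 T : ℝ} (h1 : ∀ u, IsConnected (α u : Set X))
    (h4 : ∀ u u', u ≤ u' → (α u : Set X) ⊆ α u')
    (h5 : ∀ u, ω (α u) = t0 + max 0 (min u T)) :
    ∀ u u', |u - u'| ≤ ε → dist (α u) (α u') ≤ η := by
  have key : ∀ u u', u ≤ u' → u' ≤ u + ε → dist (α u) (α u') ≤ η := by
    intro u u' h h'
    refine hU _ _ (EC_of_preconnected (h1 u).isPreconnected hε)
      (EC_of_preconnected (h1 u').isPreconnected hε) ?_ ?_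
    · intro x hx
      exact ⟨x, h4 u u' h hx, by simpa using hε.le⟩
    · rw [h5, h5]
      have : max 0 (min u' T) ≤ max 0 (min u T) + ε := by
        apply max_le
        · have := le_max_left 0 (min u T); linarith
        · have h2 : min u' T ≤ min u T + ε := by
            rcases le_total u T with h3 | h3
            · rw [min_eq_left h3]; exact (min_le_left _ _).trans h'
            · rw [min_eq_right h3]; have := min_le_right u' T; linarith
          have := le_max_right 0 (min u T); linarith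
      linarith
  intro u u' h
  rcases le_total u u' with h1 | h1
  · exact key u u' h1 (by have := neg_le_of_abs_le h; linarith)
  · rw [dist_comm]
    exact key u' u h1 (by have := le_of_abs_le h; linarith)

theorem pair_path {X : Type*} [MetricSpace X] [CompactSpace X]
    (ω : NonemptyCompacts X → ℝ) (hc : Continuous ω) (hm : SMC ω) (t : ℝ)
    (M : ℝ) (hM : 0 < M) (hMb : ∀ x : X, t - ω {x} ≤ M)
    (A B : NonemptyCompacts X) (hA : IsConnected (A : Set X)) (hAt : ω A = t)
    (hB : IsConnected (B : Set X)) (hBt : ω B = t) (hAB : ((A : Set X) ∩ B).Nonempty) :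
    ∃ g : ℝ → NonemptyCompacts X, g 0 = A ∧ g 1 = B ∧
      (∀ r, IsConnected (g r : Set X) ∧ ω (g r) = t) ∧
      ∀ ε ε0 ε1 : ℝ, 0 < ε0 → 0 < ε1 → UU ω ε0 ε → UU ω ε1 ε0 → ∀ r r', |r - r'| ≤ ε1 / (2 * M) →
        dist (g r) (g r') ≤ ε := by
  obtain ⟨a, haA, haB⟩ := hAB
  obtain ⟨α, α1, α2, α3, α4, α5, α6, α7⟩ := clamp_arc ω hc hm A hA a haA
  obtain ⟨β, β1, β2, β3, β4, β5, β6, β7⟩ := clamp_arc ω hc hm B hB a haB
  rw [hAt] at α5 α7
  rw [hBt] at β5 β7
  have hT0 : 0 ≤ t - ω {a} := by
    rw [← hAt]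
    have := le_of_subset hm (A := {a}) (B := A) (by simpa using isConnected_singleton) hA
      (by simpa using haA)
    linarith
  have hTM := hMb a
  -- continuity
  have hcont : ∀ (σ : ℝ → NonemptyCompacts X), (∀ u, IsConnected (σ u : Set X)) →
      (∀ u u', u ≤ u' → (σ u : Set X) ⊆ σ u') →
      (∀ u, ω (σ u) = ω {a} + max 0 (min u (t - ω {a}))) → Continuous σ := by
    intro σ h1 h4 h5
    rw [Metric.continuous_iff]
    intro u η hη
    obtain ⟨ε, hε, hU⟩ := lemmaU ω hc hm (η / 2) (by linarith)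
    refine ⟨ε, hε, fun u' hu' => ?_⟩
    have := arc_modulus hε hU h1 h4 h5 u' u (by rw [← Real.dist_eq]; exact hu'.le)
    linarith
  have cα := hcont α α1 α4 α5
  have cβ := hcont β β1 β4 β5
  set E : ℝ → ℝ → NonemptyCompacts X := fun c u => α (u + c) ⊔ β (u - c) with hE
  have Econn : ∀ c u, IsConnected (E c u : Set X) := by
    intro c u
    simp only [hE, NonemptyCompacts.coe_sup]
    exact IsConnected.union ⟨a, α2 _, β2 _⟩ (α1 _) (β1 _)
  have Econt : ∀ c, Continuous (fun u => ω (E c u)) := by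
    intro c
    apply hc.comp
    simp only [hE]
    exact (cα.comp (continuous_id.add continuous_const)).sup
      (cβ.comp (continuous_id.sub continuous_const))
  have hex : ∀ c, ∃ u, ω (E c u) = t := by
    intro c
    have h0 : ω (E c (-|c|)) ≤ t := by
      have : E c (-|c|) = {a} := by
        simp only [hE]
        rw [α6 _ (by linarith [le_abs_self c]), β6 _ (by linarith [neg_abs_le c]), sup_idem]
      rw [this]; linarith
    have h1 : t ≤ ω (E c (t - ω {a} + |c|)) := by
      rw [← hAt]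
      refine le_of_subset hm hA (Econn _ _) ?_
      simp only [hE, NonemptyCompacts.coe_sup]
      rw [hAt, α7 _ (by linarith [neg_abs_le c])]
      exact subset_union_left
    have hle : -|c| ≤ t - ω {a} + |c| := by linarith [abs_nonneg c]
    obtain ⟨u, -, hu⟩ := intermediate_value_Icc hle (Econt c).continuousOn ⟨h0, h1⟩
    exact ⟨u, hu⟩
  choose U hUt using hex
  have hAeq : ∀ c, t - ω {a} ≤ c → E c (U c) = A := by
    intro c hcT
    rcases le_total (t - ω {a}) (U c + c) with h | h
    · refine (eq_of_subset hm hA (Econn _ _) ?_ (by rw [hAt, hUt])).symm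
      simp only [hE, NonemptyCompacts.coe_sup]
      rw [α7 _ h]
      exact subset_union_left
    · refine eq_of_subset hm (Econn _ _) hA ?_ (by rw [hAt, hUt])
      simp only [hE, NonemptyCompacts.coe_sup]
      rw [β6 _ (by linarith)]
      refine union_subset (α3 _) ?_
      simpa using haA
  have hBeq : ∀ c, t - ω {a} ≤ -c → E c (U c) = B := by
    intro c hcT
    rcases le_total (t - ω {a}) (U c - c) with h | h
    · refine (eq_of_subset hm hB (Econn _ _) ?_ (by rw [hBt, hUt])).symm
      simp only [hE, NonemptyCompacts.coe_sup]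
      rw [β7 _ h]
      exact subset_union_right
    · refine eq_of_subset hm (Econn _ _) hB ?_ (by rw [hBt, hUt])
      simp only [hE, NonemptyCompacts.coe_sup]
      rw [α6 _ (by linarith)]
      refine union_subset ?_ (β3 _)
      simpa using haB
  refine ⟨fun r => E (M * (1 - 2 * r)) (U (M * (1 - 2 * r))), ?_, ?_, fun r => ⟨Econn _ _, hUt _⟩, ?_⟩
  · exact hAeq _ (by linarith)
  · exact hBeq _ (by linarith)
  · intro ε ε0 ε1 hε0 hε1 hU0 hU1
    have key : ∀ c c', |c - c'| ≤ ε1 → U c ≤ U c' → dist (E c (U c)) (E c' (U c')) ≤ ε := by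
      intro c c' hcc huu
      have hcc1 := le_of_abs_le hcc
      have hcc2 := neg_le_of_abs_le hcc
      refine hU0 _ _ (EC_of_preconnected (Econn _ _).isPreconnected hε0)
        (EC_of_preconnected (Econn _ _).isPreconnected hε0) ?_ (by rw [hUt, hUt]; linarith)
      intro x hx
      rcases hx with hx | hx
      · have hx' : x ∈ α (U c' + c' + ε1) := α4 (U c + c) _ (by linarith) hx
        obtain ⟨y, hy, hxy⟩ := near_of_dist
          (arc_modulus hε1 hU1 α1 α4 α5 (U c' + c' + ε1) (U c' + c')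
            (by rw [add_sub_cancel_left, abs_of_pos hε1])) hx'
        exact ⟨y, Or.inl hy, hxy⟩
      · have hx' : x ∈ β (U c' - c' + ε1) := β4 (U c - c) _ (by linarith) hx
        obtain ⟨y, hy, hxy⟩ := near_of_dist
          (arc_modulus hε1 hU1 β1 β4 β5 (U c' - c' + ε1) (U c' - c')
            (by rw [add_sub_cancel_left, abs_of_pos hε1])) hx'
        exact ⟨y, Or.inr hy, hxy⟩
    intro r r' hr
    have hcc : |M * (1 - 2 * r) - M * (1 - 2 * r')| ≤ ε1 := by
      have : M * (1 - 2 * r) - M * (1 - 2 * r') = -(2 * M * (r - r')) := by ring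
      rw [this, abs_neg, abs_mul, abs_of_pos (by linarith : (0:ℝ) < 2 * M)]
      calc 2 * M * |r - r'| ≤ 2 * M * (ε1 / (2 * M)) := by gcongr
        _ = ε1 := by field_simp
    rcases le_total (U (M * (1 - 2 * r))) (U (M * (1 - 2 * r'))) with h | h
    · exact key _ _ hcc h
    · rw [dist_comm]
      exact key _ _ (by rw [abs_sub_comm]; exact hcc) h

/-- TARGET -/
theorem exists_hair (X : Type) [MetricSpace X] [CompactSpace X]
    (ω : NonemptyCompacts X → ℝ) (hc : Continuous ω) (hm : SMC ω) (t : ℝ)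
    (ht0 : ∀ x : X, ω {x} < t) :
    ∃ γ : NonemptyCompacts X → NonemptyCompacts X → ℝ → NonemptyCompacts X,
      (∀ A B : NonemptyCompacts X, IsConnected (A : Set X) → ω A = t → IsConnected (B : Set X) →
        ω B = t → ((A : Set X) ∩ B).Nonempty → γ A B 0 = A ∧ γ A B 1 = B ∧
          ∀ r, IsConnected (γ A B r : Set X) ∧ ω (γ A B r) = t) ∧
      ∀ ε > 0, ∃ δ > 0, ∀ A B : NonemptyCompacts X, IsConnected (A : Set X) → ω A = t →
        IsConnected (B : Set X) → ω B = t → ((A : Set X) ∩ B).Nonempty →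
          ∀ r r', |r - r'| ≤ δ → dist (γ A B r) (γ A B r') ≤ ε := by
  classical
  obtain ⟨M, hM, hMb⟩ : ∃ M : ℝ, 0 < M ∧ ∀ x : X, t - ω {x} ≤ M := by
    have h1 : Continuous (fun x : X => t - ω {x}) :=
      continuous_const.sub (hc.comp NonemptyCompacts.isometry_singleton.continuous)
    obtain ⟨C, hC⟩ := isCompact_univ.exists_bound_of_continuousOn h1.continuousOn
    refine ⟨|C| + 1, by positivity, fun x => ?_⟩
    have h2 := hC x (mem_univ _)
    have h3 := le_abs_self C
    rw [Real.norm_eq_abs] at h2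
    have h4 := le_abs_self (t - ω {x})
    linarith
  choose! g g1 g2 g3 g4 using pair_path ω hc hm t M hM hMb
  refine ⟨g, fun A B hA hAt hB hBt hAB => ⟨g1 A B hA hAt hB hBt hAB, g2 A B hA hAt hB hBt hAB,
    g3 A B hA hAt hB hBt hAB⟩, fun ε hε => ?_⟩
  obtain ⟨ε0, hε0, hU0⟩ := lemmaU ω hc hm ε hε
  obtain ⟨ε1, hε1, hU1⟩ := lemmaU ω hc hm ε0 hε0
  exact ⟨ε1 / (2 * M), by positivity, fun A B hA hAt hB hBt hAB r r' hr =>
    g4 A B hA hAt hB hBt hAB ε ε0 ε1 hε0 hε1 hU0 hU1 r r' hr⟩

end Pool.Agent.WC
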