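import Pool.Agent.WC.Defs

/-! Proof by helper615 (team lemma job). -/

set_option autoImplicit false
open TopologicalSpace Filter Topology Set

namespace Pool.Agent.WC

theorem exists_smc (S : Type*) [MetricSpace S] [CompactSpace S] :
    ∃ ω : NonemptyCompacts S → ℝ, Continuous ω ∧
      ∀ A B : NonemptyCompacts S, (A : Set S) ⊂ (B : Set S) → ω A < ω B := by
  rcases isEmpty_or_nonempty S with hS | hS
  · haveI : IsEmpty (NonemptyCompacts S) := ⟨fun K => by
      obtain ⟨x, -⟩ := K.nonempty
      exact hS.false x⟩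
    exact ⟨fun _ => 0, continuous_const, fun A => (IsEmpty.false A).elim⟩
  let u : ℕ → S := denseSeq S
  have hu : DenseRange u := denseRange_denseSeq S
  have hmem : ∀ (n : ℕ) (K : NonemptyCompacts S),
      Metric.infDist (u n) (K : Set S) ≤ Metric.diam (univ : Set S) := by
    intro n K
    obtain ⟨x, hx⟩ := K.nonempty
    exact (Metric.infDist_le_dist_of_mem hx).trans
      (Metric.dist_le_diam_of_mem isCompact_univ.isBounded (mem_univ _) (mem_univ _))
  have hb : ∀ (n : ℕ) (K : NonemptyCompacts S),
      ‖(1 / 2 : ℝ) ^ n * Metric.infDist (u n) (K : Set S)‖ ≤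
        (1 / 2 : ℝ) ^ n * Metric.diam (univ : Set S) := by
    intro n K
    rw [norm_mul, Real.norm_of_nonneg (Metric.infDist_nonneg),
      Real.norm_of_nonneg (by positivity : (0 : ℝ) ≤ (1 / 2 : ℝ) ^ n)]
    exact mul_le_mul_of_nonneg_left (hmem n K) (by positivity)
  have hsg : Summable (fun n : ℕ => (1 / 2 : ℝ) ^ n * Metric.diam (univ : Set S)) :=
    summable_geometric_two.mul_right _
  have hs : ∀ K : NonemptyCompacts S,
      Summable (fun n : ℕ => (1 / 2 : ℝ) ^ n * Metric.infDist (u n) (K : Set S)) := fun K =>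
    Summable.of_norm_bounded hsg (fun n => hb n K)
  refine ⟨fun K => - ∑' n : ℕ, (1 / 2 : ℝ) ^ n * Metric.infDist (u n) (K : Set S), ?_, ?_⟩
  · refine (continuous_tsum (fun n => ?_) hsg (fun n K => hb n K)).neg
    exact continuous_const.mul (Metric.lipschitz_infDist_set (u n)).continuous
  · intro A B hAB
    rw [neg_lt_neg_iff]
    obtain ⟨p, hpB, hpA⟩ := exists_of_ssubset hAB
    have hAc : IsClosed (A : Set S) := A.isCompact.isClosed
    have hr : 0 < Metric.infDist p (A : Set S) :=
      (hAc.notMem_iff_infDist_pos A.nonempty).1 hpA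
    obtain ⟨n, hn⟩ := hu.exists_dist_lt p (show 0 < Metric.infDist p (A : Set S) / 3 by linarith)
    have h1 : Metric.infDist (u n) (B : Set S) ≤ dist (u n) p :=
      Metric.infDist_le_dist_of_mem hpB
    have h2 : Metric.infDist p (A : Set S) ≤ Metric.infDist (u n) (A : Set S) + dist p (u n) :=
      Metric.infDist_le_infDist_add_dist
    have h3 : Metric.infDist (u n) (B : Set S) < Metric.infDist (u n) (A : Set S) := by
      rw [dist_comm] at h1
      linarith
    refine Summable.tsum_lt_tsum (i := n) (fun m => ?_) ?_ (hs B) (hs A)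
    · exact mul_le_mul_of_nonneg_left
        (Metric.infDist_le_infDist_of_subset hAB.subset A.nonempty) (by positivity)
    · exact mul_lt_mul_of_pos_left h3 (by positivity)

end Pool.Agent.WC
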