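import Pool.Agent.WC.OrderArc
import Pool.Agent.WC.Smc

/-! Proof by helper674 (team lemma job). -/

set_option autoImplicit false
open TopologicalSpace Filter Topology Set

namespace Pool.Agent.WC

/-- TARGET -/
theorem exists_kappa (S : Type) [MetricSpace S] [CompactSpace S] [ConnectedSpace S] :
    ∃ κ : S → S → ℝ → NonemptyCompacts S, (∀ a b r, IsConnected (κ a b r : Set S)) ∧
      (∀ a b, κ a b 0 = {a}) ∧ (∀ a b, κ a b 1 = {b}) ∧
      ∀ ε > 0, ∃ δ > 0, ∀ a b r r', |r - r'| ≤ δ → dist (κ a b r) (κ a b r') ≤ ε := by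
  obtain ⟨ω, hc, hmono⟩ := exists_smc S
  have hm : SMC ω := fun A B _ _ h => hmono A B h
  have htop : IsConnected ((⊤ : NonemptyCompacts S) : Set S) := by
    rw [NonemptyCompacts.coe_top]; exact isConnected_univ
  set W := ω ⊤ with hW
  have harc := fun a : S => order_arc ω hc hm ⊤ htop a (by
    show a ∈ ((⊤ : NonemptyCompacts S) : Set S)
    rw [NonemptyCompacts.coe_top]; exact mem_univ a)
  choose α hα1 hα2 hα3 hα4 using harc
  have hle : ∀ a : S, ω {a} ≤ W := by
    intro a
    by_cases h : (({a} : NonemptyCompacts S) : Set S) = ((⊤ : NonemptyCompacts S) : Set S)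
    · rw [hW, SetLike.coe_injective h]
    · apply le_of_lt
      apply hmono
      rw [ssubset_iff_subset_ne]
      refine ⟨?_, h⟩
      rw [NonemptyCompacts.coe_top]; exact subset_univ _
  -- bound
  obtain ⟨M, hM0, hM⟩ : ∃ M : ℝ, 0 ≤ M ∧ ∀ a : S, W - ω {a} ≤ M := by
    have hcomp : IsCompact (range ω) := isCompact_range hc
    obtain ⟨m, hmm⟩ := hcomp.bddBelow
    refine ⟨max 0 (W - m), le_max_left _ _, fun a => ?_⟩
    have : m ≤ ω {a} := hmm ⟨_, rfl⟩
    exact (by linarith : W - ω {a} ≤ W - m).trans (le_max_right _ _)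
  -- modulus of the order arcs
  have hmod : ∀ η > 0, ∃ ε > 0, ∀ a s s', ω {a} ≤ s → s ≤ s' → s' ≤ W → s' - s ≤ ε →
      dist (α a s) (α a s') ≤ η := by
    intro η hη
    obtain ⟨ε, hε, h⟩ := lemmaU ω hc hm η hη
    refine ⟨ε, hε, ?_⟩
    intro a s s' h1 h2 h3 h4
    obtain ⟨c1, e1, _, _⟩ := hα1 a s h1 (h2.trans h3)
    obtain ⟨c2, e2, _, _⟩ := hα1 a s' (h1.trans h2) h3
    apply h
    · exact EC_of_preconnected c1.isPreconnected hε
    · exact EC_of_preconnected c2.isPreconnected hε
    · intro x hx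
      exact ⟨x, hα2 a s s' h1 h2 h3 hx, by rw [dist_self]; exact hε.le⟩
    · rw [e1, e2]; linarith
  -- half arcs
  set g : S → ℝ → NonemptyCompacts S := fun a c => α a (ω {a} + 2 * c * (W - ω {a})) with hg
  have hgparam : ∀ a c, 0 ≤ c → c ≤ 1 / 2 → ω {a} ≤ ω {a} + 2 * c * (W - ω {a}) ∧
      ω {a} + 2 * c * (W - ω {a}) ≤ W := by
    intro a c h0 h1
    have hp : 0 ≤ W - ω {a} := by linarith [hle a]
    constructor
    · have : 0 ≤ 2 * c * (W - ω {a}) := by positivity
      linarith
    · have : 2 * c * (W - ω {a}) ≤ 1 * (W - ω {a}) :=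
        mul_le_mul_of_nonneg_right (by linarith) hp
      linarith
  have hgconn : ∀ a c, 0 ≤ c → c ≤ 1 / 2 → IsConnected (g a c : Set S) := by
    intro a c h0 h1
    exact (hα1 a _ (hgparam a c h0 h1).1 (hgparam a c h0 h1).2).1
  have hg0 : ∀ a, g a 0 = {a} := by
    intro a
    show α a (ω {a} + 2 * 0 * (W - ω {a})) = {a}
    rw [mul_zero, zero_mul, add_zero]; exact hα3 a
  have hgh : ∀ a, g a (1 / 2) = ⊤ := by
    intro a
    show α a (ω {a} + 2 * (1 / 2) * (W - ω {a})) = ⊤
    have : ω {a} + 2 * (1 / 2) * (W - ω {a}) = W := by ring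
    rw [this]; exact hα4 a
  have hgmod : ∀ η > 0, ∃ δ > 0, ∀ a c c', 0 ≤ c → c ≤ 1 / 2 → 0 ≤ c' → c' ≤ 1 / 2 →
      |c - c'| ≤ δ → dist (g a c) (g a c') ≤ η := by
    intro η hη
    obtain ⟨ε, hε, h⟩ := hmod η hη
    refine ⟨ε / (2 * (M + 1)), by positivity, ?_⟩
    have key : ∀ a c c', 0 ≤ c → c ≤ c' → c' ≤ 1 / 2 → c' - c ≤ ε / (2 * (M + 1)) →
        dist (g a c) (g a c') ≤ η := by
      intro a c c' h0 h1 h2 h3
      have hp : 0 ≤ W - ω {a} := by linarith [hle a]
      apply h a
      · exact (hgparam a c h0 (h1.trans h2)).1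
      · have : 2 * c * (W - ω {a}) ≤ 2 * c' * (W - ω {a}) :=
          mul_le_mul_of_nonneg_right (by linarith) hp
        linarith
      · exact (hgparam a c' (h0.trans h1) h2).2
      · have h4 : ω {a} + 2 * c' * (W - ω {a}) - (ω {a} + 2 * c * (W - ω {a})) =
            2 * (c' - c) * (W - ω {a}) := by ring
        rw [h4]
        have h5 : W - ω {a} ≤ M + 1 := by linarith [hM a]
        calc 2 * (c' - c) * (W - ω {a}) ≤ 2 * (ε / (2 * (M + 1))) * (M + 1) :=
              mul_le_mul (by linarith) h5 hp (by positivity)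
          _ = ε := by field_simp
    intro a c c' h0 h1 h2 h3 h4
    rcases le_total c c' with h5 | h5
    · apply key a c c' h0 h5 h3
      have := (abs_le.mp h4).1
      linarith
    · rw [dist_comm]
      apply key a c' c h2 h5 h1
      have := (abs_le.mp h4).2
      linarith
  -- clamp
  set cl : ℝ → ℝ := fun r => max 0 (min 1 r) with hcl
  have hcl0 : ∀ r, 0 ≤ cl r := fun r => le_max_left _ _
  have hcl1 : ∀ r, cl r ≤ 1 := fun r => max_le zero_le_one (min_le_left _ _)
  have hcld : ∀ r r', |cl r - cl r'| ≤ |r - r'| := by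
    intro r r'
    have h1 : |cl r - cl r'| ≤ |min 1 r - min 1 r'| := by
      show |max 0 (min 1 r) - max 0 (min 1 r')| ≤ _
      exact (abs_max_sub_max_le_max _ _ _ _).trans (by simp)
    refine h1.trans ?_
    exact (abs_min_sub_min_le_max _ _ _ _).trans (by simp)
  refine ⟨fun a b r => if cl r ≤ 1 / 2 then g a (cl r) else g b (1 - cl r), ?_, ?_, ?_, ?_⟩
  · intro a b r
    by_cases h : cl r ≤ 1 / 2
    · simp only [h, if_true]; exact hgconn a _ (hcl0 r) h
    · simp only [h, if_false]
      exact hgconn b _ (by linarith [hcl1 r]) (by linarith [not_le.mp h])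
  · intro a b
    have h : cl 0 = 0 := by simp [hcl]
    simp only [h]
    rw [if_pos (by norm_num)]
    exact hg0 a
  · intro a b
    have h : cl 1 = 1 := by simp [hcl]
    simp only [h]
    rw [if_neg (by norm_num), sub_self]
    exact hg0 b
  · intro ε hε
    obtain ⟨δ, hδ, hd⟩ := hgmod (ε / 2) (by positivity)
    refine ⟨δ, hδ, ?_⟩
    have key : ∀ a b r r', |r - r'| ≤ δ → cl r ≤ 1 / 2 → ¬ cl r' ≤ 1 / 2 →
        dist (g a (cl r)) (g b (1 - cl r')) ≤ ε := by
      intro a b r r' hrr h1 h2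
      have h2' := not_le.mp h2
      have h3 := (hcld r r').trans hrr
      have h4 := (abs_le.mp h3).1
      have d1 : dist (g a (cl r)) (g a (1 / 2)) ≤ ε / 2 := by
        apply hd a _ _ (hcl0 r) h1 (by norm_num) le_rfl
        rw [abs_le]; constructor <;> linarith
      have d2 : dist (g b (1 / 2)) (g b (1 - cl r')) ≤ ε / 2 := by
        apply hd b _ _ (by norm_num) le_rfl (by linarith [hcl1 r']) (by linarith)
        rw [abs_le]; constructor <;> linarith
      rw [hgh] at d1 d2
      calc dist (g a (cl r)) (g b (1 - cl r')) ≤ dist (g a (cl r)) ⊤ + dist ⊤ (g b (1 - cl r')) :=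
            dist_triangle _ _ _
        _ ≤ ε := by linarith
    intro a b r r' hrr
    by_cases h1 : cl r ≤ 1 / 2 <;> by_cases h2 : cl r' ≤ 1 / 2
    · simp only [h1, h2, if_true]
      exact (hd a _ _ (hcl0 r) h1 (hcl0 r') h2 ((hcld r r').trans hrr)).trans (by linarith)
    · simp only [h1, h2, if_true, if_false]
      exact key a b r r' hrr h1 h2
    · simp only [h1, h2, if_true, if_false]
      rw [dist_comm]
      exact key a b r' r (by rw [abs_sub_comm]; exact hrr) h2 h1
    · simp only [h1, h2, if_false]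
      have h1' := not_le.mp h1
      have h2' := not_le.mp h2
      refine (hd b _ _ (by linarith [hcl1 r]) (by linarith) (by linarith [hcl1 r'])
        (by linarith) ?_).trans (by linarith)
      have : 1 - cl r - (1 - cl r') = -(cl r - cl r') := by ring
      rw [this, abs_neg]
      exact (hcld r r').trans hrr

end Pool.Agent.WC
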