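import Pool.Agent.WC.ArmDefs

/-! Proof by helper259 (team lemma job). -/

set_option autoImplicit false
open TopologicalSpace Filter Topology Set

namespace Pool.Agent.WC

theorem lo_le {S : Type*} (ι : S → ℕ) {K : Set S} (hK : K.Nonempty) {N : ℕ}
    (hι : ∀ x, ι x ≤ N) : lo ι K ≤ N := by
  obtain ⟨x, -, hx⟩ := Nat.sInf_mem (hK.image ι)
  unfold lo
  rw [← hx]
  exact hι x

theorem hi_le {S : Type*} (ι : S → ℕ) {K : Set S} (hK : K.Nonempty) {N : ℕ}
    (hι : ∀ x, ι x ≤ N) : hi ι K ≤ N := by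
  unfold hi
  refine csSup_le (hK.image ι) ?_
  rintro _ ⟨x, -, rfl⟩
  exact hι x

theorem zig_congr {m M m' M' : ℕ → ℕ} {n : ℕ} (h : ∀ k < n, m k = m' k ∧ M k = M' k) :
    zig m M n = zig m' M' n := by
  unfold zig
  rw [List.flatMap_def, List.flatMap_def]
  congr 1
  apply List.map_congr_left
  intro k hk
  rw [List.mem_range] at hk
  rw [(h k hk).1, (h k hk).2]

/-- TARGET -/
theorem arm_finite {S Z Θ : Type} [MetricSpace S] [MetricSpace Z] [CompactSpace Z] (h : S → Z)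
    (c : ℕ → S) (ι : S → ℕ) (N : ℕ) (hι : ∀ x, ι x ≤ N)
    (κ : Θ → ℝ → NonemptyCompacts S) (γ : Θ → ℝ → Z) (R : ℕ) (ε : ℝ) (hε : 0 < ε) :
    ∃ L : List Θ, ∀ θ, ∃ s ∈ L, List.Forall₂ (fun x y => dist x y ≤ ε)
      (arm h c ι (κ θ) (γ θ) R) (arm h c ι (κ s) (γ s) R) := by
  classical
  obtain ⟨t, -, htf, htc⟩ := finite_cover_balls_of_compact (isCompact_univ (X := Z))
    (half_pos hε)
  have hnet : ∀ z : Z, ∃ y : t, dist z y < ε / 2 := by
    intro z
    have := htc (mem_univ z)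
    simp only [mem_iUnion] at this
    obtain ⟨y, hy, hzy⟩ := this
    exact ⟨⟨y, hy⟩, hzy⟩
  choose net hnet' using hnet
  have : Finite t := htf
  let Code : Type := (Fin (R + 1) → Fin (N + 1) × Fin (N + 1)) × (Fin (R + 1) → t)
  have hfin : Finite Code := by
    show Finite ((Fin (R + 1) → Fin (N + 1) × Fin (N + 1)) × (Fin (R + 1) → t))
    infer_instance
  have := Fintype.ofFinite Code
  let code : Θ → Code := fun θ =>
    (fun k => (⟨lo ι (κ θ ((k : ℕ) / (R : ℝ)) : Set S),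
        Nat.lt_succ_of_le (lo_le ι (NonemptyCompacts.nonempty _) hι)⟩,
      ⟨hi ι (κ θ ((k : ℕ) / (R : ℝ)) : Set S),
        Nat.lt_succ_of_le (hi_le ι (NonemptyCompacts.nonempty _) hι)⟩),
      fun k => net (γ θ ((k : ℕ) / (R : ℝ))))
  rcases isEmpty_or_nonempty Θ with hΘ | ⟨⟨θ₀⟩⟩
  · exact ⟨[], fun θ => hΘ.elim θ⟩
  let f : Code → Θ := fun x => if hx : ∃ θ, code θ = x then hx.choose else θ₀
  refine ⟨Finset.univ.toList.map f, fun θ => ⟨f (code θ), ?_, ?_⟩⟩
  · exact List.mem_map.2 ⟨code θ, Finset.mem_toList.2 (Finset.mem_univ _), rfl⟩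
  have hex : ∃ θ', code θ' = code θ := ⟨θ, rfl⟩
  have hfs : code (f (code θ)) = code θ := by
    show code (if hx : ∃ θ', code θ' = code θ then hx.choose else θ₀) = code θ
    rw [dif_pos hex]
    exact hex.choose_spec
  set s := f (code θ) with hs
  have h1 : ∀ k < R + 1, lo ι (κ θ ((k : ℝ) / R) : Set S) = lo ι (κ s ((k : ℝ) / R) : Set S) ∧
      hi ι (κ θ ((k : ℝ) / R) : Set S) = hi ι (κ s ((k : ℝ) / R) : Set S) := by
    intro k hk
    have h2 := congrFun (congrArg Prod.fst hfs) ⟨k, hk⟩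
    have h3 := congrArg (fun p : Fin (N + 1) × Fin (N + 1) => (p.1 : ℕ)) h2
    have h4 := congrArg (fun p : Fin (N + 1) × Fin (N + 1) => (p.2 : ℕ)) h2
    exact ⟨h3.symm, h4.symm⟩
  have h5 : ∀ k < R + 1, dist (γ θ ((k : ℝ) / R)) (γ s ((k : ℝ) / R)) ≤ ε := by
    intro k hk
    have h2 : net (γ s ((k : ℝ) / R)) = net (γ θ ((k : ℝ) / R)) :=
      congrFun (congrArg Prod.snd hfs) ⟨k, hk⟩
    have h3 := hnet' (γ θ ((k : ℝ) / R))
    have h4 := hnet' (γ s ((k : ℝ) / R))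
    rw [h2] at h4
    have h6 := dist_triangle_right (γ θ ((k : ℝ) / R)) (γ s ((k : ℝ) / R))
      (net (γ θ ((k : ℝ) / R)) : Z)
    linarith
  unfold arm
  rw [zig_congr h1]
  refine List.rel_append ?_ ?_
  · rw [List.forall₂_same]
    intro x _
    rw [dist_self]
    exact hε.le
  · rw [List.forall₂_map_left_iff, List.forall₂_map_right_iff, List.forall₂_same]
    intro k hk
    have hk' : ∃ n < R + 1, (n : ℝ) = k := by
      simpa only [List.bind_eq_flatMap, List.pure_def, List.mem_flatMap, List.mem_range,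
        List.mem_singleton, eq_comm] using hk
    obtain ⟨n, hn, rfl⟩ := hk'
    exact h5 n hn

end Pool.Agent.WC
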