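import Pool.Agent.WC.ZigTrack

/-! Proof by helper285 (team lemma job). -/

set_option autoImplicit false
open TopologicalSpace Filter Topology Set

namespace Pool.Agent.WC

section facts
variable {S : Type*}

lemma lo_le' {ι : S → ℕ} {K : Set S} {w : S} (hw : w ∈ K) : lo ι K ≤ ι w :=
  Nat.sInf_le ⟨w, hw, rfl⟩

lemma lo_mem' {ι : S → ℕ} {K : Set S} (hK : K.Nonempty) : ∃ w ∈ K, ι w = lo ι K :=
  Nat.sInf_mem (hK.image ι)

lemma hi_bdd {ι : S → ℕ} {N : ℕ} (hb : ∀ x, ι x ≤ N) (K : Set S) : BddAbove (ι '' K) :=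
  ⟨N, by rintro _ ⟨x, _, rfl⟩; exact hb x⟩

lemma le_hi' {ι : S → ℕ} {N : ℕ} (hb : ∀ x, ι x ≤ N) {K : Set S} {w : S} (hw : w ∈ K) :
    ι w ≤ hi ι K := le_csSup (hi_bdd hb K) ⟨w, hw, rfl⟩

lemma hi_mem' {ι : S → ℕ} {N : ℕ} (hb : ∀ x, ι x ≤ N) {K : Set S} (hK : K.Nonempty) :
    ∃ w ∈ K, ι w = hi ι K :=
  Nat.sSup_mem (hK.image ι) (hi_bdd hb K)

end facts

lemma close {S : Type*} [MetricSpace S] {K K' : NonemptyCompacts S} {δ : ℝ}
    (h : dist K K' < δ) {x : S} (hx : x ∈ (K : Set S)) : ∃ y ∈ (K' : Set S), dist x y < δ := by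
  rw [Metric.NonemptyCompacts.dist_eq] at h
  exact Metric.exists_dist_lt_of_hausdorffDist_lt hx h
    (Metric.hausdorffEDist_ne_top_of_nonempty_of_bounded K.nonempty K'.nonempty
      K.isCompact.isBounded K'.isCompact.isBounded)

lemma lo_near {S : Type*} [MetricSpace S] {e δ : ℝ} {N : ℕ} {c : ℕ → S} {ι : S → ℕ}
    (D : Disc S e δ N c ι) {K K' : NonemptyCompacts S} (h : dist K K' < δ) :
    lo ι (K : Set S) ≤ lo ι (K' : Set S) + 1 := by
  obtain ⟨w, hw, hw2⟩ := lo_mem' (ι := ι) K'.nonempty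
  obtain ⟨z, hz, hz2⟩ := close (by rwa [dist_comm] at h) hw
  have h1 : lo ι (K : Set S) ≤ ι z := lo_le' hz
  have h2 := D.lip z w (by rw [dist_comm]; exact hz2.le)
  omega

lemma hi_near {S : Type*} [MetricSpace S] {e δ : ℝ} {N : ℕ} {c : ℕ → S} {ι : S → ℕ}
    (D : Disc S e δ N c ι) {K K' : NonemptyCompacts S} (h : dist K K' < δ) :
    hi ι (K : Set S) ≤ hi ι (K' : Set S) + 1 := by
  obtain ⟨w, hw, hw2⟩ := hi_mem' (ι := ι) D.bd K.nonempty
  obtain ⟨z, hz, hz2⟩ := close h hw
  have h1 : ι z ≤ hi ι (K' : Set S) := le_hi' D.bd hz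
  have h2 := D.lip w z hz2.le
  omega

lemma lo_le_hi {S : Type*} [MetricSpace S] {e δ : ℝ} {N : ℕ} {c : ℕ → S} {ι : S → ℕ}
    (D : Disc S e δ N c ι) (K : NonemptyCompacts S) : lo ι (K : Set S) ≤ hi ι (K : Set S) := by
  obtain ⟨w, hw⟩ := K.nonempty
  exact (lo_le' hw).trans (le_hi' D.bd hw)

lemma hi_leT {S : Type*} [MetricSpace S] {e δ : ℝ} {N : ℕ} {c : ℕ → S} {ι : S → ℕ}
    (D : Disc S e δ N c ι) (K : NonemptyCompacts S) : hi ι (K : Set S) ≤ N := by
  obtain ⟨w, hw, hw2⟩ := hi_mem' (ι := ι) D.bd K.nonempty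
  rw [← hw2]; exact D.bd w

lemma chain_range' {r : ℕ → ℕ → Prop} (f : ℕ → ℕ) (n s : ℕ)
    (h : ∀ y, s ≤ y → y + 1 < s + n → r (f y) (f (y + 1))) :
    List.IsChain r ((List.range' s n).map f) := by
  induction n generalizing s with
  | zero => simp
  | succ n ih =>
    cases n with
    | zero => simp
    | succ n =>
      rw [List.range'_succ, List.range'_succ]
      rw [List.map_cons, List.map_cons, List.isChain_cons_cons]
      refine ⟨h s le_rfl (by omega), ?_⟩
      have := ih (s + 1) (fun y h1 h2 => h y (by omega) (by omega))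
      rw [List.range'_succ, List.map_cons] at this
      exact this

lemma mem_zig {m M : ℕ → ℕ} {n x : ℕ} (h : x ∈ zig m M n) : ∃ k, k < n ∧ m k ≤ x ∧ x < M k + 1 := by
  unfold zig blk at h
  rw [List.mem_flatMap] at h
  obtain ⟨k, hk, hx⟩ := h
  rw [List.mem_range] at hk
  rw [List.mem_append, List.mem_reverse, or_self, List.mem_range'_1] at hx
  exact ⟨k, hk, hx.1, by omega⟩

lemma zig_succ (m M : ℕ → ℕ) (n : ℕ) : zig m M (n + 1) = zig m M n ++ blk (m n) (M n) := by
  unfold zig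
  rw [List.range_succ, List.flatMap_append, List.flatMap_singleton]

lemma blk_self (a : ℕ) : blk a a = [a, a] := by
  unfold blk
  have : a + 1 - a = 1 := by omega
  rw [this]
  simp

/-- images of chain points -/
lemma dist_chain {S Z : Type*} [MetricSpace S] [MetricSpace Z] (h : S → Z)
    {e δ : ℝ} {N : ℕ} {c : ℕ → S} {ι : S → ℕ} (D : Disc S e δ N c ι) {ε : ℝ}
    (hh : ∀ x y : S, dist x y ≤ e → dist (h x) (h y) ≤ ε / 8) (k a : ℕ) (hk : a + k ≤ N) :
    dist (h (c a)) (h (c (a + k))) ≤ k * (ε / 8) := by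
  induction k with
  | zero => simp
  | succ k ih =>
    have h1 := ih (by omega)
    have h2 := hh _ _ (D.step (a + k) (by omega))
    have h3 := dist_triangle (h (c a)) (h (c (a + k))) (h (c (a + (k + 1))))
    have : a + k + 1 = a + (k + 1) := by ring
    rw [this] at h2
    push_cast
    linarith

lemma dist_chain' {S Z : Type*} [MetricSpace S] [MetricSpace Z] (h : S → Z)
    {e δ : ℝ} {N : ℕ} {c : ℕ → S} {ι : S → ℕ} (D : Disc S e δ N c ι) {ε : ℝ} (hε : 0 ≤ ε)
    (hh : ∀ x y : S, dist x y ≤ e → dist (h x) (h y) ≤ ε / 8) (a b : ℕ) (ha : a ≤ N)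
    (hb : b ≤ N) (h1 : a ≤ b + 6) (h2 : b ≤ a + 6) :
    dist (h (c a)) (h (c b)) ≤ 6 * (ε / 8) := by
  rcases le_total a b with hab | hab
  · have h3 := dist_chain h D hh (b - a) a (by omega)
    rw [show a + (b - a) = b by omega] at h3
    have h4 : ((b - a : ℕ) : ℝ) ≤ 6 := by exact_mod_cast (by omega : b - a ≤ 6)
    calc _ ≤ ((b - a : ℕ) : ℝ) * (ε / 8) := h3
      _ ≤ 6 * (ε / 8) := by gcongr
  · have h3 := dist_chain h D hh (a - b) b (by omega)
    rw [show b + (a - b) = a by omega] at h3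
    have h4 : ((a - b : ℕ) : ℝ) ≤ 6 := by exact_mod_cast (by omega : a - b ≤ 6)
    rw [dist_comm]
    calc _ ≤ ((a - b : ℕ) : ℝ) * (ε / 8) := h3
      _ ≤ 6 * (ε / 8) := by gcongr

lemma arith1 (i q R k : ℕ) (hR : 0 < R) (hq : 0 < q) (h1 : i / q ≤ k) (h2 : k ≤ i / q + 1) :
    |(k : ℝ) / R - (i : ℝ) / (R * q : ℕ)| ≤ 1 / R := by
  have hR' : (0 : ℝ) < R := by exact_mod_cast hR
  have hq' : (0 : ℝ) < q := by exact_mod_cast hq
  have e : (k : ℝ) / R - (i : ℝ) / (R * q : ℕ) = ((k : ℝ) - (i : ℝ) / q) / R := by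
    push_cast; field_simp
  rw [e, abs_div, abs_of_pos hR']
  gcongr
  have h3 : ((i / q : ℕ) : ℝ) ≤ (i : ℝ) / q := Nat.cast_div_le
  have h4 : (i : ℝ) / q < ((i / q : ℕ) : ℝ) + 1 := by
    rw [div_lt_iff₀ hq']
    have : i < (i / q + 1) * q := Nat.lt_mul_of_div_lt (Nat.lt_succ_self _) hq
    exact_mod_cast this
  have h5 : ((i / q : ℕ) : ℝ) ≤ k := by exact_mod_cast h1
  have h6 : (k : ℝ) ≤ ((i / q : ℕ) : ℝ) + 1 := by exact_mod_cast h2
  rw [abs_le]
  constructor <;> linarith

lemma cast_list {Z : Type*} (l : List ℕ) (f : ℝ → Z) :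
    List.map f (do
      let a ← l
      pure (a : ℝ)) = l.map (fun k : ℕ => f k) := by
  have h : (do
      let a ← l
      pure (a : ℝ)) = l.map (fun k : ℕ => (k : ℝ)) := (List.map_eq_flatMap ..).symm
  rw [h, List.map_map]
  rfl

/-- TARGET -/
theorem arm_track {S Z : Type} [MetricSpace S] [CompactSpace S] [MetricSpace Z] (h : S → Z)
    {e δ : ℝ} {N : ℕ} {c : ℕ → S} {ι : S → ℕ} (D : Disc S e δ N c ι)
    {e' δ' : ℝ} {N' : ℕ} {c' : ℕ → S} {ι' : S → ℕ} (D' : Disc S e' δ' N' c' ι') (he' : e' ≤ δ)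
    (κ : ℝ → NonemptyCompacts S) (hκc : ∀ r, IsConnected (κ r : Set S)) (b σ : S)
    (κ0 : κ 0 = {b}) (κ1 : κ 1 = {σ}) (R q : ℕ) (hR : 0 < R) (hq : 0 < q)
    (hκ : ∀ r r' : ℝ, |r - r'| ≤ 1 / R → dist (κ r) (κ r') < δ)
    (hκ' : ∀ r r' : ℝ, |r - r'| ≤ 1 / (R * q : ℕ) → dist (κ r) (κ r') < δ')
    (γ : ℝ → Z) (γ0 : γ 0 = h σ) (ε : ℝ)
    (hγ : ∀ r r' : ℝ, |r - r'| ≤ 1 / R → dist (γ r) (γ r') ≤ ε)
    (hh : ∀ x y : S, dist x y ≤ e → dist (h x) (h y) ≤ ε / 8) :
    Trk (Near (arm h c ι κ γ R) ε) 0 (arm h c' ι' κ γ (R * q))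
      ((arm h c ι κ γ R).length - 1) := by
  classical
  have hR' : (0 : ℝ) < R := by exact_mod_cast hR
  have hq' : (0 : ℝ) < q := by exact_mod_cast hq
  have hRq : 0 < R * q := Nat.mul_pos hR hq
  have hRq' : (0 : ℝ) < (R * q : ℕ) := by exact_mod_cast hRq
  have he0 : 0 ≤ e := dist_nonneg.trans (D.near b)
  have hε : 0 ≤ ε := by
    have := hh b b (by rw [dist_self]; exact he0)
    rw [dist_self] at this; linarith
  set m : ℕ → ℕ := fun k => lo ι (κ ((k : ℝ) / R) : Set S) with hm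
  set M : ℕ → ℕ := fun k => hi ι (κ ((k : ℝ) / R) : Set S) with hM
  set m' : ℕ → ℕ := fun k => lo ι' (κ ((k : ℝ) / (R * q : ℕ)) : Set S) with hm'
  set M' : ℕ → ℕ := fun k => hi ι' (κ ((k : ℝ) / (R * q : ℕ)) : Set S) with hM'
  set A : List ℕ := zig m M (R + 1) with hA
  set A' : List ℕ := zig m' M' (R * q + 1) with hA'
  have harm : arm h c ι κ γ R = A.map (fun i => h (c i)) ++
      (List.range (R + 1)).map (fun k : ℕ => γ ((k : ℝ) / R)) := by
    rw [← cast_list (List.range (R + 1)) (fun k : ℝ => γ (k / R))]; rfl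
  have harm' : arm h c' ι' κ γ (R * q) = A'.map (fun i => h (c' i)) ++
      (List.range (R * q + 1)).map (fun k : ℕ => γ ((k : ℝ) / (R * q : ℕ))) := by
    rw [← cast_list (List.range (R * q + 1)) (fun k : ℝ => γ (k / (R * q : ℕ)))]; rfl
  have hstep : ∀ k : ℕ, dist (κ ((k : ℝ) / R)) (κ (((k + 1 : ℕ) : ℝ) / R)) < δ := by
    intro k
    apply hκ
    have : (k : ℝ) / R - ((k + 1 : ℕ) : ℝ) / R = -(1 / R) := by push_cast; field_simp; ring
    rw [this, abs_neg, abs_of_pos (by positivity)]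
  have hstep' : ∀ k : ℕ, dist (κ ((k : ℝ) / (R * q : ℕ))) (κ (((k + 1 : ℕ) : ℝ) / (R * q : ℕ))) < δ' := by
    intro k
    apply hκ'
    have : (k : ℝ) / (R * q : ℕ) - ((k + 1 : ℕ) : ℝ) / (R * q : ℕ) = -(1 / (R * q : ℕ)) := by
      rw [← sub_div]; push_cast; ring
    rw [this, abs_neg, abs_of_pos (by positivity)]
  have hsub : ∀ i : ℕ, dist (κ (((i / q : ℕ) : ℝ) / R)) (κ ((i : ℝ) / (R * q : ℕ))) < δ := by
    intro i
    exact hκ _ _ (arith1 i q R (i / q) hR hq le_rfl (by omega))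
  have hlip1 : ∀ z : S, ι z ≤ ι (c' (ι' z)) + 1 ∧ ι (c' (ι' z)) ≤ ι z + 1 := by
    intro z
    have h1 := (D'.near z).trans he'
    exact ⟨D.lip _ _ h1, D.lip _ _ (by rw [dist_comm]; exact h1)⟩
  have hlip2 : ∀ y, y < N' → ι (c' y) ≤ ι (c' (y + 1)) + 1 ∧ ι (c' (y + 1)) ≤ ι (c' y) + 1 := by
    intro y hy
    have h1 := (D'.step y hy).trans he'
    exact ⟨D.lip _ _ h1, D.lip _ _ (by rw [dist_comm]; exact h1)⟩
  -- the ends
  have hm0 : ∀ x : S, lo ι (({x} : NonemptyCompacts S) : Set S) = ι x := by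
    intro x
    simp [lo]
  have hM0 : ∀ x : S, hi ι (({x} : NonemptyCompacts S) : Set S) = ι x := by
    intro x
    simp [hi]
  have hmR : m R = ι σ := by
    simp only [hm]; rw [div_self hR'.ne', κ1]; exact hm0 σ
  have hMR : M R = ι σ := by
    simp only [hM]; rw [div_self hR'.ne', κ1]; exact hM0 σ
  have hmz : m 0 = ι b := by
    simp only [hm]; rw [Nat.cast_zero, zero_div, κ0]; exact hm0 b
  have hMz : M 0 = ι b := by
    simp only [hM]; rw [Nat.cast_zero, zero_div, κ0]; exact hM0 b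
  set V : ℕ → List ℕ := fun i => (List.range' (m' i) (M' i + 1 - m' i)).map (fun y => ι (c' y)) with hV
  have hmM' : ∀ i, m' i ≤ M' i := fun i => lo_le_hi D' _
  have hMN' : ∀ i, M' i ≤ N' := fun i => hi_leT D' _
  have hmemV : ∀ i v, v ∈ V i ↔ ∃ y, m' i ≤ y ∧ y ≤ M' i ∧ ι (c' y) = v := by
    intro i v
    simp only [hV, List.mem_map, List.mem_range'_1]
    have := hmM' i
    constructor
    · rintro ⟨y, ⟨h1, h2⟩, h3⟩; exact ⟨y, h1, by omega, h3⟩
    · rintro ⟨y, h1, h2, h3⟩; exact ⟨y, ⟨h1, by omega⟩, h3⟩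
  have hcons : ∀ i, V i = ι (c' (m' i)) ::
      (List.range' (m' i + 1) (M' i - m' i)).map (fun y => ι (c' y)) := by
    intro i
    have h1 : M' i + 1 - m' i = (M' i - m' i) + 1 := by have := hmM' i; omega
    simp only [hV]
    rw [h1, List.range'_succ, List.map_cons]
  have htrack := zig_track m M R (fun k => lo_le_hi D _)
    (fun k => ⟨lo_near D (hstep k), lo_near D (by rw [dist_comm]; exact hstep k)⟩)
    (fun k => ⟨hi_near D (hstep k), hi_near D (by rw [dist_comm]; exact hstep k)⟩)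
    (by rw [hmz, hMz]) (by rw [hmR, hMR])
    (fun i => i / q) (by simp) (by
      intro i
      simp only [Nat.succ_div]
      split_ifs
      · exact Or.inr rfl
      · exact Or.inl rfl)
    V (fun i => by rw [hcons i]; simp) (by
      intro i
      apply chain_range'
      intro y h1 h2
      apply hlip2
      have := hmM' i
      have := hMN' i
      omega) (by
      intro i v hv
      obtain ⟨y, h1, h2, rfl⟩ := (hmemV i v).1 hv
      obtain ⟨w1, hw1, hw1'⟩ := lo_mem' (ι := ι') (κ ((i : ℝ) / (R * q : ℕ))).nonempty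
      obtain ⟨w2, hw2, hw2'⟩ := hi_mem' (ι := ι') D'.bd (κ ((i : ℝ) / (R * q : ℕ))).nonempty
      obtain ⟨z, hz, rfl⟩ := D'.ivt _ (hκc _).isPreconnected w1 hw1 w2 hw2 y
        (by rw [hw1']; exact h1) (by rw [hw2']; exact h2)
      obtain ⟨w, hw, hw'⟩ := close (by rw [dist_comm]; exact hsub i) hz
      have f1 := D.lip _ _ hw'.le
      have f2 := D.lip w z (by rw [dist_comm]; exact hw'.le)
      have f3 : m (i / q) ≤ ι w := lo_le' hw
      have f4 : ι w ≤ M (i / q) := le_hi' D.bd hw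
      have f5 := hlip1 z
      constructor <;> omega) (by
      intro i
      obtain ⟨w, hw, hw'⟩ := hi_mem' (ι := ι) D.bd (κ (((i / q : ℕ) : ℝ) / R)).nonempty
      obtain ⟨z, hz, hz'⟩ := close (hsub i) hw
      have f1 := D.lip _ _ hz'.le
      have f5 := hlip1 z
      refine ⟨ι (c' (ι' z)), (hmemV i _).2 ⟨ι' z, lo_le' hz, le_hi' D'.bd hz, rfl⟩, ?_⟩
      have f6 : M (i / q) = ι w := hw'.symm
      omega) (by
      intro i
      obtain ⟨w, hw, hw'⟩ := lo_mem' (ι := ι) (κ (((i / q : ℕ) : ℝ) / R)).nonempty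
      obtain ⟨z, hz, hz'⟩ := close (hsub i) hw
      have f1 := D.lip z w (by rw [dist_comm]; exact hz'.le)
      have f5 := hlip1 z
      refine ⟨ι (c' (ι' z)), (hmemV i _).2 ⟨ι' z, lo_le' hz, le_hi' D'.bd hz, rfl⟩, ?_⟩
      have f6 : m (i / q) = ι w := hw'.symm
      omega) (by
      intro i x hx y hy
      rw [hcons i] at hx
      rw [hcons (i + 1)] at hy
      simp only [List.head?_cons, Option.mem_def, Option.some.injEq] at hx hy
      subst hx hy
      have g1 : m' i ≤ m' (i + 1) + 1 := lo_near D' (hstep' i)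
      have g2 : m' (i + 1) ≤ m' i + 1 := lo_near D' (by rw [dist_comm]; exact hstep' i)
      have g3 := hMN' i
      have g4 := hMN' (i + 1)
      have g5 := hmM' i
      have g6 := hmM' (i + 1)
      rcases Nat.lt_trichotomy (m' i) (m' (i + 1)) with g | g | g
      · have g7 : m' (i + 1) = m' i + 1 := by omega
        rw [g7]
        exact hlip2 _ (by omega)
      · rw [g]; omega
      · have g7 : m' i = m' (i + 1) + 1 := by omega
        rw [g7]
        have := hlip2 (m' (i + 1)) (by omega)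
        exact ⟨this.2, this.1⟩)
    (R * q) (Nat.mul_div_cancel _ hq)
  have hzig : (List.range (R * q + 1)).flatMap (fun i => V i ++ (V i).reverse) =
      A'.map (fun y => ι (c' y)) := by
    simp only [hA', zig, blk, hV, List.map_flatMap, List.map_append, List.map_reverse]
  rw [hzig] at htrack
  have ht1 := htrack.of_map (fun y => ι (c' y))
  have hlen : A = zig m M R ++ [ι σ, ι σ] := by
    rw [hA, zig_succ, hmR, hMR, blk_self]
  have hL : A.length = (zig m M R).length + 2 := by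
    rw [hlen]; simp
  have hAle : ∀ x ∈ A, x ≤ N := by
    intro x hx
    obtain ⟨k, _, _, h3⟩ := mem_zig hx
    have : M k ≤ N := hi_leT D _
    omega
  have ht2 : Trk (fun p y => Near (arm h c ι κ γ R) ε p (h (c' y))) 0 A' (A.length - 2) := by
    refine ht1.mono ?_
    rintro p y - ⟨x, hx1, hx2, hx3⟩
    change A[p]? = some x at hx1
    have hp : p < A.length := by
      by_contra hcon
      rw [List.getElem?_eq_none (by omega)] at hx1
      simp at hx1
    refine ⟨h (c x), ?_, ?_⟩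
    · rw [harm, List.getElem?_append_left (by simpa using hp), List.getElem?_map, hx1]
      rfl
    · have hxN : x ≤ N := hAle x (List.mem_of_getElem? hx1)
      have g1 := dist_chain' h D hε hh x (ι (c' y)) hxN (D.bd _) hx2 hx3
      have g2 := hh _ _ (D.near (c' y))
      rw [dist_comm] at g2
      have g3 := dist_triangle (h (c x)) (h (c (ι (c' y)))) (h (c' y))
      linarith
  have ht3 := Trk.map (R := Near (arm h c ι κ γ R) ε) (fun y => h (c' y)) ht2
  -- the hair
  have hhair : ∀ k, k ≤ R → (arm h c ι κ γ R)[A.length + k]? = some (γ ((k : ℝ) / R)) := by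
    intro k hk
    rw [harm, List.getElem?_append_right (by simp)]
    rw [List.length_map, Nat.add_sub_cancel_left, List.getElem?_map, List.getElem?_range (by omega)]
    rfl
  have hend : ∀ p, A.length - 2 ≤ p → p < A.length →
      (arm h c ι κ γ R)[p]? = some (h (c (ι σ))) := by
    intro p h1 h2
    rw [harm, List.getElem?_append_left (by simpa using h2), List.getElem?_map]
    have : A[p]? = some (ι σ) := by
      rw [hlen, List.getElem?_append_right (by omega)]
      have : p - (zig m M R).length = 0 ∨ p - (zig m M R).length = 1 := by omega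
      rcases this with h3 | h3 <;> rw [h3] <;> rfl
    rw [this]; rfl
  have ht4 := Trk.of_fn (R := Near (arm h c ι κ γ R) ε) (R * q + 1)
    (fun k : ℕ => γ ((k : ℝ) / (R * q : ℕ)))
    (fun i => if i = 0 then A.length - 2 else A.length + min (i / q) R) (by
      intro i hi p hp1 hp2
      have hiR : i / q ≤ R := by
        have : i / q ≤ (R * q) / q := Nat.div_le_div_right (by omega)
        rwa [Nat.mul_div_cancel _ hq] at this
      have hs : (i + 1) / q ≤ i / q + 1 := by
        rw [Nat.succ_div]; split_ifs <;> omega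
      have hs' : i / q ≤ (i + 1) / q := Nat.div_le_div_right (by omega)
      have hy1 : i / q ≤ min ((i + 1) / q) R := le_min hs' hiR
      have hy2 : min ((i + 1) / q) R ≤ i / q + 1 := (min_le_left _ _).trans hs
      have hy3 : min ((i + 1) / q) R ≤ R := min_le_right _ _
      have hcase : ∀ k, k ≤ R → i / q ≤ k → k ≤ i / q + 1 →
          Near (arm h c ι κ γ R) ε (A.length + k) (γ ((i : ℝ) / (R * q : ℕ))) := by
        intro k hk h1 h2
        exact ⟨_, hhair k hk, hγ _ _ (arith1 i q R k hR hq h1 h2)⟩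
      by_cases hi0 : i = 0
      · subst hi0
        simp only [if_true, zero_add, Nat.zero_div] at hp1 hp2 hs hs' hcase hy1 hy2 hy3 ⊢
        rw [if_neg (by omega)] at hp1 hp2
        generalize min (1 / q) R = y at hp1 hp2 hy1 hy2 hy3
        rw [min_eq_left (by omega)] at hp1
        rw [max_eq_right (by omega)] at hp2
        by_cases hpA : p < A.length
        · refine ⟨_, hend p (by omega) hpA, ?_⟩
          have g2 := hh _ _ (D.near σ)
          rw [dist_comm] at g2
          rw [Nat.cast_zero, zero_div, γ0]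
          linarith
        · have := hcase (p - A.length) (by omega) (by omega) (by omega)
          rwa [show A.length + (p - A.length) = p by omega] at this
      · rw [if_neg hi0, if_neg (by omega), min_eq_left hiR] at hp1 hp2
        generalize min ((i + 1) / q) R = y at hp1 hp2 hy1 hy2 hy3
        rw [min_eq_left (by omega)] at hp1
        rw [max_eq_right (by omega)] at hp2
        have hLp : A.length ≤ p := (Nat.le_add_right _ _).trans hp1
        have := hcase (p - A.length) (by omega) (by omega) (by omega)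
        rwa [show A.length + (p - A.length) = p by omega] at this)
  have hfin : (arm h c ι κ γ R).length - 1 = A.length + R := by
    rw [harm]; simp
  have hRq1 : R ≤ (R * q + 1) / q := by
    rw [Nat.le_div_iff_mul_le hq]; omega
  simp only [if_true] at ht4
  rw [if_neg (by omega), min_eq_right hRq1] at ht4
  rw [hfin, harm']
  exact ht3.append ht4

end Pool.Agent.WC
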