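import Pool.Agent.WC.Defs

/-! Proof by helper939 (team lemma job). -/

set_option autoImplicit false
open TopologicalSpace Filter Topology Set

namespace Pool.Agent.WC

theorem exists_disc {S : Type*} [MetricSpace S] [CompactSpace S] [ConnectedSpace S]
    (h : IsChainable S) (ε : ℝ) (hε : 0 < ε) :
    ∃ δ > 0, ∃ (N : ℕ) (c : ℕ → S) (ι : S → ℕ), Disc S ε δ N c ι := by
  classical
  obtain ⟨g, hg, hfib⟩ := h ε hε
  have hη : ∃ η > 0, ∀ x y, |g x - g y| ≤ 2 * η → dist x y ≤ ε := by
    have hKc : IsCompact {p : S × S | ε ≤ dist p.1 p.2} :=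
      (isClosed_le continuous_const (by fun_prop)).isCompact
    rcases Set.eq_empty_or_nonempty {p : S × S | ε ≤ dist p.1 p.2} with hE | hE
    · refine ⟨1, one_pos, fun x y _ => ?_⟩
      by_contra hcon
      push Not at hcon
      have : (x, y) ∈ {p : S × S | ε ≤ dist p.1 p.2} := hcon.le
      rw [hE] at this
      exact this
    · obtain ⟨p0, hp0, hmin⟩ := hKc.exists_isMinOn hE (f := fun p : S × S => |g p.1 - g p.2|) (by fun_prop)
      have hm : 0 < |g p0.1 - g p0.2| := by
        rw [abs_pos, sub_ne_zero]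
        intro heq
        have h1 : dist p0.1 p0.2 ≤ Metric.diam (g ⁻¹' {g p0.1}) := by
          apply Metric.dist_le_diam_of_mem
          · exact isCompact_univ.isBounded.subset (Set.subset_univ _)
          · simp
          · simp [heq]
        have h2 := hfib (g p0.1)
        have h3 : ε ≤ dist p0.1 p0.2 := hp0
        linarith
      refine ⟨|g p0.1 - g p0.2| / 3, by positivity, fun x y hxy => ?_⟩
      by_contra hcon
      push Not at hcon
      have h4 : (x, y) ∈ {p : S × S | ε ≤ dist p.1 p.2} := hcon.le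
      have h5 := hmin h4
      simp only [Set.mem_ofPred_eq] at h5
      linarith
  obtain ⟨η, hη0, hη⟩ := hη
  obtain ⟨x0, -, hx0⟩ := isCompact_univ.exists_isMinOn (Set.univ_nonempty (α := S)) hg.continuousOn
  obtain ⟨x1, -, hx1⟩ := isCompact_univ.exists_isMaxOn (Set.univ_nonempty (α := S)) hg.continuousOn
  have hlo : ∀ x, g x0 ≤ g x := fun x => hx0 (Set.mem_univ x)
  have hhi : ∀ x, g x ≤ g x1 := fun x => hx1 (Set.mem_univ x)
  obtain ⟨δ, hδ0, hδ⟩ := Metric.uniformContinuous_iff.mp (CompactSpace.uniformContinuous_of_continuous hg) η hη0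
  have hsurj : ∀ r, g x0 ≤ r → r ≤ g x1 → ∃ z, g z = r := fun r h1 h2 =>
    mem_range_of_exists_le_of_exists_ge hg ⟨x0, h1⟩ ⟨x1, h2⟩
  set N : ℕ := ⌊(g x1 - g x0) / η⌋₊ with hN
  have hch : ∀ i : ℕ, ∃ z, i ≤ N → g z = g x0 + i * η := by
    intro i
    by_cases hi : i ≤ N
    · have h1 : (i : ℝ) ≤ (g x1 - g x0) / η := (Nat.le_floor_iff (div_nonneg (by linarith [hlo x1]) hη0.le)).mp hi
      rw [le_div_iff₀ hη0] at h1
      obtain ⟨z, hz⟩ := hsurj (g x0 + i * η) (by have : 0 ≤ (i:ℝ) * η := by positivity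
                                                 linarith) (by linarith)
      exact ⟨z, fun _ => hz⟩
    · exact ⟨x0, fun h => absurd h hi⟩
  choose c hc using hch
  have hnn : ∀ x, 0 ≤ (g x - g x0) / η := fun x => div_nonneg (by linarith [hlo x]) hη0.le
  have hle : ∀ x, ⌊(g x - g x0) / η⌋₊ ≤ N := fun x => Nat.floor_le_floor (by
    apply div_le_div_of_nonneg_right _ hη0.le
    linarith [hhi x])
  have hval : ∀ (z : S) (i : ℕ), g z = g x0 + i * η → ⌊(g z - g x0) / η⌋₊ = i := by
    intro z i hz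
    rw [hz]
    have : (g x0 + i * η - g x0) / η = i := by field_simp; ring
    rw [this, Nat.floor_natCast]
  refine ⟨δ / 2, by positivity, N, c, fun x => ⌊(g x - g x0) / η⌋₊, ?_, ?_, ?_, ?_, ?_, ?_⟩
  · exact hle
  · intro x
    apply hη
    rw [hc _ (hle x)]
    have h1 := Nat.floor_le (hnn x)
    have h2 := Nat.lt_floor_add_one ((g x - g x0) / η)
    rw [le_div_iff₀ hη0] at h1
    rw [div_lt_iff₀ hη0] at h2
    rw [abs_le]
    constructor <;> nlinarith
  · intro x y hxy
    have h1 := hδ (a := x) (b := y) (by linarith)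
    rw [Real.dist_eq, abs_lt] at h1
    have h2 : (g x - g x0) / η ≤ (g y - g x0) / η + 1 := by
      rw [div_add_one hη0.ne']
      apply div_le_div_of_nonneg_right _ hη0.le
      linarith [h1.2]
    show ⌊(g x - g x0) / η⌋₊ ≤ ⌊(g y - g x0) / η⌋₊ + 1
    calc ⌊(g x - g x0) / η⌋₊ ≤ ⌊(g y - g x0) / η + 1⌋₊ := Nat.floor_le_floor h2
      _ = _ := Nat.floor_add_one (hnn y)
  · intro i hi
    apply hη
    rw [hc i hi.le, hc (i + 1) hi]
    push_cast
    rw [abs_le]
    constructor <;> nlinarith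
  · intro i hi
    exact hval _ _ (hc i hi)
  · intro K hK x hx y hy i hix hiy
    by_cases h1 : ⌊(g y - g x0) / η⌋₊ = i
    · exact ⟨y, hy, h1⟩
    by_cases h2 : ⌊(g x - g x0) / η⌋₊ = i
    · exact ⟨x, hx, h2⟩
    have h3 : ⌊(g x - g x0) / η⌋₊ < i := lt_of_le_of_ne hix h2
    have h4 : (g x - g x0) / η < i := (Nat.floor_lt (hnn x)).mp h3
    have h5 : (i : ℝ) ≤ (g y - g x0) / η := (Nat.le_floor_iff (hnn y)).mp hiy
    rw [div_lt_iff₀ hη0] at h4
    rw [le_div_iff₀ hη0] at h5
    obtain ⟨z, hz, hz2⟩ := hK.intermediate_value hx hy hg.continuousOn (show g x0 + i * η ∈ Set.Icc (g x) (g y) from ⟨by linarith, by linarith⟩)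
    exact ⟨z, hz, hval z i hz2⟩

end Pool.Agent.WC
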