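import Pool.Agent.WC.ArmsCrit
import Pool.Agent.WC.ArmFinite
import Pool.Agent.WC.ArmTrack
import Pool.Agent.WC.DiscEx

set_option autoImplicit false
open TopologicalSpace Filter Topology Set

namespace Pool.Agent.WC

theorem zig_head? (m M : ℕ → ℕ) (n : ℕ) (h : m 0 ≤ M 0) :
    (zig m M (n + 1)).head? = some (m 0) := by
  have e : zig m M (n + 1) = blk (m 0) (M 0) ++
      ((List.range n).map Nat.succ).flatMap (fun k => blk (m k) (M k)) := by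
    unfold zig
    rw [List.range_succ_eq_map]
    simp
  have e2 : ∃ k, M 0 + 1 - m 0 = k + 1 := ⟨M 0 - m 0, by omega⟩
  obtain ⟨k, hk⟩ := e2
  rw [e]
  unfold blk
  rw [hk, List.range'_succ]
  simp

theorem lo_singleton {S : Type*} [TopologicalSpace S] (ι : S → ℕ) (b : S) :
    lo ι (({b} : NonemptyCompacts S) : Set S) = ι b := by
  unfold lo
  have : (({b} : NonemptyCompacts S) : Set S) = {b} := rfl
  rw [this, Set.image_singleton]
  simp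

theorem hi_singleton {S : Type*} [TopologicalSpace S] (ι : S → ℕ) (b : S) :
    hi ι (({b} : NonemptyCompacts S) : Set S) = ι b := by
  unfold hi
  have : (({b} : NonemptyCompacts S) : Set S) = {b} := rfl
  rw [this, Set.image_singleton]
  simp

theorem arm_head? {S Z : Type*} [TopologicalSpace S] (h : S → Z) (c : ℕ → S) (ι : S → ℕ)
    (κ : ℝ → NonemptyCompacts S) (γ : ℝ → Z) (R : ℕ) (b : S) (hb : κ 0 = {b}) :
    (arm h c ι κ γ R).head? = some (h (c (ι b))) := by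
  unfold arm
  have h0 : κ (((0 : ℕ) : ℝ) / R) = {b} := by simpa using hb
  have hz := zig_head? (fun k => lo ι (κ ((k : ℝ) / R) : Set S))
    (fun k => hi ι (κ ((k : ℝ) / R) : Set S)) R (by
      show lo ι (κ (((0 : ℕ) : ℝ) / R) : Set S) ≤ hi ι (κ (((0 : ℕ) : ℝ) / R) : Set S)
      rw [h0, lo_singleton, hi_singleton])
  rw [List.head?_append, List.head?_map, hz]
  show some (h (c (lo ι (κ (((0 : ℕ) : ℝ) / R) : Set S)))) = _
  rw [h0, lo_singleton]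

theorem arm_getLast? {S Z : Type*} [TopologicalSpace S] (h : S → Z) (c : ℕ → S) (ι : S → ℕ)
    (κ : ℝ → NonemptyCompacts S) (γ : ℝ → Z) (R : ℕ) (hR : 0 < R) :
    (arm h c ι κ γ R).getLast? = some (γ 1) := by
  have h1 : (R : ℝ) / R = 1 := div_self (by exact_mod_cast hR.ne')
  unfold arm
  rw [List.getLast?_append]
  simp [List.range_succ, h1]

theorem thmC {S Z : Type} [MetricSpace S] [CompactSpace S] [ConnectedSpace S]
    (hS : IsChainable S) [MetricSpace Z] [CompactSpace Z] [Nonempty Z] (h : S → Z)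
    (hc : Continuous h) (b : S) (σ : Z → S) (κ : Z → ℝ → NonemptyCompacts S)
    (κc : ∀ θ r, IsConnected (κ θ r : Set S)) (κ0 : ∀ θ, κ θ 0 = {b}) (κ1 : ∀ θ, κ θ 1 = {σ θ})
    (κu : ∀ ε > 0, ∃ δ > 0, ∀ θ r r', |r - r'| ≤ δ → dist (κ θ r) (κ θ r') ≤ ε)
    (γ : Z → ℝ → Z) (γ0 : ∀ θ, γ θ 0 = h (σ θ)) (γ1 : ∀ θ, γ θ 1 = θ)
    (γu : ∀ ε > 0, ∃ δ > 0, ∀ θ r r', |r - r'| ≤ δ → dist (γ θ r) (γ θ r') ≤ ε) :
    ∃ (Y : Type) (_ : MetricSpace Y), CompactSpace Y ∧ ConnectedSpace Y ∧ IsChainable Y ∧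
      ∃ F : Y → Z, Continuous F ∧ Function.Surjective F := by
  classical
  let ε : ℕ → ℝ := fun n => (1 / 2 : ℝ) ^ n / 2
  have εpos : ∀ n, 0 < ε n := fun n => by positivity
  let G : ℕ → ℝ → ℝ → ℕ → (ℕ → S) → (S → ℕ) → ℕ → Prop := fun n e δ N c ι R =>
    Disc S e δ N c ι ∧ 0 < δ ∧ 0 < R ∧
      (∀ θ (r r' : ℝ), |r - r'| ≤ 1 / R → dist (κ θ r) (κ θ r') < δ) ∧
      (∀ θ (r r' : ℝ), |r - r'| ≤ 1 / R → dist (γ θ r) (γ θ r') ≤ ε n) ∧
      (∀ x y : S, dist x y ≤ e → dist (h x) (h y) ≤ ε n / 8)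
  -- existence of data
  have data : ∀ (n : ℕ) (δ0 : ℝ), 0 < δ0 → ∀ R0 : ℕ, 0 < R0 →
      ∃ e δ N c ι q, e ≤ δ0 ∧ 0 < q ∧ G n e δ N c ι (R0 * q) := by
    intro n δ0 hδ0 R0 hR0
    have huc := CompactSpace.uniformContinuous_of_continuous hc
    obtain ⟨ρ, hρ, hρ'⟩ := Metric.uniformContinuous_iff.1 huc (ε n / 8) (by have := εpos n; positivity)
    obtain ⟨δ, hδ, N, c, ι, D⟩ := exists_disc hS (min (ρ / 2) δ0) (lt_min (by linarith) hδ0)
    obtain ⟨δ1, hδ1, h1⟩ := κu (δ / 2) (by linarith)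
    obtain ⟨δ2, hδ2, h2⟩ := γu (ε n) (εpos n)
    obtain ⟨q, hq⟩ := exists_nat_gt (1 / min δ1 δ2)
    have hmin : 0 < min δ1 δ2 := lt_min hδ1 hδ2
    have hq0 : (0 : ℝ) < q := lt_trans (by positivity) hq
    have hq0' : 0 < q := by exact_mod_cast hq0
    have hRq : (1 : ℝ) / ((R0 * q : ℕ) : ℝ) ≤ min δ1 δ2 := by
      have hR1 : (1 : ℝ) ≤ R0 := by exact_mod_cast hR0
      have : (q : ℝ) ≤ ((R0 * q : ℕ) : ℝ) := by
        push_cast
        nlinarith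
      calc (1 : ℝ) / ((R0 * q : ℕ) : ℝ) ≤ 1 / q := one_div_le_one_div_of_le hq0 this
        _ ≤ min δ1 δ2 := by
          rw [div_le_iff₀ hq0]
          rw [div_lt_iff₀ hmin] at hq
          linarith
    refine ⟨_, δ, N, c, ι, q, min_le_right _ _, hq0', D, hδ, Nat.mul_pos hR0 hq0', ?_, ?_, ?_⟩
    · intro θ r r' hr
      have := h1 θ r r' (hr.trans (hRq.trans (min_le_left _ _)))
      linarith
    · intro θ r r' hr
      exact h2 θ r r' (hr.trans (hRq.trans (min_le_right _ _)))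
    · intro x y hxy
      exact (hρ' (lt_of_le_of_lt (hxy.trans (min_le_left _ _)) (by linarith))).le
  let Q : ℕ → (Z → List Z) → Prop := fun n A => ∃ e δ N c ι R, G n e δ N c ι R ∧
    A = fun θ => arm h c ι (κ θ) (γ θ) R
  refine arms_crit (Θ := Z) (Z := Z) id Function.surjective_id Q ?_ ?_ ?_ ?_ ?_
  · obtain ⟨e, δ, N, c, ι, q, _, _, hG⟩ := data 0 1 one_pos 1 one_pos
    exact ⟨_, e, δ, N, c, ι, _, hG, rfl⟩
  · rintro n A ⟨e, δ, N, c, ι, R, hG, rfl⟩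
    exact ⟨h (c (ι b)), fun θ => arm_head? h c ι (κ θ) (γ θ) R b (κ0 θ)⟩
  · rintro n A ⟨e, δ, N, c, ι, R, hG, rfl⟩ θ
    show (arm h c ι (κ θ) (γ θ) R).getLast? = some θ
    rw [arm_getLast? _ _ _ _ _ _ hG.2.2.1, γ1]
  · rintro n A ⟨e, δ, N, c, ι, R, ⟨D, hδ, hR, h1, h2, h3⟩, rfl⟩
    obtain ⟨e', δ', N', c', ι', q, he', hq, ⟨D', hδ', hR', h1', h2', h3'⟩⟩ := data (n + 1) δ hδ R hR
    refine ⟨_, ⟨e', δ', N', c', ι', _, ⟨D', hδ', hR', h1', h2', h3'⟩, rfl⟩, fun θ => ?_⟩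
    exact arm_track h D D' he' (κ θ) (κc θ) b (σ θ) (κ0 θ) (κ1 θ) R q hR hq (h1 θ) (h1' θ)
      (γ θ) (γ0 θ) (ε n) (h2 θ) h3
  · rintro n A ⟨e, δ, N, c, ι, R, ⟨D, hδ, hR, h1, h2, h3⟩, rfl⟩
    exact arm_finite h c ι N D.bd κ γ R (ε n) (εpos n)

end Pool.Agent.WC
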