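import Pool.Agent.WC.StepA
import Pool.Agent.WC.ThmC
import Pool.Agent.WC.Kappa
import Pool.Agent.WC.Hair

/-!
# Weak chainability is a Whitney property (frozen statement S08375 of MP_4bbdcb_gt)

Outline of the proof. `X` is a continuous image of a chainable continuum `Y₀`, `μ` a Whitney map, `0 < t < μ X`.

* `stepA` : the windows of size `t` sliding along the fine chains of `Y₀` are consistent from one
  chain to the next one and give a chainable continuum `S` and a map `h : S → μ⁻¹(t)` such that the
  continua `h s` cover `X`.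
* `exists_hair` : every element `A` of `μ⁻¹(t)` is joined to some `h s` (one that meets `A`) by a
  path in `μ⁻¹(t)`, with a modulus of continuity not depending on `A` (order arcs).
* `exists_kappa` : in the hyperspace of subcontinua of `S` there are uniformly continuous paths
  from `{b}` to `{s}`, for all `s`.
* `thmC` : a path in the hyperspace of subcontinua of a chainable continuum `S` from `{b}` to `{s}`
  is followed by zigzags in the chains of `S`, and these zigzags are consistent from one chain to
  the next one (`zig_track`, `arm_track`); together with the paths of `exists_hair` they form a fan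
  of chainable continua with a common end point, and such a fan is a continuous image of a
  chainable continuum (`fan_track`, `arms_crit`, `criterion`). Hence a compact space that is covered
  by a uniformly continuous family of paths starting in a chainable image is weakly chainable.
-/

set_option autoImplicit false
open TopologicalSpace Filter Topology Set

namespace Pool.Agent.WC

theorem main (X : Type) [MetricSpace X] [CompactSpace X] [ConnectedSpace X]
    (hX : ∃ (Y : Type) (_ : MetricSpace Y), CompactSpace Y ∧ ConnectedSpace Y ∧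
        IsChainable Y ∧ ∃ f : Y → X, Continuous f ∧ Function.Surjective f)
    (μ : NonemptyCompacts X → ℝ)
    (hμc : ContinuousOn μ {K : NonemptyCompacts X | IsConnected (K : Set X)})
    (hμ0 : ∀ K : NonemptyCompacts X, (∃ x : X, (K : Set X) = {x}) → μ K = 0)
    (hμm : ∀ A B : NonemptyCompacts X, IsConnected (A : Set X) → IsConnected (B : Set X) →
          (A : Set X) ⊂ (B : Set X) → μ A < μ B)
    (t : ℝ) (ht : ∃ K : NonemptyCompacts X, IsConnected (K : Set X) ∧ μ K = t) :
    ∃ (Y : Type) (_ : MetricSpace Y), CompactSpace Y ∧ ConnectedSpace Y ∧ IsChainable Y ∧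
      ∃ f : Y → ↥{K : NonemptyCompacts X | IsConnected (K : Set X) ∧ μ K = t},
            Continuous f ∧ Function.Surjective f := by
  classical
  obtain ⟨K0, hK0c, hK0t⟩ := ht
  have hsing : ∀ x : X, μ {x} = 0 := fun x => hμ0 {x} ⟨x, rfl⟩
  have hsc : ∀ x : X, IsConnected (({x} : NonemptyCompacts X) : Set X) := fun x =>
    isConnected_singleton
  have hsub : ∀ (K : NonemptyCompacts X) (x : X), x ∈ K → IsConnected (K : Set X) →
      μ K = 0 → K = {x} := by
    intro K x hx hK h0
    by_contra hne
    have hlt := hμm {x} K (hsc x) hK (by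
      refine Set.ssubset_iff_subset_ne.2 ⟨?_, ?_⟩
      · intro y hy
        rw [Set.mem_singleton_iff.1 hy]
        exact hx
      · intro h
        exact hne (NonemptyCompacts.ext h.symm))
    rw [hsing x, h0] at hlt
    exact lt_irrefl _ hlt
  obtain ⟨x0, hx0⟩ := K0.nonempty
  have ht0 : 0 ≤ t := by
    by_cases h : K0 = {x0}
    · rw [← hK0t, h, hsing]
    · have hlt := hμm {x0} K0 (hsc x0) hK0c (by
        refine Set.ssubset_iff_subset_ne.2 ⟨?_, ?_⟩
        · intro y hy
          rw [Set.mem_singleton_iff.1 hy]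
          exact hx0
        · intro h'
          exact h (NonemptyCompacts.ext h'.symm))
      rw [hsing, hK0t] at hlt
      exact hlt.le
  have htopc : IsConnected ((⊤ : NonemptyCompacts X) : Set X) := by
    rw [NonemptyCompacts.coe_top]
    exact isConnected_univ
  have hle : ∀ K : NonemptyCompacts X, IsConnected (K : Set X) → K ≠ ⊤ → μ K < μ ⊤ := by
    intro K hK hne
    apply hμm K ⊤ hK htopc
    rw [NonemptyCompacts.coe_top]
    refine Set.ssubset_univ_iff.2 ?_
    intro h
    apply hne
    apply NonemptyCompacts.ext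
    rw [h, NonemptyCompacts.coe_top]
  rcases eq_or_lt_of_le ht0 with h0 | h0
  · -- t = 0
    obtain ⟨Y, iY, hYc, hYconn, hYch, f, hf, hfs⟩ := hX
    refine ⟨Y, iY, hYc, hYconn, hYch, fun y => ⟨{f y}, hsc _, by rw [hsing, h0]⟩, ?_, ?_⟩
    · refine Continuous.subtype_mk ?_ _
      exact NonemptyCompacts.continuous_singleton.comp hf
    · rintro ⟨K, hKc, hKt⟩
      obtain ⟨x, hx⟩ := K.nonempty
      obtain ⟨y, hy⟩ := hfs x
      refine ⟨y, ?_⟩
      apply Subtype.ext
      show ({f y} : NonemptyCompacts X) = K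
      rw [hy]
      exact (hsub K x hx hKc (by rw [hKt, h0])).symm
  by_cases htop : μ ⊤ = t
  · refine ⟨PUnit, inferInstance, inferInstance, inferInstance, ?_, fun _ => ⟨⊤, htopc, htop⟩, ?_, ?_⟩
    · intro ε hε
      refine ⟨fun _ => 0, continuous_const, fun r => ?_⟩
      rw [Metric.diam_subsingleton (Set.subsingleton_of_subsingleton)]
      exact hε
    · exact continuous_const
    · rintro ⟨K, hKc, hKt⟩
      refine ⟨PUnit.unit, Subtype.ext ?_⟩
      show ⊤ = K
      by_contra hne
      have := hle K hKc (fun h => hne h.symm)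
      rw [hKt, htop] at this
      exact lt_irrefl _ this
  have ht1 : t < μ ⊤ := by
    rcases eq_or_ne K0 ⊤ with h | h
    · rw [h] at hK0t
      exact absurd hK0t htop
    · rw [← hK0t]
      exact hle K0 hK0c h
  -- extension
  have hcl := isClosed_conn X
  obtain ⟨ωc, hωc⟩ := ContinuousMap.exists_restrict_eq hcl
    (⟨_, hμc.domRestrict⟩ : C({K : NonemptyCompacts X | IsConnected (K : Set X)}, ℝ))
  have hω : ∀ K : NonemptyCompacts X, IsConnected (K : Set X) → ωc K = μ K := by
    intro K hK
    have := congrArg (fun g : C({K : NonemptyCompacts X | IsConnected (K : Set X)}, ℝ) => g ⟨K, hK⟩) hωc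
    simpa using this
  have hm : SMC ωc := by
    intro A B hA hB hAB
    rw [hω A hA, hω B hB]
    exact hμm A B hA hB hAB
  have hs0 : ∀ x : X, ωc {x} < t := fun x => by
    rw [hω _ (hsc x), hsing]
    exact h0
  obtain ⟨Y, iY, hYc, hYconn, hYch, f, hf, hfs⟩ := hX
  obtain ⟨S, iS, hSc, hSconn, hSch, h, hh, hht, hcov⟩ := stepA X Y hYch f hf hfs ωc ωc.continuous hm t hs0
    (by rw [hω _ htopc]; exact ht1)
  obtain ⟨κ, κc, κ0, κ1, κu⟩ := exists_kappa S
  obtain ⟨γ, hγ, γu⟩ := exists_hair X ωc ωc.continuous hm t hs0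
  let Z : Type := ↥{K : NonemptyCompacts X | IsConnected (K : Set X) ∧ μ K = t}
  have hZcl : IsClosed {K : NonemptyCompacts X | IsConnected (K : Set X) ∧ μ K = t} := by
    have : {K : NonemptyCompacts X | IsConnected (K : Set X) ∧ μ K = t}
        = {K : NonemptyCompacts X | IsConnected (K : Set X)} ∩ (ωc ⁻¹' {t}) := by
      ext K
      constructor
      · rintro ⟨h1, h2⟩
        exact ⟨h1, by simp [hω K h1, h2]⟩
      · rintro ⟨h1, h2⟩
        refine ⟨h1, ?_⟩
        rw [← hω K h1]
        exact h2
    rw [this]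
    exact hcl.inter (isClosed_singleton.preimage ωc.continuous)
  have : CompactSpace Z := isCompact_iff_compactSpace.1 hZcl.isCompact
  have : Nonempty Z := ⟨⟨K0, hK0c, hK0t⟩⟩
  have hZ : ∀ z : Z, ωc z.1 = t := fun z => by rw [hω _ z.2.1]; exact z.2.2
  -- attaching points
  have hσ : ∀ z : Z, ∃ s : S, ((h s : Set X) ∩ z.1).Nonempty := by
    intro z
    obtain ⟨x, hx⟩ := z.1.nonempty
    obtain ⟨s, hs⟩ := hcov x
    exact ⟨s, x, hs, hx⟩
  choose σ hσ using hσ
  have : Nonempty S := ⟨σ (Classical.arbitrary Z)⟩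
  let b : S := Classical.arbitrary S
  have hg : ∀ z : Z, _ := fun z => hγ (h (σ z)) z.1 (hht _).1 (hht _).2 z.2.1 (hZ z) (hσ z)
  let γ' : Z → ℝ → Z := fun z r => ⟨γ (h (σ z)) z.1 r, ((hg z).2.2 r).1, by
    rw [← hω _ ((hg z).2.2 r).1]
    exact ((hg z).2.2 r).2⟩
  let h' : S → Z := fun s => ⟨h s, (hht s).1, by rw [← hω _ (hht s).1]; exact (hht s).2⟩
  obtain ⟨Y', iY', a1, a2, a3, F, hF, hFs⟩ := thmC hSch h' (hh.subtype_mk _) b σ (fun z => κ b (σ z))
    (fun z r => κc _ _ r) (fun z => κ0 _ _) (fun z => κ1 _ _)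
    (fun ε hε => by
      obtain ⟨δ, hδ, hδ'⟩ := κu ε hε
      exact ⟨δ, hδ, fun θ r r' hr => hδ' _ _ r r' hr⟩)
    γ' (fun z => Subtype.ext (hg z).1) (fun z => Subtype.ext (hg z).2.1)
    (fun ε hε => by
      obtain ⟨δ, hδ, hδ'⟩ := γu ε hε
      refine ⟨δ, hδ, fun z r r' hr => ?_⟩
      exact hδ' (h (σ z)) z.1 (hht _).1 (hht _).2 z.2.1 (hZ z) (hσ z) r r' hr)
  exact ⟨Y', iY', a1, a2, a3, F, hF, hFs⟩

end Pool.Agent.WC
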