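import Pool.Agent.WC.Track

set_option autoImplicit false
open TopologicalSpace Filter Topology Set

namespace Pool.Agent.WC

/-- up and down through the integer interval `[m, M]` -/
def blk (m M : ℕ) : List ℕ :=
  List.range' m (M + 1 - m) ++ (List.range' m (M + 1 - m)).reverse

/-- zigzag through the intervals `[m k, M k]`, `k < n` -/
def zig (m M : ℕ → ℕ) (n : ℕ) : List ℕ := (List.range n).flatMap (fun k => blk (m k) (M k))

/-- smallest index on a set -/
noncomputable def lo {S : Type*} (ι : S → ℕ) (K : Set S) : ℕ := sInf (ι '' K)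

/-- largest index on a set -/
noncomputable def hi {S : Type*} (ι : S → ℕ) (K : Set S) : ℕ := sSup (ι '' K)

/-- the discretised arm: a zigzag following the path `κ` of subcontinua, then the path `γ` -/
noncomputable def arm {S Z : Type*} [TopologicalSpace S] (h : S → Z) (c : ℕ → S) (ι : S → ℕ)
    (κ : ℝ → NonemptyCompacts S) (γ : ℝ → Z) (R : ℕ) : List Z :=
  (zig (fun k => lo ι (κ ((k : ℝ) / R) : Set S)) (fun k => hi ι (κ ((k : ℝ) / R) : Set S))
      (R + 1)).map (fun i => h (c i)) ++
    (List.range (R + 1)).map (fun k => γ ((k : ℝ) / R))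

/-- the finite set `{p i : i between u and v}` -/
noncomputable def seg {X : Type*} [TopologicalSpace X] (p : ℕ → X) (u v : ℕ) :
    NonemptyCompacts X :=
  ⟨⟨p '' Set.Icc (min u v) (max u v), ((Set.finite_Icc _ _).image p).isCompact⟩,
    ⟨p (min u v), ⟨min u v, ⟨le_rfl, min_le_max⟩, rfl⟩⟩⟩

/-- the window of radius `r` around the index `x` -/
noncomputable def wseg {X : Type*} [TopologicalSpace X] (p : ℕ → X) (N r x : ℕ) :
    NonemptyCompacts X := seg p (x - r) (min (x + r) N)

end Pool.Agent.WC
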