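import Pool.Agent.WC.Criterion
import Pool.Agent.WC.ArmDefs

/-! Proof by helper833 (team lemma job). -/

set_option autoImplicit false
open TopologicalSpace Filter Topology Set

namespace Pool.Agent.WC


theorem forall₂_getElem? {α β : Type*} {R : α → β → Prop} {l : List α} {l' : List β}
    (h : List.Forall₂ R l l') : ∀ (m : ℕ) (z : α), l[m]? = some z → ∃ z', l'[m]? = some z' ∧ R z z' := by
  induction h with
  | nil => intro m z hz; simp at hz
  | @cons a b l l' hab _ ih =>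
    intro m z hz
    cases m with
    | zero =>
      simp only [List.getElem?_cons_zero, Option.some.injEq] at hz
      subst hz
      exact ⟨b, by simp, hab⟩
    | succ m =>
      rw [List.getElem?_cons_succ] at hz ⊢
      exact ih m z hz

/-- TARGET -/
theorem arms_crit {Z Θ : Type} [MetricSpace Z] [CompactSpace Z] [Nonempty Θ] (tip : Θ → Z)
    (htip : Function.Surjective tip) (Q : ℕ → (Θ → List Z) → Prop) (h0 : ∃ A, Q 0 A)
    (hb : ∀ n A, Q n A → ∃ b : Z, ∀ θ, (A θ).head? = some b)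
    (hl : ∀ n A, Q n A → ∀ θ, (A θ).getLast? = some (tip θ))
    (hs : ∀ n A, Q n A → ∃ A', Q (n + 1) A' ∧
      ∀ θ, Trk (Near (A θ) ((1 / 2 : ℝ) ^ n / 2)) 0 (A' θ) ((A θ).length - 1))
    (hf : ∀ n A, Q n A → ∃ S : List Θ, ∀ θ, ∃ s ∈ S,
      List.Forall₂ (fun x y => dist x y ≤ (1 / 2 : ℝ) ^ n / 2) (A θ) (A s)) :
    ∃ (Y : Type) (_ : MetricSpace Y), CompactSpace Y ∧ ConnectedSpace Y ∧ IsChainable Y ∧
      ∃ F : Y → Z, Continuous F ∧ Function.Surjective F := by
  classical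
  let P : ℕ → List Z → Prop := fun n L => ∃ A, Q n A ∧ ∃ S : List Θ, S ≠ [] ∧
    (∀ θ, ∃ s ∈ S, List.Forall₂ (fun x y => dist x y ≤ (1 / 2 : ℝ) ^ n / 2) (A θ) (A s)) ∧
    L = Fan A S
  have hAne : ∀ n A, Q n A → ∀ s, A s ≠ [] := by
    intro n A hA s hs'
    obtain ⟨b, hb'⟩ := hb n A hA
    have := hb' s
    rw [hs'] at this
    simp at this
  have hP0 : ∃ L, P 0 L := by
    obtain ⟨A, hA⟩ := h0
    obtain ⟨S, hS⟩ := hf 0 A hA
    refine ⟨Fan A S, A, hA, S, ?_, hS, rfl⟩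
    rintro rfl
    obtain ⟨s, hs', -⟩ := hS (Classical.arbitrary Θ)
    simp at hs'
  have hPne : ∀ n L, P n L → L ≠ [] := by
    rintro n L ⟨A, hA, S, hS, -, rfl⟩
    exact Fan_ne_nil hS (fun s _ => hAne n A hA s)
  have hPs : ∀ n L, P n L → ∃ L', P (n + 1) L' ∧ ∃ i j, Trk (Near L ((1 / 2 : ℝ) ^ n)) i L' j := by
    rintro n L ⟨A, hA, S, hSne, hS, rfl⟩
    obtain ⟨A', hA', htrk⟩ := hs n A hA
    obtain ⟨T, hT⟩ := hf (n + 1) A' hA'
    obtain ⟨b, hb'⟩ := hb n A hA
    let G : Θ → List Θ := fun s => (T.filter (fun s' =>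
      List.Forall₂ (fun x y => dist x y ≤ (1 / 2 : ℝ) ^ n / 2) (A s') (A s))) ++ [s]
    have hGself : ∀ s, s ∈ G s := fun s => by simp [G]
    have hGne : ∀ s, G s ≠ [] := fun s hs' => by
      have := hGself s
      rw [hs'] at this
      simp at this
    have hGclose : ∀ s, ∀ s' ∈ G s,
        List.Forall₂ (fun x y => dist x y ≤ (1 / 2 : ℝ) ^ n / 2) (A s') (A s) := by
      intro s s' hs'
      simp only [G, List.mem_append, List.mem_filter, List.mem_singleton, decide_eq_true_eq] at hs'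
      rcases hs' with hs' | rfl
      · exact hs'.2
      · rw [List.forall₂_same]
        intro x _
        rw [dist_self]
        positivity
    have hGtrk : ∀ s, ∀ s' ∈ G s, Trk (Near (A s) ((1 / 2 : ℝ) ^ n)) 0 (A' s') ((A s).length - 1) := by
      intro s s' hs'
      have hcl := hGclose s s' hs'
      have hlen := hcl.length_eq
      have h1 := htrk s'
      rw [hlen] at h1
      refine h1.mono (fun m x _ hx => ?_)
      obtain ⟨z, hz, hd⟩ := hx
      obtain ⟨z', hz', hd'⟩ := forall₂_getElem? hcl m z hz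
      refine ⟨z', hz', ?_⟩
      have h2 : dist z' x ≤ dist z' z + dist z x := dist_triangle _ _ _
      rw [dist_comm z' z] at h2
      linarith
    have htr := fan_track b hb' (hAne (n + 1) A' hA') G hGne hGtrk S hSne
    refine ⟨Fan A' (S.flatMap G), ⟨A', hA', S.flatMap G, ?_, ?_, rfl⟩, 0, _, htr⟩
    · obtain ⟨s, hs'⟩ := List.exists_mem_of_ne_nil S hSne
      intro hnil
      have : s ∈ S.flatMap G := List.mem_flatMap.2 ⟨s, hs', hGself s⟩
      rw [hnil] at this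
      simp at this
    · intro θ
      obtain ⟨s', hs', hcl⟩ := hT θ
      obtain ⟨s, hsS, hcl2⟩ := hS s'
      refine ⟨s', List.mem_flatMap.2 ⟨s, hsS, ?_⟩, hcl⟩
      simp only [G, List.mem_append, List.mem_filter, List.mem_singleton, decide_eq_true_eq]
      exact Or.inl ⟨hs', hcl2⟩
  obtain ⟨L, hL, Y, hY, hYc, hYconn, hYch, F, hF, -, hFs⟩ := criterion P hP0 hPne hPs
  refine ⟨Y, hY, hYc, hYconn, hYch, F, hF, ?_⟩
  intro z
  apply hFs
  intro ε hε n₀
  obtain ⟨θ, rfl⟩ := htip z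
  obtain ⟨n1, hn1⟩ := exists_pow_lt_of_lt_one hε (show (1 / 2 : ℝ) < 1 by norm_num)
  obtain ⟨A, hA, S, -, hS, hLn⟩ := hL (max n₀ n1)
  obtain ⟨s, hsS, hcl⟩ := hS θ
  have hlast := hl _ A hA θ
  rw [List.getLast?_eq_getElem?] at hlast
  obtain ⟨z', hz', hd⟩ := forall₂_getElem? hcl _ _ hlast
  refine ⟨max n₀ n1, le_max_left _ _, z', ?_, ?_⟩
  · rw [hLn, Fan, List.mem_flatMap]
    exact ⟨s, hsS, List.mem_append_left _ (List.mem_of_getElem? hz')⟩
  · have h1 : (1 / 2 : ℝ) ^ (max n₀ n1) ≤ (1 / 2 : ℝ) ^ n1 :=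
      pow_le_pow_of_le_one (by norm_num) (by norm_num) (le_max_right _ _)
    have h2 : (0 : ℝ) ≤ (1 / 2 : ℝ) ^ (max n₀ n1) := by positivity
    linarith

end Pool.Agent.WC
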