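import Pool.Agent.WC.InvLim

/-! Proof by helper125 (team lemma job). -/

set_option autoImplicit false
open TopologicalSpace Filter Topology Set

namespace Pool.Agent.WC

theorem trk_q {α : Type*} {R : ℕ → α → Prop} {i j : ℕ} {l : List α} (h : Trk R i l j) :
    ∃ q : ℕ → ℕ, q 0 = i ∧ q l.length = j ∧ ∀ k x, l[k]? = some x →
      ∀ m, min (q k) (q (k + 1)) ≤ m → m ≤ max (q k) (q (k + 1)) → R m x := by
  induction h with
  | nil i => exact ⟨fun _ => i, rfl, rfl, fun k x hx => by simp at hx⟩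
  | @cons i j k x l hR _ ih =>
    obtain ⟨q, h0, h1, h2⟩ := ih
    refine ⟨fun n => Nat.casesOn n i q, rfl, ?_, ?_⟩
    · simpa using h1
    · intro n y hy m hm1 hm2
      cases n with
      | zero =>
        simp only [List.getElem?_cons_zero, Option.some.injEq] at hy
        subst hy
        simp only [zero_add] at hm1 hm2
        change min i (q 0) ≤ m at hm1
        change m ≤ max i (q 0) at hm2
        rw [h0] at hm1 hm2
        exact hR m hm1 hm2
      | succ n =>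
        simp only [List.getElem?_cons_succ] at hy
        exact h2 n y hy m hm1 hm2

/-- piecewise linear interpolation -/
noncomputable def pl (q : ℕ → ℕ) (N : ℕ) (x : ℝ) : ℝ :=
  (q 0 : ℝ) + ∑ k ∈ Finset.range N, ((q (k + 1) : ℝ) - q k) * max 0 (min 1 (x - k))

theorem pl_cont (q : ℕ → ℕ) (N : ℕ) : Continuous (pl q N) := by
  unfold pl
  fun_prop

theorem pl_succ (q : ℕ → ℕ) (N : ℕ) (x : ℝ) :
    pl q (N + 1) x = pl q N x + ((q (N + 1) : ℝ) - q N) * max 0 (min 1 (x - N)) := by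
  unfold pl
  rw [Finset.sum_range_succ]
  ring

theorem pl_ge (q : ℕ → ℕ) (N : ℕ) (x : ℝ) (hx : (N : ℝ) ≤ x) : pl q N x = q N := by
  induction N with
  | zero => simp [pl]
  | succ N ih =>
    push_cast at hx
    rw [pl_succ, ih (by linarith)]
    have h1 : max 0 (min 1 (x - N)) = 1 := by
      rw [min_eq_left (by linarith), max_eq_right (by norm_num)]
    rw [h1]
    ring

theorem pl_mid (q : ℕ → ℕ) (N j : ℕ) (hj : j < N) (x : ℝ) (hx : (j : ℝ) ≤ x) (hx' : x ≤ j + 1) :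
    pl q N x = q j + ((q (j + 1) : ℝ) - q j) * (x - j) := by
  induction N with
  | zero => omega
  | succ N ih =>
    rw [pl_succ]
    rcases Nat.lt_succ_iff_lt_or_eq.mp hj with h | h
    · rw [ih h]
      have h2 : (j : ℝ) + 1 ≤ N := by exact_mod_cast h
      have h1 : max 0 (min 1 (x - N)) = 0 := by
        apply max_eq_left
        exact (min_le_right _ _).trans (by linarith)
      rw [h1]
      ring
    · subst h
      rw [pl_ge q j x hx]
      have h1 : max 0 (min 1 (x - j)) = x - j := by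
        rw [min_eq_right (by linarith), max_eq_right (by linarith)]
      rw [h1]

theorem pl_between (q : ℕ → ℕ) (N j : ℕ) (hj : j < N) (x : ℝ) (hx : (j : ℝ) ≤ x)
    (hx' : x ≤ j + 1) :
    ((min (q j) (q (j + 1)) : ℕ) : ℝ) ≤ pl q N x ∧ pl q N x ≤ ((max (q j) (q (j + 1)) : ℕ) : ℝ) := by
  rw [pl_mid q N j hj x hx hx']
  obtain ⟨t, ht⟩ : ∃ t, t = x - j := ⟨_, rfl⟩
  rw [← ht]
  have t0 : 0 ≤ t := by rw [ht]; linarith
  have t1 : t ≤ 1 := by rw [ht]; linarith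
  rcases le_total (q j) (q (j + 1)) with h | h
  · have h' : (q j : ℝ) ≤ q (j + 1) := by exact_mod_cast h
    rw [min_eq_left h, max_eq_right h]
    constructor <;> nlinarith
  · have h' : (q (j + 1) : ℝ) ≤ q j := by exact_mod_cast h
    rw [min_eq_right h, max_eq_left h]
    constructor <;> nlinarith

/-- value of a list at a real position -/
noncomputable def Gv {Z : Type*} (z0 : Z) (L : List Z) (x : ℝ) : Z :=
  L.getD (min ⌊x⌋₊ (L.length - 1)) z0

theorem Gv_mem {Z : Type*} (z0 : Z) (L : List Z) (hL : L ≠ []) (x : ℝ) : Gv z0 L x ∈ L := by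
  unfold Gv
  have h : min ⌊x⌋₊ (L.length - 1) < L.length := by
    have := List.length_pos_iff.mpr hL
    omega
  rw [List.getD_eq_getElem _ _ h]
  exact List.getElem_mem h

theorem Gv_get {Z : Type*} (z0 : Z) (L : List Z) (x : ℝ) (m : ℕ) (z : Z) (hz : L[m]? = some z)
    (hm : ⌊x⌋₊ = m) : Gv z0 L x = z := by
  obtain ⟨h, rfl⟩ := List.getElem?_eq_some_iff.mp hz
  unfold Gv
  rw [hm, min_eq_left (by omega), List.getD_eq_getElem _ _ h]

/-- the data of one step -/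
def Stp {Z : Type*} [PseudoMetricSpace Z] (L L' : List Z) (ε : ℝ) (q : ℕ → ℕ) : Prop :=
  ∀ k x, L'[k]? = some x → ∀ m, min (q k) (q (k + 1)) ≤ m → m ≤ max (q k) (q (k + 1)) →
    Near L ε m x

theorem K1 {Z : Type*} [PseudoMetricSpace Z] (z0 : Z) (L L' : List Z) (ε : ℝ) (q : ℕ → ℕ)
    (hq : Stp L L' ε q) (hL' : L' ≠ []) (x : ℝ) (hx : x ∈ Icc 0 (L'.length : ℝ)) :
    pl q L'.length x ∈ Icc 0 (L.length : ℝ) ∧
      dist (Gv z0 L (pl q L'.length x)) (Gv z0 L' x) ≤ ε := by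
  have hN := List.length_pos_iff.mpr hL'
  obtain ⟨j, hj⟩ : ∃ j, j = min ⌊x⌋₊ (L'.length - 1) := ⟨_, rfl⟩
  have hjN : j < L'.length := by omega
  have hj1 : (j : ℝ) ≤ x := by
    have h1 : (j : ℝ) ≤ ⌊x⌋₊ := by
      have : j ≤ ⌊x⌋₊ := by omega
      exact_mod_cast this
    exact h1.trans (Nat.floor_le hx.1)
  have hj2 : x ≤ j + 1 := by
    rcases le_total ⌊x⌋₊ (L'.length - 1) with h | h
    · rw [min_eq_left h] at hj
      rw [hj]
      exact (Nat.lt_floor_add_one x).le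
    · rw [min_eq_right h] at hj
      have h1 : j + 1 = L'.length := by omega
      have h2 : (j : ℝ) + 1 = L'.length := by exact_mod_cast h1
      rw [h2]
      exact hx.2
  have hb := pl_between q L'.length j hjN x hj1 hj2
  have hget : L'[j]? = some (L'[j]) := List.getElem?_eq_getElem hjN
  have hGx : Gv z0 L' x = L'[j] := by
    unfold Gv
    rw [← hj, List.getD_eq_getElem _ _ hjN]
  constructor
  · refine ⟨le_trans (Nat.cast_nonneg _) hb.1, hb.2.trans ?_⟩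
    obtain ⟨z, hz, _⟩ := hq j _ hget (max (q j) (q (j + 1))) (min_le_max) le_rfl
    obtain ⟨h, _⟩ := List.getElem?_eq_some_iff.mp hz
    exact_mod_cast h.le
  · have hm1 : min (q j) (q (j + 1)) ≤ ⌊pl q L'.length x⌋₊ := Nat.le_floor hb.1
    have hm2 : ⌊pl q L'.length x⌋₊ ≤ max (q j) (q (j + 1)) := Nat.floor_le_of_le hb.2
    obtain ⟨z, hz, hd⟩ := hq j _ hget _ hm1 hm2
    rw [Gv_get z0 L _ _ z hz rfl, hGx]
    exact hd

theorem K2a {Z : Type*} [PseudoMetricSpace Z] (L L' : List Z) (ε : ℝ) (q : ℕ → ℕ)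
    (hq : Stp L L' ε q) (k : ℕ) (x y : Z) (hx : L'[k]? = some x) (hy : L'[k + 1]? = some y) :
    dist x y ≤ 2 * ε := by
  obtain ⟨z, hz, hd⟩ := hq k x hx (q (k + 1)) (min_le_right _ _) (le_max_right _ _)
  obtain ⟨z', hz', hd'⟩ := hq (k + 1) y hy (q (k + 1)) (min_le_left _ _) (le_max_left _ _)
  rw [hz] at hz'
  obtain rfl := Option.some.inj hz'
  calc dist x y ≤ dist z x + dist z y := dist_triangle_left _ _ _
    _ ≤ 2 * ε := by linarith

theorem K2 {Z : Type*} [PseudoMetricSpace Z] (z0 : Z) (L L' : List Z) (ε : ℝ) (hε : 0 ≤ ε)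
    (q : ℕ → ℕ) (hq : Stp L L' ε q) (hL' : L' ≠ []) (x y : ℝ) (hx : 0 ≤ x) (hy : 0 ≤ y)
    (hxy : |x - y| < 1) : dist (Gv z0 L' x) (Gv z0 L' y) ≤ 2 * ε := by
  have key : ∀ x y : ℝ, 0 ≤ x → 0 ≤ y → |x - y| < 1 → ⌊x⌋₊ ≤ ⌊y⌋₊ →
      dist (Gv z0 L' x) (Gv z0 L' y) ≤ 2 * ε := by
    intro x y hx hy hxy hfl
    have hN := List.length_pos_iff.mpr hL'
    rw [abs_lt] at hxy
    have h1 : ⌊y⌋₊ ≤ ⌊x⌋₊ + 1 := by
      have h2 := Nat.lt_floor_add_one x
      have h3 : y < (⌊x⌋₊ : ℝ) + 2 := by linarith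
      have h4 : ⌊y⌋₊ < ⌊x⌋₊ + 2 := (Nat.floor_lt hy).mpr (by push_cast; exact h3)
      omega
    unfold Gv
    rcases Nat.lt_or_ge (min ⌊x⌋₊ (L'.length - 1)) (min ⌊y⌋₊ (L'.length - 1)) with h | h
    · have h5 : min ⌊y⌋₊ (L'.length - 1) = min ⌊x⌋₊ (L'.length - 1) + 1 := by omega
      have h6 : min ⌊x⌋₊ (L'.length - 1) + 1 < L'.length := by omega
      rw [h5, List.getD_eq_getElem _ _ h6, List.getD_eq_getElem _ _ (by omega)]
      exact K2a L L' ε q hq _ _ _ (List.getElem?_eq_getElem _) (List.getElem?_eq_getElem h6)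
    · have h5 : min ⌊y⌋₊ (L'.length - 1) = min ⌊x⌋₊ (L'.length - 1) := by omega
      rw [h5, dist_self]
      linarith
  rcases le_total ⌊x⌋₊ ⌊y⌋₊ with h | h
  · exact key x y hx hy hxy h
  · rw [dist_comm]
    exact key y x hy hx (by rw [abs_sub_comm]; exact hxy) h

theorem exists_chain {Z : Type} [MetricSpace Z]
    (P : ℕ → List Z → Prop) (h0 : ∃ L, P 0 L)
    (hs : ∀ n L, P n L → ∃ L', P (n + 1) L' ∧ ∃ i j, Trk (Near L ((1 / 2 : ℝ) ^ n)) i L' j) :
    ∃ (L : ℕ → List Z) (q : ℕ → ℕ → ℕ), (∀ n, P n (L n)) ∧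
      ∀ n, Stp (L n) (L (n + 1)) ((1 / 2 : ℝ) ^ n) (q n) := by
  obtain ⟨L0, hL0⟩ := h0
  let st : ∀ n, {L : List Z // P n L} := fun n =>
    Nat.rec (motive := fun n => {L : List Z // P n L}) ⟨L0, hL0⟩
      (fun n s => ⟨(hs n s.1 s.2).choose, (hs n s.1 s.2).choose_spec.1⟩) n
  have hst : ∀ n, ∃ i j, Trk (Near (st n).1 ((1 / 2 : ℝ) ^ n)) i (st (n + 1)).1 j :=
    fun n => (hs n (st n).1 (st n).2).choose_spec.2
  have h1 : ∀ n, ∃ q : ℕ → ℕ, Stp (st n).1 (st (n + 1)).1 ((1 / 2 : ℝ) ^ n) q := by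
    intro n
    obtain ⟨i, j, h⟩ := hst n
    obtain ⟨q, _, _, h2⟩ := trk_q h
    exact ⟨q, h2⟩
  choose q hq using h1
  exact ⟨fun n => (st n).1, q, fun n => (st n).2, hq⟩

/-- backward orbit -/
noncomputable def bk (lam : ℕ → ℝ → ℝ) (N : ℕ) (x : ℝ) : ℕ → ℝ
  | 0 => x
  | d + 1 => lam (N - (d + 1)) (bk lam N x d)

theorem exists_back (a : ℕ → ℝ) (lam : ℕ → ℝ → ℝ) (G : ℕ → ℝ → ℝ → Prop)
    (hm : ∀ n, ∀ x ∈ Icc 0 (a (n + 1)), lam n x ∈ Icc 0 (a n)) (N : ℕ) (x : ℝ)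
    (hx : x ∈ Icc 0 (a N)) :
    ∃ s : ℕ → ℝ, s N = x ∧ (∀ n ≤ N, s n ∈ Icc 0 (a n)) ∧ ∀ n < N, lam n (s (n + 1)) = s n := by
  refine ⟨fun n => bk lam N x (N - n), by simp [bk], ?_, ?_⟩
  · have key : ∀ d ≤ N, bk lam N x d ∈ Icc 0 (a (N - d)) := by
      intro d
      induction d with
      | zero => intro _; simpa [bk] using hx
      | succ d ih =>
        intro hd
        have h1 := ih (by omega)
        have h2 : N - d = (N - (d + 1)) + 1 := by omega
        rw [h2] at h1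
        exact hm _ _ h1
    intro n hn
    have := key (N - n) (by omega)
    have h2 : N - (N - n) = n := by omega
    rw [h2] at this
    exact this
  · intro n hn
    have h1 : N - n = (N - (n + 1)) + 1 := by omega
    simp only
    rw [h1]
    show lam n (bk lam N x (N - (n + 1))) = lam (N - ((N - (n + 1)) + 1)) (bk lam N x (N - (n + 1)))
    have h2 : N - ((N - (n + 1)) + 1) = n := by omega
    rw [h2]

/-- TARGET: the criterion -/
theorem criterion {Z : Type} [MetricSpace Z] [CompactSpace Z]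
    (P : ℕ → List Z → Prop) (h0 : ∃ L, P 0 L) (hne : ∀ n L, P n L → L ≠ [])
    (hs : ∀ n L, P n L → ∃ L', P (n + 1) L' ∧ ∃ i j, Trk (Near L ((1 / 2 : ℝ) ^ n)) i L' j) :
    ∃ L : ℕ → List Z, (∀ n, P n (L n)) ∧
      ∃ (Y : Type) (_ : MetricSpace Y), CompactSpace Y ∧ ConnectedSpace Y ∧ IsChainable Y ∧
        ∃ F : Y → Z, Continuous F ∧
          (∀ y n, ∃ z ∈ L n, dist (F y) z ≤ 4 * (1 / 2 : ℝ) ^ n) ∧
          (∀ z : Z, (∀ ε > 0, ∀ n₀ : ℕ, ∃ n, n₀ ≤ n ∧ ∃ z' ∈ L n, dist z z' ≤ ε) →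
            ∃ y, F y = z) := by
  obtain ⟨L, q, hP, hq⟩ := exists_chain P h0 hs
  have hLne : ∀ n, L n ≠ [] := fun n => hne n _ (hP n)
  obtain ⟨z0, _⟩ := List.exists_mem_of_ne_nil _ (hLne 0)
  refine ⟨L, hP, ?_⟩
  obtain ⟨lam, hlam⟩ : ∃ lam : ℕ → ℝ → ℝ, lam = fun n => pl (q n) (L (n + 1)).length := ⟨_, rfl⟩
  have hc : ∀ n, Continuous (lam n) := fun n => by rw [hlam]; exact pl_cont _ _
  have hK1 : ∀ n, ∀ x ∈ Icc 0 ((L (n + 1)).length : ℝ), lam n x ∈ Icc 0 ((L n).length : ℝ) ∧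
      dist (Gv z0 (L n) (lam n x)) (Gv z0 (L (n + 1)) x) ≤ (1 / 2 : ℝ) ^ n := by
    intro n x hx
    rw [hlam]
    exact K1 z0 (L n) (L (n + 1)) _ (q n) (hq n) (hLne _) x hx
  have hm : ∀ n, ∀ x ∈ Icc 0 ((L (n + 1)).length : ℝ), lam n x ∈ Icc 0 ((L n).length : ℝ) :=
    fun n x hx => (hK1 n x hx).1
  have hK2 : ∀ n x y, 0 ≤ x → 0 ≤ y → |x - y| < 1 →
      dist (Gv z0 (L (n + 1)) x) (Gv z0 (L (n + 1)) y) ≤ 2 * (1 / 2 : ℝ) ^ n := fun n x y hx hy hxy =>
    K2 z0 (L n) (L (n + 1)) _ (by positivity) (q n) (hq n) (hLne _) x y hx hy hxy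
  obtain ⟨Y, iY, hY1, hY2, hY3, π, hπc, hπm, hπl, hπt⟩ := invlim (fun n => ((L n).length : ℝ))
    (fun n => Nat.cast_nonneg _) lam hc hm
  refine ⟨Y, iY, hY1, hY2, hY3, ?_⟩
  have hstep : ∀ y n, dist (Gv z0 (L n) (π n y)) (Gv z0 (L (n + 1)) (π (n + 1) y)) ≤
      2 / 2 / 2 ^ n := by
    intro y n
    have h1 := (hK1 n (π (n + 1) y) (hπm (n + 1) y)).2
    rw [hπl] at h1
    refine h1.trans (le_of_eq ?_)
    rw [one_div_pow]
    ring
  have hlim : ∀ y, ∃ w, Tendsto (fun n => Gv z0 (L n) (π n y)) atTop (𝓝 w) := fun y =>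
    cauchySeq_tendsto_of_complete (cauchySeq_of_le_geometric_two (hstep y))
  choose F hF using hlim
  have hFd : ∀ y n, dist (F y) (Gv z0 (L n) (π n y)) ≤ 2 * (1 / 2 : ℝ) ^ n := by
    intro y n
    have := dist_le_of_le_geometric_two_of_tendsto (hstep y) (hF y) n
    rw [dist_comm]
    refine this.trans (le_of_eq ?_)
    rw [one_div_pow]
    ring
  refine ⟨F, ?_, ?_, ?_⟩
  · rw [Metric.continuous_iff]
    intro y ε hε
    obtain ⟨n, hn⟩ := exists_pow_lt_of_lt_one (by positivity : (0 : ℝ) < ε / 4)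
      (by norm_num : (1 / 2 : ℝ) < 1)
    have h1 := Metric.continuous_iff.mp (hπc (n + 1)) y 1 one_pos
    obtain ⟨δ, hδ, h2⟩ := h1
    refine ⟨δ, hδ, fun y' hy' => ?_⟩
    have h3 := h2 y' hy'
    rw [Real.dist_eq] at h3
    have h4 := hK2 n (π (n + 1) y') (π (n + 1) y) (hπm _ _).1 (hπm _ _).1 h3
    have h5 := hFd y (n + 1)
    have h6 := hFd y' (n + 1)
    rw [dist_comm] at h5
    rw [pow_succ] at h5 h6
    calc dist (F y') (F y) ≤ dist (F y') (Gv z0 (L (n + 1)) (π (n + 1) y')) +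
          dist (Gv z0 (L (n + 1)) (π (n + 1) y')) (Gv z0 (L (n + 1)) (π (n + 1) y)) +
          dist (Gv z0 (L (n + 1)) (π (n + 1) y)) (F y) := dist_triangle4 _ _ _ _
      _ < ε := by linarith
  · intro y n
    refine ⟨_, Gv_mem z0 (L n) (hLne n) (π n y), (hFd y n).trans ?_⟩
    have : (0 : ℝ) ≤ (1 / 2) ^ n := by positivity
    linarith
  · intro z hz
    have h1 : ∀ m : ℕ, ∃ (n : ℕ) (s : ℕ → ℝ), m ≤ n ∧
        (∀ k ≤ n, s k ∈ Icc 0 ((L k).length : ℝ)) ∧ (∀ k < n, lam k (s (k + 1)) = s k) ∧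
        dist z (Gv z0 (L n) (s n)) ≤ 1 / ((m : ℝ) + 1) := by
      intro m
      obtain ⟨n, hmn, z', hz', hd⟩ := hz (1 / ((m : ℝ) + 1)) (by positivity) m
      obtain ⟨k, hk, rfl⟩ := List.getElem_of_mem hz'
      obtain ⟨s, hs1, hs2, hs3⟩ := exists_back (fun n => ((L n).length : ℝ)) lam
        (fun _ _ _ => True) hm n (k : ℝ) ⟨Nat.cast_nonneg _, by exact_mod_cast hk.le⟩
      refine ⟨n, s, hmn, hs2, hs3, ?_⟩
      rw [hs1, Gv_get z0 (L n) (k : ℝ) k _ (List.getElem?_eq_getElem hk) (Nat.floor_natCast k)]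
      exact hd
    choose nm sm hnm hsm1 hsm2 hsm3 using h1
    have hdist : ∀ m n, n ≤ nm m →
        dist (Gv z0 (L n) (sm m n)) (Gv z0 (L (nm m)) (sm m (nm m))) ≤ 2 * (1 / 2 : ℝ) ^ n := by
      intro m n hn
      have key : ∀ d, ∀ n, n + d = nm m →
          dist (Gv z0 (L n) (sm m n)) (Gv z0 (L (nm m)) (sm m (nm m))) ≤
            2 * (1 / 2 : ℝ) ^ n - 2 * (1 / 2 : ℝ) ^ (nm m) := by
        intro d
        induction d with
        | zero =>
          intro n hn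
          rw [add_zero] at hn
          subst hn
          simp
        | succ d ih =>
          intro n hn
          have h2 := ih (n + 1) (by omega)
          have h3 := (hK1 n (sm m (n + 1)) (hsm1 m (n + 1) (by omega))).2
          rw [hsm2 m n (by omega)] at h3
          refine (dist_triangle _ (Gv z0 (L (n + 1)) (sm m (n + 1))) _).trans ?_
          have h4 : 2 * (1 / 2 : ℝ) ^ (n + 1) = (1 / 2) ^ n := by rw [pow_succ]; ring
          linarith
      have := key (nm m - n) n (by omega)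
      have h5 : (0 : ℝ) ≤ (1 / 2) ^ (nm m) := by positivity
      linarith
    -- ultrafilter limits
    have hU : ∀ n, ∃ x ∈ Icc 0 ((L n).length : ℝ),
        Tendsto (fun m => sm m n) (hyperfilter ℕ : Filter ℕ) (𝓝 x) := by
      intro n
      have h2 : ∀ᶠ m in (hyperfilter ℕ : Filter ℕ), sm m n ∈ Icc 0 ((L n).length : ℝ) := by
        have h3 : ∀ᶠ m in atTop, sm m n ∈ Icc 0 ((L n).length : ℝ) := by
          filter_upwards [eventually_ge_atTop n] with m hm'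
          exact hsm1 m n (hm'.trans (hnm m))
        exact (Nat.hyperfilter_le_atTop) h3
      obtain ⟨x, hx, hx2⟩ := (isCompact_Icc : IsCompact (Icc 0 ((L n).length : ℝ))).ultrafilter_le_nhds
        ((hyperfilter ℕ).map (fun m => sm m n)) (by
          rw [Filter.le_principal_iff]
          exact h2)
      exact ⟨x, hx, hx2⟩
    choose s hs1 hs2 using hU
    have hthread : ∀ n, lam n (s (n + 1)) = s n := by
      intro n
      have h2 : Tendsto (fun m => lam n (sm m (n + 1))) (hyperfilter ℕ : Filter ℕ)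
          (𝓝 (lam n (s (n + 1)))) := ((hc n).tendsto _).comp (hs2 (n + 1))
      have h3 : Tendsto (fun m => lam n (sm m (n + 1))) (hyperfilter ℕ : Filter ℕ) (𝓝 (s n)) := by
        refine (hs2 n).congr' ?_
        have h4 : ∀ᶠ m in atTop, sm m n = lam n (sm m (n + 1)) := by
          filter_upwards [eventually_ge_atTop (n + 1)] with m hm'
          exact (hsm2 m n (by have := hnm m; omega)).symm
        exact (Nat.hyperfilter_le_atTop) h4
      exact tendsto_nhds_unique h2 h3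
    obtain ⟨y, hy⟩ := hπt s hs1 hthread
    refine ⟨y, ?_⟩
    have hfin : ∀ n : ℕ, dist (F y) z ≤ 6 * (1 / 2 : ℝ) ^ n := by
      intro n
      have e1 : ∀ᶠ m in (hyperfilter ℕ : Filter ℕ), |sm m (n + 1) - s (n + 1)| < 1 := by
        have := Metric.tendsto_nhds.mp (hs2 (n + 1)) 1 one_pos
        exact this
      have e2 : ∀ᶠ m : ℕ in (hyperfilter ℕ : Filter ℕ), 1 / ((m : ℝ) + 1) < (1 / 2 : ℝ) ^ n ∧
          n + 1 ≤ m := by
        have h4 : ∀ᶠ m : ℕ in atTop, 1 / ((m : ℝ) + 1) < (1 / 2 : ℝ) ^ n ∧ n + 1 ≤ m := by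
          have h5 := (tendsto_one_div_add_atTop_nhds_zero_nat (𝕜 := ℝ)).eventually
            (gt_mem_nhds (by positivity : (0 : ℝ) < (1 / 2) ^ n))
          filter_upwards [h5, eventually_ge_atTop (n + 1)] with m h6 h7
          exact ⟨h6, h7⟩
        exact (Nat.hyperfilter_le_atTop) h4
      obtain ⟨m, hm1, hm2, hm3⟩ := (e1.and e2).exists
      have hnn : n + 1 ≤ nm m := hm3.trans (hnm m)
      have d1 := hFd y (n + 1)
      rw [hy] at d1
      have d2 := hK2 n (s (n + 1)) (sm m (n + 1)) (hs1 _).1 (hsm1 m (n + 1) hnn).1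
        (by rw [abs_sub_comm]; exact hm1)
      have d3 := hdist m (n + 1) hnn
      have d4 := hsm3 m
      rw [dist_comm] at d4
      rw [pow_succ] at d1 d3
      have h8 : (0 : ℝ) ≤ (1 / 2) ^ n := by positivity
      have t1 := dist_triangle (F y) (Gv z0 (L (n + 1)) (s (n + 1))) z
      have t2 := dist_triangle (Gv z0 (L (n + 1)) (s (n + 1))) (Gv z0 (L (n + 1)) (sm m (n + 1))) z
      have t3 := dist_triangle (Gv z0 (L (n + 1)) (sm m (n + 1)))
        (Gv z0 (L (nm m)) (sm m (nm m))) z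
      linarith
    rw [← dist_le_zero]
    have hlim0 : Tendsto (fun n : ℕ => 6 * (1 / 2 : ℝ) ^ n) atTop (𝓝 (6 * 0)) :=
      (tendsto_pow_atTop_nhds_zero_of_lt_one (by norm_num) (by norm_num)).const_mul 6
    rw [mul_zero] at hlim0
    exact ge_of_tendsto' hlim0 hfin

end Pool.Agent.WC
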