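import Mathlib

set_option autoImplicit false
open TopologicalSpace Filter Topology Set

namespace Pool.Agent.WC

/-- chainability of a compact metric space, in the form used in the frozen statement -/
def IsChainable (Y : Type*) [MetricSpace Y] : Prop :=
  ∀ ε : ℝ, ε > 0 → ∃ g : Y → ℝ, Continuous g ∧ ∀ r : ℝ, Metric.diam (g ⁻¹' {r}) < ε

/-- strictly monotone on subcontinua -/
def SMC {X : Type*} [TopologicalSpace X] (ω : NonemptyCompacts X → ℝ) : Prop :=
  ∀ A B : NonemptyCompacts X, IsConnected (A : Set X) → IsConnected (B : Set X) →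
    (A : Set X) ⊂ (B : Set X) → ω A < ω B

/-- `Trk R i l j`: walking along the list `l`, a cursor moves (in `ℕ`) from `i` to `j`; while at the
entry `x` of the list, all positions `m` passed by the cursor satisfy `R m x`. -/
inductive Trk {α : Type*} (R : ℕ → α → Prop) : ℕ → List α → ℕ → Prop
  | nil (i : ℕ) : Trk R i [] i
  | cons {i j k : ℕ} {x : α} {l : List α} :
      (∀ m, min i j ≤ m → m ≤ max i j → R m x) → Trk R j l k → Trk R i (x :: l) k

/-- position `m` of the list `L` is occupied by a point at distance `≤ ε` of `x` -/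
def Near {Z : Type*} [PseudoMetricSpace Z] (L : List Z) (ε : ℝ) (m : ℕ) (x : Z) : Prop :=
  ∃ z, L[m]? = some z ∧ dist z x ≤ ε

/-- `ε`-connected sets -/
def EC {X : Type*} [PseudoMetricSpace X] (ε : ℝ) (S : Set X) : Prop :=
  ∀ x ∈ S, ∀ y ∈ S, Relation.ReflTransGen (fun a b => a ∈ S ∧ b ∈ S ∧ dist a b ≤ ε) x y

/-- discrete chain data for a space `S`: `c` is an `ε`-chain `c 0, …, c N`, `ι` the index map -/
structure Disc (S : Type*) [MetricSpace S] (ε δ : ℝ) (N : ℕ) (c : ℕ → S) (ι : S → ℕ) : Prop where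
  bd : ∀ x, ι x ≤ N
  near : ∀ x, dist x (c (ι x)) ≤ ε
  lip : ∀ x y, dist x y ≤ δ → ι x ≤ ι y + 1
  step : ∀ i, i < N → dist (c i) (c (i + 1)) ≤ ε
  sec : ∀ i, i ≤ N → ι (c i) = i
  ivt : ∀ K : Set S, IsPreconnected K → ∀ x ∈ K, ∀ y ∈ K, ∀ i, ι x ≤ i → i ≤ ι y →
    ∃ z ∈ K, ι z = i

end Pool.Agent.WC
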