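import Pool.Agent.WC.Defs

/-! Proof by helper642 (team lemma job). -/

set_option autoImplicit false
open TopologicalSpace Filter Topology Set

namespace Pool.Agent.WC

theorem preconn_iInter {X : Type*} [TopologicalSpace X] [T2Space X] (C : ℕ → Set X)
    (hanti : Antitone C) (hcpt : ∀ m, IsCompact (C m)) (hpre : ∀ m, IsPreconnected (C m)) :
    IsPreconnected (⋂ m, C m) := by
  rw [isPreconnected_closed_iff]
  intro t t' ht ht' hsub hn hn'
  by_contra hcon
  rw [Set.not_nonempty_iff_eq_empty] at hcon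
  have hcl : ∀ m, IsClosed (C m) := fun m => (hcpt m).isClosed
  have hS : IsCompact (⋂ m, C m) :=
    (hcpt 0).of_isClosed_subset (isClosed_iInter hcl) (Set.iInter_subset _ 0)
  have hA : IsCompact ((⋂ m, C m) ∩ t) := hS.inter_right ht
  have hB : IsCompact ((⋂ m, C m) ∩ t') := hS.inter_right ht'
  have hdisj : Disjoint ((⋂ m, C m) ∩ t) ((⋂ m, C m) ∩ t') := by
    rw [Set.disjoint_left]
    rintro x ⟨hx, hxt⟩ ⟨_, hxt'⟩
    have : x ∈ (⋂ m, C m) ∩ (t ∩ t') := ⟨hx, hxt, hxt'⟩
    rw [hcon] at this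
    exact this
  obtain ⟨U, V, hU, hV, hAU, hBV, hUV⟩ := SeparatedNhds.of_isCompact_isCompact hA hB hdisj
  obtain ⟨m, hm⟩ := exists_subset_nhds_of_isCompact' (V := C) hanti.directed_ge hcpt hcl
    (U := U ∪ V) (by
      intro x hx
      apply (hU.union hV).mem_nhds
      rcases hsub hx with h | h
      · exact Or.inl (hAU ⟨hx, h⟩)
      · exact Or.inr (hBV ⟨hx, h⟩))
  obtain ⟨x, hx, hxt⟩ := hn
  obtain ⟨x', hx', hxt'⟩ := hn'
  obtain ⟨w, _, hw1, hw2⟩ := hpre m U V hU hV hm
    ⟨x, Set.mem_iInter.mp hx m, hAU ⟨hx, hxt⟩⟩ ⟨x', Set.mem_iInter.mp hx' m, hBV ⟨hx', hxt'⟩⟩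
  exact Set.disjoint_left.mp hUV hw1 hw2

/-- the compatible points between levels `j` and `m` -/
def Dset (a : ℕ → ℝ) (lam : ℕ → ℝ → ℝ) (j m : ℕ) : Set (ℕ → ℝ) :=
  {y | (∀ n, y n ∈ Icc 0 (a n)) ∧ ∀ n, j ≤ n → n < m → lam n (y (n + 1)) = y n}

theorem D_pre (a : ℕ → ℝ) (ha : ∀ n, 0 ≤ a n) (lam : ℕ → ℝ → ℝ)
    (hc : ∀ n, Continuous (lam n))
    (hm : ∀ n, ∀ x ∈ Icc 0 (a (n + 1)), lam n x ∈ Icc 0 (a n)) (i : ℕ) :
    ∀ j m, j + i = m → IsPreconnected (Dset a lam j m) ∧ (Dset a lam j m).Nonempty := by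
  induction i with
  | zero =>
    intro j m hjm
    have h1 : Dset a lam j m = Set.pi univ (fun n => Icc 0 (a n)) := by
      ext y
      simp only [Dset, Set.mem_ofPred_eq, Set.mem_pi, Set.mem_univ, true_implies]
      constructor
      · intro h
        exact h.1
      · intro h
        exact ⟨h, fun n h1 h2 => by omega⟩
    rw [h1]
    refine ⟨isPreconnected_univ_pi (fun n => isPreconnected_Icc), ?_⟩
    exact ⟨fun _ => 0, fun n _ => ⟨le_refl _, ha n⟩⟩
  | succ i ih =>
    intro j m hjm
    obtain ⟨hp, hne⟩ := ih (j + 1) m (by omega)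
    have himg : Dset a lam j m =
        (fun y : ℕ → ℝ => Function.update y j (lam j (y (j + 1)))) '' (Dset a lam (j + 1) m) := by
      ext y
      constructor
      · intro hy
        refine ⟨y, ⟨hy.1, fun n h1 h2 => hy.2 n (by omega) h2⟩, ?_⟩
        simp only
        rw [hy.2 j (le_refl _) (by omega), Function.update_eq_self]
      · rintro ⟨z, hz, rfl⟩
        simp only
        refine ⟨?_, ?_⟩
        · intro n
          by_cases hn : n = j
          · subst hn
            rw [Function.update_self]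
            exact hm n _ (hz.1 (n + 1))
          · rw [Function.update_of_ne hn]
            exact hz.1 n
        · intro n h1 h2
          rw [Function.update_of_ne (show n + 1 ≠ j by omega)]
          by_cases hn : n = j
          · subst hn
            rw [Function.update_self]
          · rw [Function.update_of_ne hn]
            exact hz.2 n (by omega) h2
    rw [himg]
    refine ⟨hp.image _ (Continuous.continuousOn ?_), hne.image _⟩
    exact continuous_id.update j ((hc j).comp (continuous_apply (j + 1)))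

/-- inverse limits of arcs are chainable continua -/
theorem invlim (a : ℕ → ℝ) (ha : ∀ n, 0 ≤ a n) (lam : ℕ → ℝ → ℝ)
    (hc : ∀ n, Continuous (lam n))
    (hm : ∀ n, ∀ x ∈ Icc 0 (a (n + 1)), lam n x ∈ Icc 0 (a n)) :
    ∃ (Y : Type) (_ : MetricSpace Y), CompactSpace Y ∧ ConnectedSpace Y ∧ IsChainable Y ∧
      ∃ π : ℕ → Y → ℝ, (∀ n, Continuous (π n)) ∧ (∀ n y, π n y ∈ Icc 0 (a n)) ∧
        (∀ n y, lam n (π (n + 1) y) = π n y) ∧
        (∀ s : ℕ → ℝ, (∀ n, s n ∈ Icc 0 (a n)) → (∀ n, lam n (s (n + 1)) = s n) →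
          ∃ y, ∀ n, π n y = s n) := by
  set S : Set (ℕ → ℝ) := ⋂ m, Dset a lam 0 m with hSdef
  have hS : ∀ y, y ∈ S ↔ (∀ n, y n ∈ Icc 0 (a n)) ∧ ∀ n, lam n (y (n + 1)) = y n := by
    intro y
    rw [hSdef, Set.mem_iInter]
    constructor
    · intro h
      exact ⟨(h 0).1, fun n => (h (n + 1)).2 n (Nat.zero_le _) (by omega)⟩
    · intro h m
      exact ⟨h.1, fun n _ _ => h.2 n⟩
  have hanti : Antitone (Dset a lam 0) := by
    intro m m' hmm y hy
    exact ⟨hy.1, fun n h1 h2 => hy.2 n h1 (by omega)⟩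
  have hclosed : ∀ m, IsClosed (Dset a lam 0 m) := by
    intro m
    have h1 : Dset a lam 0 m = (⋂ n, {y : ℕ → ℝ | y n ∈ Icc 0 (a n)}) ∩
        ⋂ n, ⋂ (_ : 0 ≤ n), ⋂ (_ : n < m), {y : ℕ → ℝ | lam n (y (n + 1)) = y n} := by
      ext y
      simp only [Dset, Set.mem_ofPred_eq, Set.mem_inter_iff, Set.mem_iInter]
    rw [h1]
    apply IsClosed.inter
    · exact isClosed_iInter (fun n => isClosed_Icc.preimage (continuous_apply n))
    · refine isClosed_iInter (fun n => isClosed_iInter fun _ => isClosed_iInter fun _ => ?_)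
      exact isClosed_eq ((hc n).comp (continuous_apply (n + 1))) (continuous_apply n)
  have hcpt : ∀ m, IsCompact (Dset a lam 0 m) := by
    intro m
    apply (isCompact_univ_pi (s := fun n => Icc 0 (a n)) (fun n => isCompact_Icc)).of_isClosed_subset
      (hclosed m)
    intro y hy n _
    exact hy.1 n
  have hSpre : IsPreconnected S :=
    preconn_iInter _ hanti hcpt (fun m => (D_pre a ha lam hc hm m 0 m (by omega)).1)
  have hSne : S.Nonempty :=
    IsCompact.nonempty_iInter_of_sequence_nonempty_isCompact_isClosed _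
      (fun i => hanti (Nat.le_succ i)) (fun m => (D_pre a ha lam hc hm m 0 m (by omega)).2)
      (hcpt 0) hclosed
  have hScpt : IsCompact S :=
    (hcpt 0).of_isClosed_subset (isClosed_iInter hclosed) (Set.iInter_subset _ 0)
  let _ : MetricSpace S := TopologicalSpace.metrizableSpaceMetric S
  have hcs : CompactSpace S := isCompact_iff_compactSpace.mp hScpt
  refine ⟨S, inferInstance, hcs, ?_, ?_, fun n y => y.1 n, ?_, ?_, ?_, ?_⟩
  · exact isConnected_iff_connectedSpace.mp ⟨hSne, hSpre⟩
  · intro ε hε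
    have hcn : ∀ n, Continuous (fun y : S => y.1 n) :=
      fun n => (continuous_apply n).comp continuous_subtype_val
    by_contra hcon
    push Not at hcon
    set E : ℕ → Set (S × S) := fun n => {p | p.1.1 n = p.2.1 n ∧ ε / 2 ≤ dist p.1 p.2} with hE
    have hEcl : ∀ n, IsClosed (E n) := by
      intro n
      apply IsClosed.inter
      · exact isClosed_eq ((hcn n).comp continuous_fst) ((hcn n).comp continuous_snd)
      · exact isClosed_le continuous_const (continuous_fst.dist continuous_snd)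
    have hEne : ∀ n, (E n).Nonempty := by
      intro n
      by_contra hne
      rw [Set.not_nonempty_iff_eq_empty] at hne
      obtain ⟨r, hr⟩ := hcon (fun y => y.1 n) (hcn n)
      have : Metric.diam ((fun y : S => y.1 n) ⁻¹' {r}) ≤ ε / 2 := by
        apply Metric.diam_le_of_forall_dist_le (by linarith)
        intro y hy y' hy'
        by_contra hlt
        push Not at hlt
        have hmem : (y, y') ∈ E n := by
          refine ⟨?_, hlt.le⟩
          have e1 : y.1 n = r := hy
          have e2 : y'.1 n = r := hy'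
          show y.1 n = y'.1 n
          rw [e1, e2]
        rw [hne] at hmem
        exact hmem
      linarith
    have hEanti : ∀ n, E (n + 1) ⊆ E n := by
      rintro n ⟨y, y'⟩ ⟨h1, h2⟩
      refine ⟨?_, h2⟩
      show y.1 n = y'.1 n
      have e1 := ((hS y.1).mp y.2).2 n
      have e2 := ((hS y'.1).mp y'.2).2 n
      rw [← e1, ← e2]
      have h1' : y.1 (n + 1) = y'.1 (n + 1) := h1
      rw [h1']
    obtain ⟨p, hp⟩ := IsCompact.nonempty_iInter_of_sequence_nonempty_isCompact_isClosed E
      hEanti hEne (hEcl 0).isCompact hEcl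
    rw [Set.mem_iInter] at hp
    have hpe : p.1 = p.2 := by
      apply Subtype.ext
      funext n
      exact (hp n).1
    have h2 := (hp 0).2
    rw [hpe, dist_self] at h2
    linarith
  · intro n
    exact (continuous_apply n).comp continuous_subtype_val
  · intro n y
    exact ((hS y.1).mp y.2).1 n
  · intro n y
    exact ((hS y.1).mp y.2).2 n
  · intro s hs1 hs2
    exact ⟨⟨s, (hS s).mpr ⟨hs1, hs2⟩⟩, fun n => rfl⟩

end Pool.Agent.WC
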