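import Pool.Agent.WC.Unif

/-! Proof by helper167 (team lemma job). -/

set_option autoImplicit false
open TopologicalSpace Filter Topology Set

namespace Pool.Agent.WC

section OA

variable {X : Type*} [MetricSpace X]

/-- a walk in `A` with steps `≤ ε` -/
def IsWalk (ε : ℝ) (A : Set X) (f : ℕ → X) : Prop :=
  (∀ i, f i ∈ A) ∧ ∀ i, dist (f i) (f (i + 1)) ≤ ε

theorem walk_ext {ε : ℝ} (hε : 0 ≤ ε) {A : Set X} {f : ℕ → X} {n : ℕ} (hf : IsWalk ε A f)
    (hc : ∀ i, n ≤ i → f i = f n) {z : X}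
    (hz : Relation.ReflTransGen (fun a b => a ∈ A ∧ b ∈ A ∧ dist a b ≤ ε) (f n) z) :
    ∃ (f' : ℕ → X) (n' : ℕ), n ≤ n' ∧ IsWalk ε A f' ∧ (∀ i, i ≤ n → f' i = f i) ∧
      ∀ i, n' ≤ i → f' i = z := by
  induction hz with
  | refl => exact ⟨f, n, le_rfl, hf, fun _ _ => rfl, hc⟩
  | @tail b c _ hbc ih =>
    obtain ⟨f', n', hn', hw, he, hcst⟩ := ih
    obtain ⟨hb, hc', hd⟩ := hbc
    refine ⟨fun i => if i ≤ n' then f' i else c, n' + 1, by omega, ⟨?_, ?_⟩, ?_, ?_⟩
    · intro i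
      dsimp only
      split_ifs
      · exact hw.1 i
      · exact hc'
    · intro i
      dsimp only
      by_cases h1 : i + 1 ≤ n'
      · rw [if_pos (by omega), if_pos h1]
        exact hw.2 i
      · by_cases h2 : i ≤ n'
        · rw [if_pos h2, if_neg h1]
          have : i = n' := by omega
          subst this
          rw [hcst i le_rfl]
          exact hd
        · rw [if_neg h2, if_neg h1, dist_self]
          exact hε
    · intro i hi
      dsimp only
      rw [if_pos (by omega)]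
      exact he i hi
    · intro i hi
      dsimp only
      rw [if_neg (by omega)]

theorem walk_net {ε : ℝ} (hε : 0 ≤ ε) {A : Set X} (hEC : EC ε A) {a : X} (ha : a ∈ A)
    (t : Finset X) (ht : (t : Set X) ⊆ A) :
    ∃ (f : ℕ → X) (n : ℕ), f 0 = a ∧ IsWalk ε A f ∧ (∀ i, n ≤ i → f i = f n) ∧
      ∀ y ∈ t, ∃ i ≤ n, f i = y := by
  classical
  induction t using Finset.induction_on with
  | empty =>
    refine ⟨fun _ => a, 0, rfl, ⟨fun _ => ha, fun _ => ?_⟩, fun _ _ => rfl, ?_⟩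
    · rw [dist_self]
      exact hε
    · intro y hy
      exact absurd hy (Finset.notMem_empty _)
  | insert z t _ ih =>
    have ht' : (t : Set X) ⊆ A := fun y hy => ht (by
      rw [Finset.coe_insert]
      exact Set.mem_insert_of_mem _ hy)
    have hz : z ∈ A := ht (by
      rw [Finset.coe_insert]
      exact Set.mem_insert _ _)
    obtain ⟨f, n, h0, hw, hc, hy⟩ := ih ht'
    obtain ⟨f', n', hn', hw', he, hc'⟩ := walk_ext hε hw hc (hEC (f n) (hw.1 n) z hz)
    refine ⟨f', n', ?_, hw', ?_, ?_⟩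
    · rw [he 0 (Nat.zero_le _), h0]
    · intro i hi
      rw [hc' i hi, hc' n' le_rfl]
    · intro y hy'
      rw [Finset.mem_insert] at hy'
      rcases hy' with rfl | hy'
      · exact ⟨n', le_rfl, hc' n' le_rfl⟩
      · obtain ⟨i, hi, hfi⟩ := hy y hy'
        exact ⟨i, hi.trans hn', by rw [he i hi, hfi]⟩

/-- initial piece of a walk -/
def piece (f : ℕ → X) (i : ℕ) : NonemptyCompacts X :=
  ⟨⟨f '' Set.Iic i, ((Set.finite_Iic i).image f).isCompact⟩, ⟨f 0, 0, Nat.zero_le _, rfl⟩⟩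

theorem mem_piece {f : ℕ → X} {i : ℕ} {x : X} :
    x ∈ (piece f i : Set X) ↔ ∃ j ≤ i, f j = x := Iff.rfl

theorem piece_mono {f : ℕ → X} {i j : ℕ} (h : i ≤ j) : (piece f i : Set X) ⊆ piece f j := by
  rintro x ⟨k, hk, rfl⟩
  exact ⟨k, le_trans (Set.mem_Iic.1 hk) h, rfl⟩

theorem piece_EC {ε : ℝ} {A : Set X} {f : ℕ → X} (hf : IsWalk ε A f) (i : ℕ) :
    EC ε (piece f i : Set X) := by
  have h1 : ∀ p, p ≤ i → Relation.ReflTransGen
      (fun a b => a ∈ (piece f i : Set X) ∧ b ∈ (piece f i : Set X) ∧ dist a b ≤ ε)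
      (f 0) (f p) := by
    intro p
    induction p with
    | zero => intro _; exact Relation.ReflTransGen.refl
    | succ p ih =>
      intro hp
      exact (ih (by omega)).tail ⟨⟨p, Set.mem_Iic.2 (by omega), rfl⟩,
        ⟨p + 1, Set.mem_Iic.2 hp, rfl⟩, hf.2 p⟩
  have h2 : ∀ p, p ≤ i → Relation.ReflTransGen
      (fun a b => a ∈ (piece f i : Set X) ∧ b ∈ (piece f i : Set X) ∧ dist a b ≤ ε)
      (f p) (f 0) := by
    intro p
    induction p with
    | zero => intro _; exact Relation.ReflTransGen.refl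
    | succ p ih =>
      intro hp
      refine Relation.ReflTransGen.head ⟨⟨p + 1, Set.mem_Iic.2 hp, rfl⟩,
        ⟨p, Set.mem_Iic.2 (by omega), rfl⟩, ?_⟩ (ih (by omega))
      rw [dist_comm]
      exact hf.2 p
  rintro x ⟨p, hp, rfl⟩ y ⟨q, hq, rfl⟩
  exact (h2 p hp).trans (h1 q hq)

theorem piece_dist {ε : ℝ} (hε : 0 ≤ ε) {A : Set X} {f : ℕ → X} (hf : IsWalk ε A f) (i : ℕ) :
    dist (piece f i) (piece f (i + 1)) ≤ ε := by
  rw [Metric.NonemptyCompacts.dist_eq]
  apply Metric.hausdorffDist_le_of_mem_dist hε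
  · intro x hx
    exact ⟨x, piece_mono (Nat.le_succ i) hx, by rw [dist_self]; exact hε⟩
  · rintro x ⟨p, hp, rfl⟩
    rcases Nat.lt_or_ge i p with h | h
    · have : p = i + 1 := le_antisymm (Set.mem_Iic.1 hp) h
      subst this
      refine ⟨f i, ⟨i, Set.mem_Iic.2 le_rfl, rfl⟩, ?_⟩
      rw [dist_comm]
      exact hf.2 i
    · exact ⟨f p, ⟨p, Set.mem_Iic.2 h, rfl⟩, by rw [dist_self]; exact hε⟩

theorem lim_subset {𝒰 : Ultrafilter ℕ} {K L : ℕ → NonemptyCompacts X} {K' L' : NonemptyCompacts X}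
    (hK : Tendsto K 𝒰 (𝓝 K')) (hL : Tendsto L 𝒰 (𝓝 L'))
    (h : ∀ n, (K n : Set X) ⊆ L n) : (K' : Set X) ⊆ L' := by
  intro x hx
  have hcl : IsClosed (L' : Set X) := L'.isCompact.isClosed
  rw [← hcl.closure_eq, Metric.mem_closure_iff]
  intro δ hδ
  have h1 : ∀ᶠ n in (𝒰 : Filter ℕ), dist (K n) K' < δ / 2 :=
    (Metric.tendsto_nhds.1 hK) (δ / 2) (by positivity)
  have h2 : ∀ᶠ n in (𝒰 : Filter ℕ), dist (L n) L' < δ / 2 :=
    (Metric.tendsto_nhds.1 hL) (δ / 2) (by positivity)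
  obtain ⟨n, hn1, hn2⟩ := (h1.and h2).exists
  rw [dist_comm, Metric.NonemptyCompacts.dist_eq] at hn1
  rw [Metric.NonemptyCompacts.dist_eq] at hn2
  obtain ⟨y, hy, hxy⟩ := Metric.exists_dist_lt_of_hausdorffDist_lt hx hn1
    (Metric.hausdorffEDist_ne_top_of_nonempty_of_bounded K'.nonempty (K n).nonempty
      K'.isCompact.isBounded (K n).isCompact.isBounded)
  obtain ⟨z, hz, hyz⟩ := Metric.exists_dist_lt_of_hausdorffDist_lt (h n hy) hn2
    (Metric.hausdorffEDist_ne_top_of_nonempty_of_bounded (L n).nonempty L'.nonempty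
      (L n).isCompact.isBounded L'.isCompact.isBounded)
  refine ⟨z, hz, ?_⟩
  have := dist_triangle x y z
  linarith

theorem approx {ε : ℝ} (hε : 0 < ε) (ω : NonemptyCompacts X → ℝ) (A : NonemptyCompacts X)
    (hA : IsConnected (A : Set X)) (a : X) (ha : a ∈ A) :
    ∃ β : ℝ → NonemptyCompacts X,
      (∀ s, EC ε (β s : Set X)) ∧ (∀ s, a ∈ (β s : Set X)) ∧ (∀ s, (β s : Set X) ⊆ A) ∧
      (∀ s s', s ≤ s' → (β s : Set X) ⊆ β s') ∧
      ∀ δ, 0 ≤ δ → (∀ K L : NonemptyCompacts X, dist K L ≤ ε → |ω K - ω L| ≤ δ) →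
        ∀ s, ω {a} ≤ s → s ≤ ω A → |ω (β s) - s| ≤ δ := by
  classical
  have hEC : EC ε (A : Set X) := EC_of_preconnected hA.isPreconnected hε
  -- net
  obtain ⟨t, htA, htf, htc⟩ := A.isCompact.finite_cover_balls hε
  obtain ⟨f, r, h0, hw, hcst, hnet⟩ := walk_net hε.le hEC (ha : a ∈ (A : Set X)) htf.toFinset
    (by rw [Set.Finite.coe_toFinset]; exact htA)
  have hrA : dist (piece f r) A ≤ ε := by
    rw [Metric.NonemptyCompacts.dist_eq]
    apply Metric.hausdorffDist_le_of_mem_dist hε.le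
    · rintro x ⟨p, _, rfl⟩
      exact ⟨f p, hw.1 p, by rw [dist_self]; exact hε.le⟩
    · intro x hx
      have := htc hx
      simp only [Set.mem_iUnion, Metric.mem_ball, exists_prop] at this
      obtain ⟨y, hy, hxy⟩ := this
      obtain ⟨j, hj, hfj⟩ := hnet y (by rw [Set.Finite.mem_toFinset]; exact hy)
      exact ⟨y, ⟨j, hj, hfj⟩, hxy.le⟩
  let ix : ℝ → ℕ := fun s => if h : ∃ i, i ≤ r ∧ s ≤ ω (piece f i) then Nat.find h else r
  have hix_mono : ∀ s s', s ≤ s' → ix s ≤ ix s' := by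
    intro s s' hss
    by_cases h' : ∃ i, i ≤ r ∧ s' ≤ ω (piece f i)
    · have h : ∃ i, i ≤ r ∧ s ≤ ω (piece f i) := by
        obtain ⟨i, hi, hi'⟩ := h'
        exact ⟨i, hi, hss.trans hi'⟩
      simp only [ix, dif_pos h, dif_pos h']
      apply Nat.find_min' h
      obtain ⟨h1, h2⟩ := Nat.find_spec h'
      exact ⟨h1, hss.trans h2⟩
    · by_cases h : ∃ i, i ≤ r ∧ s ≤ ω (piece f i)
      · simp only [ix, dif_pos h, dif_neg h']
        exact (Nat.find_spec h).1
      · simp only [ix, dif_neg h, dif_neg h']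
        exact le_rfl
  have hp0 : piece f 0 = {a} := by
    apply NonemptyCompacts.ext
    ext x
    constructor
    · rintro ⟨p, hp, rfl⟩
      have : p = 0 := Nat.le_zero.1 (Set.mem_Iic.1 hp)
      subst this
      rw [h0]
      rfl
    · intro hx
      have hx' : x = a := hx
      rw [hx']
      exact ⟨0, Set.mem_Iic.2 le_rfl, h0⟩
  refine ⟨fun s => piece f (ix s), fun s => piece_EC hw _, fun s => ?_, fun s => ?_, ?_, ?_⟩
  · exact ⟨0, Set.mem_Iic.2 (Nat.zero_le _), h0⟩
  · rintro x ⟨p, _, rfl⟩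
    exact hw.1 p
  · intro s s' hss
    exact piece_mono (hix_mono s s' hss)
  · intro δ hδ hosc s hs1 hs2
    by_cases h : ∃ i, i ≤ r ∧ s ≤ ω (piece f i)
    · simp only [ix, dif_pos h]
      obtain ⟨h1, h2⟩ := Nat.find_spec h
      rcases Nat.eq_zero_or_pos (Nat.find h) with hz | hz
      · rw [hz] at h2 ⊢
        rw [hp0] at h2 ⊢
        have : ω {a} = s := le_antisymm hs1 h2
        rw [this, sub_self, abs_zero]
        exact hδ
      · obtain ⟨m, hm⟩ : ∃ m, Nat.find h = m + 1 := ⟨Nat.find h - 1, by omega⟩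
        have hmin := Nat.find_min h (show m < Nat.find h by omega)
        rw [hm] at h1 h2 ⊢
        have hlt : ω (piece f m) < s := by
          by_contra hcon
          exact hmin ⟨by omega, not_lt.1 hcon⟩
        have hd := hosc _ _ (piece_dist hε.le hw m)
        rw [abs_le] at hd ⊢
        constructor <;> linarith [hd.1, hd.2]
    · simp only [ix, dif_neg h]
      have hlt : ω (piece f r) < s := by
        by_contra hcon
        exact h ⟨r, le_rfl, not_lt.1 hcon⟩
      have hd := hosc _ _ hrA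
      rw [abs_le] at hd ⊢
      constructor <;> linarith [hd.1, hd.2]

end OA

/-- TARGET: existence of order arcs, parametrised by ω -/
theorem order_arc {X : Type*} [MetricSpace X] [CompactSpace X]
    (ω : NonemptyCompacts X → ℝ) (hc : Continuous ω) (hm : SMC ω) (A : NonemptyCompacts X)
    (hA : IsConnected (A : Set X)) (a : X) (ha : a ∈ A) :
    ∃ α : ℝ → NonemptyCompacts X,
      (∀ s, ω {a} ≤ s → s ≤ ω A →
        IsConnected (α s : Set X) ∧ ω (α s) = s ∧ a ∈ α s ∧ (α s : Set X) ⊆ A) ∧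
      (∀ s s', ω {a} ≤ s → s ≤ s' → s' ≤ ω A → (α s : Set X) ⊆ α s') ∧
      α (ω {a}) = {a} ∧ α (ω A) = A := by
  classical
  have hεpos : ∀ n : ℕ, (0 : ℝ) < 1 / ((n : ℝ) + 1) := fun n => by positivity
  choose β hβ1 hβ2 hβ3 hβ4 hβ5 using fun n : ℕ => approx (hεpos n) ω A hA a ha
  let 𝒰 : Ultrafilter ℕ := hyperfilter ℕ
  have h𝒰 : (𝒰 : Filter ℕ) ≤ atTop := Nat.hyperfilter_le_atTop
  have hex : ∀ s : ℝ, ∃ K : NonemptyCompacts X, Tendsto (fun n => β n s) 𝒰 (𝓝 K) := by
    intro s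
    exact ⟨_, (𝒰.map (fun n => β n s)).le_nhds_lim⟩
  choose α hα using hex
  have hεt : Tendsto (fun n : ℕ => 1 / ((n : ℝ) + 1)) 𝒰 (𝓝 0) :=
    (tendsto_one_div_add_atTop_nhds_zero_nat (𝕜 := ℝ)).mono_left h𝒰
  have hconn : ∀ s, IsConnected (α s : Set X) := fun s =>
    conn_of_lim 𝒰 (fun n => β n s) (α s) (hα s) _ hεt (fun n => hβ1 n s)
  have hωα : ∀ s, ω {a} ≤ s → s ≤ ω A → ω (α s) = s := by
    intro s hs1 hs2
    have h1 : Tendsto (fun n => ω (β n s)) 𝒰 (𝓝 (ω (α s))) :=
      (hc.tendsto (α s)).comp (hα s)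
    have h2 : Tendsto (fun n => ω (β n s)) atTop (𝓝 s) := by
      rw [Metric.tendsto_atTop]
      intro δ hδ
      have huc : UniformContinuous ω := CompactSpace.uniformContinuous_of_continuous hc
      obtain ⟨η, hη, hη'⟩ := Metric.uniformContinuous_iff.1 huc (δ / 2) (by positivity)
      obtain ⟨N, hN⟩ := exists_nat_one_div_lt hη
      refine ⟨N, fun n hn => ?_⟩
      have hle : 1 / ((n : ℝ) + 1) ≤ 1 / ((N : ℝ) + 1) := by
        have : (N : ℝ) ≤ n := by exact_mod_cast hn
        gcongr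
      have h3 := hβ5 n (δ / 2) (by positivity) (fun K L hKL => by
        have := hη' (lt_of_le_of_lt (hKL.trans hle) hN)
        rw [Real.dist_eq] at this
        exact this.le) s hs1 hs2
      rw [Real.dist_eq]
      linarith
    exact tendsto_nhds_unique h1 (h2.mono_left h𝒰)
  have hsub : ∀ s, (α s : Set X) ⊆ A := fun s =>
    lim_subset (hα s) (tendsto_const_nhds (x := A)) (fun n => hβ3 n s)
  have hmem : ∀ s, a ∈ (α s : Set X) := by
    intro s
    have := lim_subset (K := fun _ => ({a} : NonemptyCompacts X))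
      (tendsto_const_nhds (x := ({a} : NonemptyCompacts X))) (hα s) (fun n => by
        intro x hx
        have hx' : x = a := hx
        rw [hx']
        exact hβ2 n s)
    exact this rfl
  have hle : ω {a} ≤ ω A := by
    have hsubA : (({a} : NonemptyCompacts X) : Set X) ⊆ A := by
      intro x hx
      have hx' : x = a := hx
      rw [hx']
      exact ha
    rcases eq_or_ssubset_of_subset hsubA with h | h
    · have : ({a} : NonemptyCompacts X) = A := NonemptyCompacts.ext h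
      rw [this]
    · exact (hm _ _ isConnected_singleton hA h).le
  refine ⟨α, ?_, ?_, ?_, ?_⟩
  · intro s hs1 hs2
    exact ⟨hconn s, hωα s hs1 hs2, hmem s, hsub s⟩
  · intro s s' _ hss _
    exact lim_subset (hα s) (hα s') (fun n => hβ4 n s s' hss)
  · have hsub1 : (({a} : NonemptyCompacts X) : Set X) ⊆ α (ω {a}) := by
      intro x hx
      have hx' : x = a := hx
      rw [hx']
      exact hmem _
    rcases eq_or_ssubset_of_subset hsub1 with h | h
    · exact (NonemptyCompacts.ext h).symm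
    · have h1 := hm _ _ isConnected_singleton (hconn _) h
      rw [hωα _ le_rfl hle] at h1
      exact absurd h1 (lt_irrefl _)
  · rcases eq_or_ssubset_of_subset (hsub (ω A)) with h | h
    · exact NonemptyCompacts.ext h
    · have h1 := hm _ _ (hconn _) hA h
      rw [hωα _ hle le_rfl] at h1
      exact absurd h1 (lt_irrefl _)

end Pool.Agent.WC
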