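import Pool.Agent.WC.ArmDefs

set_option autoImplicit false
open TopologicalSpace Filter Topology Set

namespace Pool.Agent.WC

theorem divt (p : ℕ → ℕ) (n : ℕ) : ∀ i0 : ℕ,
    (∀ i, i0 ≤ i → i < i0 + n → p i ≤ p (i + 1) + 1 ∧ p (i + 1) ≤ p i + 1) →
    ∀ j, (p i0 ≤ j ∧ j ≤ p (i0 + n)) ∨ (p (i0 + n) ≤ j ∧ j ≤ p i0) →
      ∃ i, i0 ≤ i ∧ i ≤ i0 + n ∧ p i = j := by
  induction n with
  | zero =>
    intro i0 _ j hj
    exact ⟨i0, le_rfl, le_rfl, by rw [Nat.add_zero] at hj; omega⟩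
  | succ n ih =>
    intro i0 hs j hj
    have h1 := hs (i0 + n) (by omega) (by omega)
    by_cases hc : (p i0 ≤ j ∧ j ≤ p (i0 + n)) ∨ (p (i0 + n) ≤ j ∧ j ≤ p i0)
    · obtain ⟨i, a, b, c⟩ := ih i0 (fun i h h' => hs i h (by omega)) j hc
      exact ⟨i, a, by omega, c⟩
    · refine ⟨i0 + (n + 1), by omega, le_rfl, ?_⟩
      rw [← Nat.add_assoc] at hj ⊢
      omega

theorem mem_seg_iff {X : Type*} [TopologicalSpace X] (p : ℕ → X) {u v : ℕ} (h : u ≤ v) (y : X) :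
    y ∈ seg p u v ↔ ∃ i, u ≤ i ∧ i ≤ v ∧ p i = y := by
  show y ∈ p '' Set.Icc (min u v) (max u v) ↔ _
  rw [min_eq_left h, max_eq_right h]
  constructor
  · rintro ⟨i, ⟨h1, h2⟩, h3⟩
    exact ⟨i, h1, h2, h3⟩
  · rintro ⟨i, h1, h2, h3⟩
    exact ⟨i, ⟨h1, h2⟩, h3⟩

theorem dist_le_of {X : Type*} [MetricSpace X] (S T : NonemptyCompacts X) (r : ℝ) (hr : 0 ≤ r)
    (h1 : ∀ x ∈ S, ∃ y ∈ T, dist x y ≤ r) (h2 : ∀ x ∈ T, ∃ y ∈ S, dist x y ≤ r) :
    dist S T ≤ r := by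
  rw [Metric.NonemptyCompacts.dist_eq]
  exact Metric.hausdorffDist_le_of_mem_dist hr h1 h2

theorem win_track {X Y : Type*} [MetricSpace X] [MetricSpace Y] (f : Y → X)
    (ω : NonemptyCompacts X → ℝ) (t : ℝ)
    {e δ : ℝ} {N : ℕ} {c : ℕ → Y} {ι : Y → ℕ} (D : Disc Y e δ N c ι)
    {e' δ' : ℝ} {N' : ℕ} {c' : ℕ → Y} {ι' : Y → ℕ} (D' : Disc Y e' δ' N' c' ι') (he' : e' ≤ δ)
    (ε τ E : ℝ) (hτ : 0 ≤ τ) (hf : ∀ x y : Y, dist x y ≤ e → dist (f x) (f y) ≤ τ)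
    (hω : ∀ K K' : NonemptyCompacts X, dist K K' ≤ τ → |ω K - ω K'| ≤ E / 2)
    (r : ℕ → ℕ) (hr : ∀ x, x < N → r x ≤ r (x + 1) + 1 ∧ r (x + 1) ≤ r x + 1)
    (hcmp : ∀ u v, u ≤ v → v ≤ N → |ω (seg (f ∘ c) u v) - t| ≤ E →
      dist (seg (f ∘ c) u v) (wseg (f ∘ c) N (r ((u + v) / 2)) ((u + v) / 2)) ≤ ε)
    (r' : ℕ → ℕ) (hr' : ∀ x, x < N' → r' x ≤ r' (x + 1) + 1 ∧ r' (x + 1) ≤ r' x + 1)
    (hE' : ∀ x, x ≤ N' → |ω (wseg (f ∘ c') N' (r' x) x) - t| ≤ E / 2) :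
    ∃ i j, Trk (Near ((List.range (N + 1)).map (fun x => wseg (f ∘ c) N (r x) x)) (ε + 5 * τ)) i
      ((List.range (N' + 1)).map (fun x => wseg (f ∘ c') N' (r' x) x)) j := by
  -- the projected index
  have hp1 : ∀ i, i < N' → ι (c' i) ≤ ι (c' (i + 1)) + 1 ∧ ι (c' (i + 1)) ≤ ι (c' i) + 1 :=
    fun i hi => ⟨D.lip _ _ ((D'.step i hi).trans he'),
      D.lip _ _ (by rw [dist_comm]; exact (D'.step i hi).trans he')⟩
  set p : ℕ → ℕ := fun i => ι (c' i) with hp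
  have hp1 : ∀ i, i < N' → p i ≤ p (i + 1) + 1 ∧ p (i + 1) ≤ p i + 1 := hp1
  have hp2 : ∀ i j, i ≤ N' → j ≤ N' → i ≤ j + 2 → j ≤ i + 2 → p i ≤ p j + 2 := by
    intro i j hi hj h1 h2
    have h3 : j = i ∨ j = i + 1 ∨ j = i + 2 ∨ i = j + 1 ∨ i = j + 2 := by omega
    rcases h3 with rfl | rfl | rfl | rfl | rfl
    · omega
    · have := hp1 i (by omega); omega
    · have := hp1 i (by omega)
      have h5 := hp1 (i + 1) (by omega)
      have e5 : i + 1 + 1 = i + 2 := rfl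
      rw [e5] at h5
      omega
    · have := hp1 j (by omega); omega
    · have := hp1 j (by omega)
      have h5 := hp1 (j + 1) (by omega)
      have e5 : j + 1 + 1 = j + 2 := rfl
      rw [e5] at h5
      omega
  -- hull
  have hull : ∀ x, x ≤ N' → ∃ u v, u ≤ v ∧ v ≤ N ∧
      (∀ i, x - r' x ≤ i → i ≤ min (x + r' x) N' → u ≤ p i ∧ p i ≤ v) ∧
      (∃ i, x - r' x ≤ i ∧ i ≤ min (x + r' x) N' ∧ p i = u) ∧
      (∃ i, x - r' x ≤ i ∧ i ≤ min (x + r' x) N' ∧ p i = v) := by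
    intro x hx
    have hne : (Finset.Icc (x - r' x) (min (x + r' x) N')).Nonempty :=
      ⟨x, Finset.mem_Icc.2 ⟨Nat.sub_le _ _, le_min (Nat.le_add_right _ _) hx⟩⟩
    obtain ⟨i0, hi0, h0⟩ := Finset.exists_min_image _ p hne
    obtain ⟨i1, hi1, h1⟩ := Finset.exists_max_image _ p hne
    rw [Finset.mem_Icc] at hi0 hi1
    refine ⟨p i0, p i1, h0 i1 (Finset.mem_Icc.2 hi1), D.bd _, ?_, ⟨i0, hi0.1, hi0.2, rfl⟩,
      ⟨i1, hi1.1, hi1.2, rfl⟩⟩
    intro i a b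
    exact ⟨h0 i (Finset.mem_Icc.2 ⟨a, b⟩), h1 i (Finset.mem_Icc.2 ⟨a, b⟩)⟩
  have hull' : ∀ x, ∃ u v, x ≤ N' → u ≤ v ∧ v ≤ N ∧
      (∀ i, x - r' x ≤ i → i ≤ min (x + r' x) N' → u ≤ p i ∧ p i ≤ v) ∧
      (∃ i, x - r' x ≤ i ∧ i ≤ min (x + r' x) N' ∧ p i = u) ∧
      (∃ i, x - r' x ≤ i ∧ i ≤ min (x + r' x) N' ∧ p i = v) := by
    intro x
    by_cases hx : x ≤ N'
    · obtain ⟨u, v, h⟩ := hull x hx
      exact ⟨u, v, fun _ => h⟩
    · exact ⟨0, 0, fun h => absurd h hx⟩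
  choose u v huv using hull'
  -- windows at distance ≤ τ
  have hab : ∀ x, x ≤ N' → x - r' x ≤ min (x + r' x) N' := fun x hx =>
    (Nat.sub_le _ _).trans (le_min (Nat.le_add_right _ _) hx)
  have hwin : ∀ x, x ≤ N' →
      dist (wseg (f ∘ c') N' (r' x) x) (seg (f ∘ c) (u x) (v x)) ≤ τ := by
    intro x hx
    obtain ⟨h1, h2, h3, ⟨i0, a0, b0, e0⟩, ⟨i1, a1, b1, e1⟩⟩ := huv x hx
    apply dist_le_of _ _ _ hτ
    · intro z hz
      obtain ⟨i, hi1, hi2, rfl⟩ := (mem_seg_iff _ (hab x hx) z).1 hz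
      refine ⟨f (c (p i)), (mem_seg_iff _ h1 _).2 ⟨p i, (h3 i hi1 hi2).1, (h3 i hi1 hi2).2, rfl⟩, ?_⟩
      exact hf _ _ (D.near _)
    · intro z hz
      obtain ⟨j, hj1, hj2, rfl⟩ := (mem_seg_iff _ h1 z).1 hz
      have hN : min (x + r' x) N' ≤ N' := min_le_right _ _
      obtain ⟨i, hi1, hi2, hi3⟩ : ∃ i, x - r' x ≤ i ∧ i ≤ min (x + r' x) N' ∧ p i = j := by
        rcases le_total i0 i1 with h | h
        · obtain ⟨i, q1, q2, q3⟩ := divt p (i1 - i0) i0 (fun i _ h' => hp1 i (by omega)) j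
            (Or.inl (by rw [Nat.add_sub_cancel' h, e0, e1]; exact ⟨hj1, hj2⟩))
          exact ⟨i, by omega, by omega, q3⟩
        · obtain ⟨i, q1, q2, q3⟩ := divt p (i0 - i1) i1 (fun i _ h' => hp1 i (by omega)) j
            (Or.inr (by rw [Nat.add_sub_cancel' h, e0, e1]; exact ⟨hj1, hj2⟩))
          exact ⟨i, by omega, by omega, q3⟩
      refine ⟨f (c' i), (mem_seg_iff _ (hab x hx) _).2 ⟨i, hi1, hi2, rfl⟩, ?_⟩
      rw [dist_comm]
      have := hf _ _ (D.near (c' i))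
      show dist (f (c' i)) (f (c j)) ≤ τ
      rw [← hi3]
      exact this
  have hE : ∀ x, x ≤ N' → |ω (seg (f ∘ c) (u x) (v x)) - t| ≤ E := by
    intro x hx
    have h1 := hω _ _ (hwin x hx)
    have h2 := hE' x hx
    rw [abs_le] at *
    constructor <;> linarith
  -- coarse windows move slowly
  have hstep : ∀ i j, i ≤ N → j ≤ N → i ≤ j + 2 → j ≤ i + 2 →
      dist (f (c i)) (f (c j)) ≤ 2 * τ := by
    have h1 : ∀ i, i < N → dist (f (c i)) (f (c (i + 1))) ≤ τ := fun i hi => hf _ _ (D.step i hi)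
    have h2 : ∀ i, i + 1 < N → dist (f (c i)) (f (c (i + 2))) ≤ 2 * τ := fun i hi => by
      have a := h1 i (by omega)
      have b := h1 (i + 1) hi
      have := dist_triangle (f (c i)) (f (c (i + 1))) (f (c (i + 1 + 1)))
      show dist (f (c i)) (f (c (i + 1 + 1))) ≤ 2 * τ
      linarith
    intro i j hi hj a b
    have h3 : j = i ∨ j = i + 1 ∨ j = i + 2 ∨ i = j + 1 ∨ i = j + 2 := by omega
    rcases h3 with rfl | rfl | rfl | rfl | rfl
    · rw [dist_self]; linarith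
    · have := h1 i (by omega); linarith
    · exact h2 i (by omega)
    · rw [dist_comm]; have := h1 j (by omega); linarith
    · rw [dist_comm]; exact h2 j (by omega)
  have habN : ∀ x, x ≤ N → x - r x ≤ min (x + r x) N := fun x hx =>
    (Nat.sub_le _ _).trans (le_min (Nat.le_add_right _ _) hx)
  have hW1 : ∀ x, x < N →
      dist (wseg (f ∘ c) N (r x) x) (wseg (f ∘ c) N (r (x + 1)) (x + 1)) ≤ 2 * τ := by
    intro x hx
    have hrx := hr x hx
    have A := habN x hx.le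
    have B := habN (x + 1) hx
    apply dist_le_of _ _ _ (by linarith)
    · intro z hz
      obtain ⟨i, hi1, hi2, rfl⟩ := (mem_seg_iff _ A z).1 hz
      refine ⟨f (c (max (x + 1 - r (x + 1)) (min i (min (x + 1 + r (x + 1)) N)))),
        (mem_seg_iff _ B _).2 ⟨_, le_max_left _ _, max_le B (min_le_right _ _), rfl⟩, ?_⟩
      apply hstep <;> omega
    · intro z hz
      obtain ⟨i, hi1, hi2, rfl⟩ := (mem_seg_iff _ B z).1 hz
      refine ⟨f (c (max (x - r x) (min i (min (x + r x) N)))),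
        (mem_seg_iff _ A _).2 ⟨_, le_max_left _ _, max_le A (min_le_right _ _), rfl⟩, ?_⟩
      apply hstep <;> omega
  have hW2 : ∀ x y, x ≤ N → y ≤ N → x ≤ y + 2 → y ≤ x + 2 →
      dist (wseg (f ∘ c) N (r x) x) (wseg (f ∘ c) N (r y) y) ≤ 4 * τ := by
    have h2 : ∀ x, x + 1 < N →
        dist (wseg (f ∘ c) N (r x) x) (wseg (f ∘ c) N (r (x + 2)) (x + 2)) ≤ 4 * τ := fun x hx => by
      have a := hW1 x (by omega)
      have b := hW1 (x + 1) hx
      have := dist_triangle (wseg (f ∘ c) N (r x) x) (wseg (f ∘ c) N (r (x + 1)) (x + 1))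
        (wseg (f ∘ c) N (r (x + 1 + 1)) (x + 1 + 1))
      show dist (wseg (f ∘ c) N (r x) x) (wseg (f ∘ c) N (r (x + 1 + 1)) (x + 1 + 1)) ≤ 4 * τ
      linarith
    intro x y hx hy a b
    have h3 : y = x ∨ y = x + 1 ∨ y = x + 2 ∨ x = y + 1 ∨ x = y + 2 := by omega
    rcases h3 with rfl | rfl | rfl | rfl | rfl
    · rw [dist_self]; linarith
    · have := hW1 x (by omega); linarith
    · exact h2 x (by omega)
    · rw [dist_comm]; have := hW1 y (by omega); linarith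
    · rw [dist_comm]; exact h2 y (by omega)
  -- the centre moves slowly
  have hq : ∀ x, x < N' → u x ≤ u (x + 1) + 2 ∧ u (x + 1) ≤ u x + 2 ∧
      v x ≤ v (x + 1) + 2 ∧ v (x + 1) ≤ v x + 2 := by
    intro x hx
    have hrx := hr' x hx
    obtain ⟨h1, h2, h3, ⟨i0, a0, b0, e0⟩, ⟨i1, a1, b1, e1⟩⟩ := huv x hx.le
    obtain ⟨h1', h2', h3', ⟨i0', a0', b0', e0'⟩, ⟨i1', a1', b1', e1'⟩⟩ := huv (x + 1) hx
    have A := hab x hx.le
    have B := hab (x + 1) hx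
    refine ⟨?_, ?_, ?_, ?_⟩
    · -- u x ≤ u (x+1) + 2 : use i0'
      have k := h3 (max (x - r' x) (min i0' (min (x + r' x) N'))) (le_max_left _ _)
        (max_le A (min_le_right _ _))
      have := hp2 (max (x - r' x) (min i0' (min (x + r' x) N'))) i0' (by omega) (by omega)
        (by omega) (by omega)
      omega
    · have k := h3' (max (x + 1 - r' (x + 1)) (min i0 (min (x + 1 + r' (x + 1)) N')))
        (le_max_left _ _) (max_le B (min_le_right _ _))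
      have := hp2 (max (x + 1 - r' (x + 1)) (min i0 (min (x + 1 + r' (x + 1)) N'))) i0
        (by omega) (by omega) (by omega) (by omega)
      omega
    · have k := h3' (max (x + 1 - r' (x + 1)) (min i1 (min (x + 1 + r' (x + 1)) N')))
        (le_max_left _ _) (max_le B (min_le_right _ _))
      have := hp2 i1 (max (x + 1 - r' (x + 1)) (min i1 (min (x + 1 + r' (x + 1)) N')))
        (by omega) (by omega) (by omega) (by omega)
      omega
    · have k := h3 (max (x - r' x) (min i1' (min (x + r' x) N'))) (le_max_left _ _)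
        (max_le A (min_le_right _ _))
      have := hp2 i1' (max (x - r' x) (min i1' (min (x + r' x) N'))) (by omega) (by omega)
        (by omega) (by omega)
      omega
  refine ⟨_, _, Trk.of_fn (N' + 1) (fun x => wseg (f ∘ c') N' (r' x) x)
    (fun x => (u (min x N') + v (min x N')) / 2) ?_⟩
  intro x hx m hm1 hm2
  have hx' : x ≤ N' := by omega
  obtain ⟨h1, h2, -⟩ := huv x hx'
  have hqN : (u x + v x) / 2 ≤ N := by omega
  have hmq : m ≤ (u x + v x) / 2 + 2 ∧ (u x + v x) / 2 ≤ m + 2 ∧ m ≤ N := by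
    rcases Nat.lt_or_ge x N' with h | h
    · have k := hq x h
      obtain ⟨h1', h2', -⟩ := huv (x + 1) h
      rw [min_eq_left hx', min_eq_left (show x + 1 ≤ N' from h)] at hm1 hm2
      omega
    · have : x = N' := by omega
      subst this
      rw [min_self, min_eq_right (show x ≤ x + 1 by omega)] at hm1 hm2
      omega
  refine ⟨wseg (f ∘ c) N (r m) m, ?_, ?_⟩
  · rw [List.getElem?_map, List.getElem?_range (by omega)]
    rfl
  · have k1 := hW2 m ((u x + v x) / 2) hmq.2.2 hqN (by omega) (by omega)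
    have k2 := hcmp (u x) (v x) h1 h2 (hE x hx')
    have k3 := hwin x hx'
    have t1 := dist_triangle (wseg (f ∘ c) N (r m) m)
      (wseg (f ∘ c) N (r ((u x + v x) / 2)) ((u x + v x) / 2)) (wseg (f ∘ c') N' (r' x) x)
    have t2 := dist_triangle (wseg (f ∘ c) N (r ((u x + v x) / 2)) ((u x + v x) / 2))
      (seg (f ∘ c) (u x) (v x)) (wseg (f ∘ c') N' (r' x) x)
    rw [dist_comm] at k2 k3
    linarith

end Pool.Agent.WC
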