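import Pool.Agent.WC.Windows
import Pool.Agent.WC.WinTrack
import Pool.Agent.WC.DiscEx
import Pool.Agent.WC.Criterion

set_option autoImplicit false
open TopologicalSpace Filter Topology Set

namespace Pool.Agent.WC

theorem mem_wseg {X : Type*} [TopologicalSpace X] (p : ℕ → X) (N r x : ℕ) (hx : x ≤ N) :
    p x ∈ wseg p N r x := by
  show p x ∈ p '' Set.Icc (min (x - r) (min (x + r) N)) (max (x - r) (min (x + r) N))
  refine ⟨x, ⟨?_, ?_⟩, rfl⟩
  · exact (min_le_left _ _).trans (Nat.sub_le _ _)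
  · exact (le_min (Nat.le_add_right _ _) hx).trans (le_max_right _ _)

theorem mem_of_lim {X : Type*} [MetricSpace X] (𝒰 : Ultrafilter ℕ)
    (S : ℕ → NonemptyCompacts X) (K : NonemptyCompacts X) (hT : Tendsto S 𝒰 (𝓝 K))
    (x : X) (xs : ℕ → X) (hxs : ∀ n, xs n ∈ S n) (hx : Tendsto xs 𝒰 (𝓝 x)) : x ∈ K := by
  have h1 : Tendsto (fun n => dist x (xs n) + dist (S n) K) 𝒰 (𝓝 0) := by
    have a : Tendsto (fun n => dist x (xs n)) 𝒰 (𝓝 0) := by
      have := (tendsto_const_nhds (x := x)).dist hx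
      simpa using this
    have b : Tendsto (fun n => dist (S n) K) 𝒰 (𝓝 0) := by
      have := hT.dist (tendsto_const_nhds (x := K))
      simpa using this
    simpa using a.add b
  have h2 : ∀ n, Metric.infDist x (K : Set X) ≤ dist x (xs n) + dist (S n) K := by
    intro n
    have h3 := Metric.infDist_le_infDist_add_hausdorffDist (x := x) (s := (S n : Set X))
      (t := (K : Set X)) (Metric.hausdorffEDist_ne_top_of_nonempty_of_bounded (S n).nonempty
        K.nonempty (S n).isCompact.isBounded K.isCompact.isBounded)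
    have h4 : Metric.infDist x (S n : Set X) ≤ dist x (xs n) := Metric.infDist_le_dist_of_mem (hxs n)
    rw [Metric.NonemptyCompacts.dist_eq]
    linarith
  have h5 : Metric.infDist x (K : Set X) ≤ 0 := ge_of_tendsto' h1 h2
  have h6 : Metric.infDist x (K : Set X) = 0 := le_antisymm h5 Metric.infDist_nonneg
  exact (K.isCompact.isClosed.mem_iff_infDist_zero K.nonempty).2 h6

theorem stepA (X : Type) [MetricSpace X] [CompactSpace X] [ConnectedSpace X]
    (Y : Type) [MetricSpace Y] [CompactSpace Y] [ConnectedSpace Y] (hY : IsChainable Y)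
    (f : Y → X) (hf : Continuous f) (hfs : Function.Surjective f)
    (ω : NonemptyCompacts X → ℝ) (hc : Continuous ω) (hm : SMC ω) (t : ℝ)
    (ht0 : ∀ x : X, ω {x} < t) (ht1 : t < ω ⊤) :
    ∃ (S : Type) (_ : MetricSpace S), CompactSpace S ∧ ConnectedSpace S ∧ IsChainable S ∧
      ∃ h : S → NonemptyCompacts X, Continuous h ∧
        (∀ s, IsConnected (h s : Set X) ∧ ω (h s) = t) ∧ ∀ x : X, ∃ s, x ∈ h s := by
  classical
  let W : (ℕ → Y) → ℕ → (ℕ → ℕ) → ℕ → NonemptyCompacts X := fun c N r x =>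
    wseg (f ∘ c) N (r x) x
  let G : ℕ → ℝ → ℝ → ℕ → (ℕ → Y) → (Y → ℕ) → ℝ → ℝ → (ℕ → ℕ) → Prop :=
    fun n e δ N c ι E τ r =>
    Disc Y e δ N c ι ∧ 0 < δ ∧ 0 < E ∧ 0 ≤ τ ∧ τ ≤ (1 / 2 : ℝ) ^ n / 10 ∧
      (∀ x y : Y, dist x y ≤ e → dist (f x) (f y) ≤ τ) ∧
      (∀ K K' : NonemptyCompacts X, dist K K' ≤ τ → |ω K - ω K'| ≤ E / 2) ∧
      (∀ x, x < N → r x ≤ r (x + 1) + 1 ∧ r (x + 1) ≤ r x + 1) ∧
      (∀ x, x ≤ N → EC ((1 / 2 : ℝ) ^ n) (W c N r x : Set X) ∧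
        |ω (W c N r x) - t| ≤ (1 / 2 : ℝ) ^ n) ∧
      (∀ u v, u ≤ v → v ≤ N → |ω (seg (f ∘ c) u v) - t| ≤ E →
        dist (seg (f ∘ c) u v) (wseg (f ∘ c) N (r ((u + v) / 2)) ((u + v) / 2)) ≤
          (1 / 2 : ℝ) ^ n / 2)
  have data : ∀ (n : ℕ) (δ0 η0 : ℝ), 0 < δ0 → 0 < η0 → ∃ e δ N c ι E τ r, e ≤ δ0 ∧
      (∀ x, x ≤ N → |ω (W c N r x) - t| ≤ η0) ∧ G n e δ N c ι E τ r := by
    intro n δ0 η0 hδ0 hη0
    have hpow : (0 : ℝ) < (1 / 2 : ℝ) ^ n := by positivity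
    obtain ⟨E, hE, hwin⟩ := windows ω hc hm t ht0 ht1 (min ((1 / 2 : ℝ) ^ n / 2) η0)
      (lt_min (by positivity) hη0)
    have huω := CompactSpace.uniformContinuous_of_continuous hc
    obtain ⟨ρ, hρ, hρ'⟩ := Metric.uniformContinuous_iff.1 huω (E / 2) (by positivity)
    have huf := CompactSpace.uniformContinuous_of_continuous hf
    set τ : ℝ := min (min ((1 / 2 : ℝ) ^ n / 10) (ρ / 2)) E with hτ
    have hτ0 : 0 < τ := lt_min (lt_min (by positivity) (by positivity)) hE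
    obtain ⟨e0, he0, he0'⟩ := Metric.uniformContinuous_iff.1 huf τ hτ0
    obtain ⟨δ, hδ, N, c, ι, D⟩ := exists_disc hY (min (e0 / 2) δ0) (lt_min (by linarith) hδ0)
    have hfe : ∀ x y : Y, dist x y ≤ min (e0 / 2) δ0 → dist (f x) (f y) ≤ τ := by
      intro x y hxy
      exact (he0' (lt_of_le_of_lt (hxy.trans (min_le_left _ _)) (by linarith))).le
    obtain ⟨r, hr1, hr2, hr3⟩ := hwin N (f ∘ c)
      (fun i hi => (hfe _ _ (D.step i hi)).trans (min_le_right _ _))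
      (fun x => by
        obtain ⟨y, rfl⟩ := hfs x
        exact ⟨ι y, D.bd y, (hfe _ _ (D.near y)).trans (min_le_right _ _)⟩)
    refine ⟨_, δ, N, c, ι, E, τ, r, min_le_right _ _, ?_, D, hδ, hE, hτ0.le,
      (min_le_left _ _).trans (min_le_left _ _), hfe, ?_, hr1, ?_, ?_⟩
    · intro x hx
      exact (hr2 x hx).2.trans (min_le_right _ _)
    · intro K K' hK
      have h1 : τ ≤ ρ / 2 := (min_le_left _ _).trans (min_le_right _ _)
      exact (hρ' (lt_of_le_of_lt (hK.trans h1) (by linarith))).le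
    · intro x hx
      obtain ⟨h1, h2⟩ := hr2 x hx
      refine ⟨?_, ?_⟩
      · exact EC_mono' ((min_le_left _ _).trans (by linarith)) h1
      · exact h2.trans ((min_le_left _ _).trans (by linarith))
    · intro u v h1 h2 h3
      exact (hr3 u v h1 h2 h3).trans (min_le_left _ _)
  let P : ℕ → List (NonemptyCompacts X) → Prop := fun n L =>
    ∃ e δ N c ι E τ r, G n e δ N c ι E τ r ∧ L = (List.range (N + 1)).map (W c N r)
  obtain ⟨L, hL, S, iS, hS1, hS2, hS3, F, hF, hF1, hF2⟩ := criterion (Z := NonemptyCompacts X) P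
    (by
      obtain ⟨e, δ, N, c, ι, E, τ, r, _, _, hG⟩ := data 0 1 1 one_pos one_pos
      exact ⟨_, e, δ, N, c, ι, E, τ, r, hG, rfl⟩)
    (by
      rintro n L ⟨e, δ, N, c, ι, E, τ, r, hG, rfl⟩
      simp)
    (by
      rintro n L ⟨e, δ, N, c, ι, E, τ, r, ⟨D, hδ, hE, hτ, hτ2, hfe, hω, hr1, hr2, hr3⟩, rfl⟩
      obtain ⟨e', δ', N', c', ι', E', τ', r', he', hq', hG'⟩ := data (n + 1) δ (E / 2) hδ
        (by positivity)
      refine ⟨_, ⟨e', δ', N', c', ι', E', τ', r', hG', rfl⟩, ?_⟩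
      obtain ⟨D', hδ', hE', hτ', hτ2', hfe', hω', hr1', hr2', hr3'⟩ := hG'
      obtain ⟨i, j, hij⟩ := win_track f ω t D D' he' ((1 / 2 : ℝ) ^ n / 2) τ E hτ hfe hω r hr1 hr3
        r' hr1' hq'
      refine ⟨i, j, hij.mono ?_⟩
      rintro m x _ ⟨z, hz, hd⟩
      refine ⟨z, hz, hd.trans ?_⟩
      linarith)
  refine ⟨S, iS, hS1, hS2, hS3, F, hF, ?_, ?_⟩
  · intro s
    have hz : ∀ n, ∃ z : NonemptyCompacts X, dist (F s) z ≤ 4 * (1 / 2 : ℝ) ^ n ∧
        EC ((1 / 2 : ℝ) ^ n) (z : Set X) ∧ |ω z - t| ≤ (1 / 2 : ℝ) ^ n := by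
      intro n
      obtain ⟨z, hz, hd⟩ := hF1 s n
      obtain ⟨e, δ, N, c, ι, E, τ, r, hG, hLn⟩ := hL n
      rw [hLn, List.mem_map] at hz
      obtain ⟨x, hx, rfl⟩ := hz
      rw [List.mem_range] at hx
      exact ⟨_, hd, hG.2.2.2.2.2.2.2.2.1 x (by omega)⟩
    choose z hz1 hz2 hz3 using hz
    have hpow : Tendsto (fun n : ℕ => (1 / 2 : ℝ) ^ n) atTop (𝓝 0) :=
      tendsto_pow_atTop_nhds_zero_of_lt_one (by norm_num) (by norm_num)
    have hzt : Tendsto z atTop (𝓝 (F s)) := by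
      rw [tendsto_iff_dist_tendsto_zero]
      have h4 : Tendsto (fun n : ℕ => 4 * (1 / 2 : ℝ) ^ n) atTop (𝓝 0) := by
        have := hpow.const_mul 4
        rwa [mul_zero] at this
      refine squeeze_zero (fun n => dist_nonneg) (fun n => ?_) h4
      rw [dist_comm]
      exact hz1 n
    refine ⟨?_, ?_⟩
    · refine conn_of_lim (hyperfilter ℕ) z (F s) (hzt.mono_left Nat.hyperfilter_le_atTop)
        (fun n => (1 / 2 : ℝ) ^ n) (hpow.mono_left Nat.hyperfilter_le_atTop) hz2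
    · have h1 : Tendsto (fun n => ω (z n)) atTop (𝓝 (ω (F s))) := (hc.tendsto _).comp hzt
      have h2 : Tendsto (fun n => ω (z n)) atTop (𝓝 t) := by
        rw [tendsto_iff_dist_tendsto_zero]
        refine squeeze_zero (fun n => dist_nonneg) (fun n => ?_) hpow
        rw [Real.dist_eq]
        exact hz3 n
      exact tendsto_nhds_unique h1 h2
  · intro x
    obtain ⟨y, hy⟩ := hfs x
    have hz : ∀ n, ∃ z : NonemptyCompacts X, z ∈ L n ∧ ∃ x' ∈ z, dist x x' ≤ (1 / 2 : ℝ) ^ n := by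
      intro n
      obtain ⟨e, δ, N, c, ι, E, τ, r, hG, hLn⟩ := hL n
      refine ⟨W c N r (ι y), ?_, f (c (ι y)), mem_wseg (f ∘ c) N (r (ι y)) (ι y) (hG.1.bd y), ?_⟩
      · rw [hLn, List.mem_map]
        exact ⟨ι y, by rw [List.mem_range]; exact Nat.lt_succ_of_le (hG.1.bd y), rfl⟩
      · rw [← hy]
        have h1 := hG.2.2.2.2.2.1 _ _ (hG.1.near y)
        have h2 := hG.2.2.2.2.1
        have : (0 : ℝ) < (1 / 2 : ℝ) ^ n := by positivity
        linarith
    choose z hz1 xs hz2 hz3 using hz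
    have hpow : Tendsto (fun n : ℕ => (1 / 2 : ℝ) ^ n) atTop (𝓝 0) :=
      tendsto_pow_atTop_nhds_zero_of_lt_one (by norm_num) (by norm_num)
    obtain ⟨K, -, hK⟩ := isCompact_univ.ultrafilter_le_nhds
      ((hyperfilter ℕ).map z) (by simp)
    have hKt : Tendsto z (hyperfilter ℕ) (𝓝 K) := hK
    have hxK : x ∈ K := by
      refine mem_of_lim (hyperfilter ℕ) z K hKt x xs hz2 ?_
      rw [tendsto_iff_dist_tendsto_zero]
      refine squeeze_zero (fun n => dist_nonneg) (fun n => ?_)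
        (hpow.mono_left Nat.hyperfilter_le_atTop)
      rw [dist_comm]
      exact hz3 n
    obtain ⟨s, hs⟩ := hF2 K (by
      intro ε hε n₀
      have h1 : ∀ᶠ n in (hyperfilter ℕ : Filter ℕ), dist (z n) K < ε :=
        hKt.eventually (Metric.ball_mem_nhds K hε)
      have h2 : ∀ᶠ n in (hyperfilter ℕ : Filter ℕ), n₀ ≤ n :=
        (eventually_ge_atTop n₀).filter_mono Nat.hyperfilter_le_atTop
      obtain ⟨n, hn1, hn2⟩ := (h1.and h2).exists
      exact ⟨n, hn2, z n, hz1 n, by rw [dist_comm]; exact hn1.le⟩)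
    exact ⟨s, by rw [hs]; exact hxK⟩

end Pool.Agent.WC
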