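import Pool.Agent.WC.Defs

set_option autoImplicit false
open TopologicalSpace Filter Topology Set

namespace Pool.Agent.WC

namespace Trk

variable {α β : Type*} {R R' : ℕ → α → Prop} {i j k : ℕ} {x : α} {l l' : List α}

theorem append (h : Trk R i l j) (h' : Trk R j l' k) : Trk R i (l ++ l') k := by
  induction h with
  | nil i => exact h'
  | cons hm _ ih => exact Trk.cons hm (ih h')

theorem single (h : ∀ m, min i j ≤ m → m ≤ max i j → R m x) : Trk R i [x] j :=
  Trk.cons h (Trk.nil j)

theorem reverse (h : Trk R i l j) : Trk R j l.reverse i := by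
  induction h with
  | nil i => exact Trk.nil i
  | @cons i j k x l hm _ ih =>
    rw [List.reverse_cons]
    exact ih.append (single (fun m h1 h2 => hm m (by rwa [min_comm] at h1) (by rwa [max_comm] at h2)))

theorem mono (h : Trk R i l j) (hR : ∀ m x, x ∈ l → R m x → R' m x) : Trk R' i l j := by
  induction h with
  | nil i => exact Trk.nil i
  | cons hm _ ih =>
    exact Trk.cons (fun m h1 h2 => hR _ _ (by simp) (hm m h1 h2))
      (ih (fun m x hx => hR m x (List.mem_cons_of_mem _ hx)))

theorem shift (o : ℕ) (h : Trk R i l j) (hR : ∀ m x, x ∈ l → R m x → R' (o + m) x) :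
    Trk R' (o + i) l (o + j) := by
  induction h with
  | nil i => exact Trk.nil _
  | cons hm _ ih =>
    refine Trk.cons (fun m h1 h2 => ?_) (ih (fun m x hx => hR m x (List.mem_cons_of_mem _ hx)))
    have : m = o + (m - o) := by omega
    rw [this]
    exact hR _ _ (by simp) (hm _ (by omega) (by omega))

theorem flip (o : ℕ) (h : Trk R i l j) (hR : ∀ m x, x ∈ l → R m x → m ≤ o ∧ R' (o - m) x) :
    Trk R' (o - i) l (o - j) := by
  induction h with
  | nil i => exact Trk.nil _
  | @cons i j k x l hm _ ih =>
    refine Trk.cons (fun m h1 h2 => ?_) (ih (fun m x hx => hR m x (List.mem_cons_of_mem _ hx)))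
    have hi : i ≤ o := (hR i x (by simp) (hm i (by omega) (by omega))).1
    have hj : j ≤ o := (hR j x (by simp) (hm j (by omega) (by omega))).1
    have : m = o - (o - m) := by omega
    rw [this]
    exact (hR _ _ (by simp) (hm _ (by omega) (by omega))).2

theorem map (f : β → α) {l : List β} (h : Trk (fun m y => R m (f y)) i l j) :
    Trk R i (l.map f) j := by
  induction h with
  | nil i => exact Trk.nil _
  | cons hm _ ih => exact Trk.cons hm ih

theorem of_map (f : β → α) {l : List β} (h : Trk R i (l.map f) j) :
    Trk (fun m y => R m (f y)) i l j := by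
  induction l generalizing i with
  | nil =>
    cases h
    exact Trk.nil _
  | cons y l ih =>
    cases h with
    | cons hm h' => exact Trk.cons hm (ih h')

/-- change of the starting position -/
theorem pre {i' : ℕ} (h : Trk R i (x :: l) k) (hi : ∀ m, min i' i ≤ m → m ≤ max i' i → R m x) :
    Trk R i' (x :: l) k := by
  cases h with
  | @cons _ j _ _ _ hm h' =>
    refine Trk.cons (fun m h1 h2 => ?_) h'
    by_cases hc : min i' i ≤ m ∧ m ≤ max i' i
    · exact hi m hc.1 hc.2
    · exact hm m (by omega) (by omega)

theorem head (h : Trk R i (x :: l) k) : R i x := by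
  cases h with
  | cons hm _ => exact hm i (by omega) (by omega)

theorem last (h : Trk R i l j) (hl : l ≠ []) : R j (l.getLast hl) := by
  have h' := h.reverse
  have : l.reverse = l.getLast hl :: l.reverse.tail := by
    rw [← List.head_reverse (by simpa using hl)]
    exact (List.cons_head_tail _).symm
  rw [this] at h'
  exact h'.head

/-- tracking from a function -/
theorem of_fn (n : ℕ) (x : ℕ → α) (g : ℕ → ℕ)
    (h : ∀ i, i < n → ∀ m, min (g i) (g (i + 1)) ≤ m → m ≤ max (g i) (g (i + 1)) → R m (x i)) :
    Trk R (g 0) ((List.range n).map x) (g n) := by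
  induction n with
  | zero => exact Trk.nil _
  | succ n ih =>
    rw [List.range_succ, List.map_append, List.map_singleton]
    exact (ih (fun i hi => h i (by omega))).append (single (h n (by omega)))

end Trk

/-! ### Fans -/

section Fan

variable {Z Θ : Type*} [MetricSpace Z]

/-- out and back along all arms -/
def Fan (A : Θ → List Z) (S : List Θ) : List Z := S.flatMap (fun s => A s ++ (A s).reverse)

theorem Fan_cons (A : Θ → List Z) (s : Θ) (S : List Θ) :
    Fan A (s :: S) = (A s ++ (A s).reverse) ++ Fan A S := by
  simp [Fan]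

theorem Fan_append (A : Θ → List Z) (S S' : List Θ) :
    Fan A (S ++ S') = Fan A S ++ Fan A S' := by
  simp [Fan]

theorem Near.append_left {L L' : List Z} {ε : ℝ} {m : ℕ} {x : Z} (h : Near L ε m x) :
    Near (L ++ L') ε m x := by
  obtain ⟨z, hz, hd⟩ := h
  refine ⟨z, ?_, hd⟩
  have hm : m < L.length := by
    rw [List.getElem?_eq_some_iff] at hz
    exact hz.1
  rw [List.getElem?_append_left hm]
  exact hz

theorem Near.append_right {L L' : List Z} {ε : ℝ} {m : ℕ} {x : Z} (h : Near L' ε m x) :
    Near (L ++ L') ε (L.length + m) x := by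
  obtain ⟨z, hz, hd⟩ := h
  refine ⟨z, ?_, hd⟩
  rw [List.getElem?_append_right (by omega)]
  simpa using hz

theorem Near.lt {L : List Z} {ε : ℝ} {m : ℕ} {x : Z} (h : Near L ε m x) : m < L.length := by
  obtain ⟨z, hz, _⟩ := h
  rw [List.getElem?_eq_some_iff] at hz
  exact hz.1

theorem Near.rev {L : List Z} {ε : ℝ} {m : ℕ} {x : Z} (h : Near L ε m x) :
    Near L.reverse ε (L.length - 1 - m) x := by
  have hm := h.lt
  obtain ⟨z, hz, hd⟩ := h
  refine ⟨z, ?_, hd⟩
  rw [List.getElem?_reverse (by omega)]
  have : L.length - 1 - (L.length - 1 - m) = m := by omega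
  rw [this]
  exact hz

/-- one arm, returning to the start -/
theorem arm_stay {a a' : List Z} {ε : ℝ} (h : Trk (Near a ε) 0 a' (a.length - 1)) (rest : List Z) :
    Trk (Near ((a ++ a.reverse) ++ rest) ε) 0 (a' ++ a'.reverse) 0 := by
  have h1 : Trk (Near ((a ++ a.reverse) ++ rest) ε) 0 a' (a.length - 1) :=
    h.mono (fun m x _ hx => hx.append_left.append_left)
  exact h1.append h1.reverse

/-- one arm, advancing to the end -/
theorem arm_adv {a a' : List Z} {ε : ℝ} (ha : a ≠ []) (ha' : a' ≠ [])
    (h : Trk (Near a ε) 0 a' (a.length - 1)) (rest : List Z) :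
    Trk (Near ((a ++ a.reverse) ++ rest) ε) 0 (a' ++ a'.reverse) (2 * a.length - 1) := by
  have hlen : 0 < a.length := List.length_pos_iff.2 ha
  have h1 : Trk (Near ((a ++ a.reverse) ++ rest) ε) 0 a' (a.length - 1) :=
    h.mono (fun m x _ hx => hx.append_left.append_left)
  have hR : ∀ m x, Near a ε m x → m ≤ 2 * a.length - 1 ∧
      Near ((a ++ a.reverse) ++ rest) ε (2 * a.length - 1 - m) x := by
    intro m x hx
    have hm := hx.lt
    refine ⟨by omega, ?_⟩
    have h3 := (hx.rev.append_right (L := a)).append_left (L' := rest)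
    have : a.length + (a.length - 1 - m) = 2 * a.length - 1 - m := by omega
    rw [this] at h3
    exact h3
  have h2 := h.reverse.flip (R' := Near ((a ++ a.reverse) ++ rest) ε) (2 * a.length - 1)
    (fun m x _ hx => hR m x hx)
  have e1 : 2 * a.length - 1 - (a.length - 1) = a.length := by omega
  rw [e1, Nat.sub_zero] at h2
  refine h1.append ?_
  have hr : a'.reverse = a'.getLast ha' :: a'.reverse.tail := by
    rw [← List.head_reverse (by simpa using ha')]
    exact (List.cons_head_tail _).symm
  rw [hr] at h2 ⊢
  refine h2.pre (fun m hm1 hm2 => ?_)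
  have hl := h.last ha'
  have hm : m = a.length - 1 ∨ m = a.length := by omega
  rcases hm with rfl | rfl
  · exact hl.append_left.append_left
  · have := (hR _ _ hl).2
    rwa [e1] at this

theorem fan_block {A A' : Θ → List Z} {ε : ℝ} (s : Θ) (G : List Θ) (hG : G ≠ [])
    (hA : A s ≠ []) (hA' : ∀ s' ∈ G, A' s' ≠ [])
    (h : ∀ s' ∈ G, Trk (Near (A s) ε) 0 (A' s') ((A s).length - 1)) (rest : List Z) :
    Trk (Near ((A s ++ (A s).reverse) ++ rest) ε) 0 (Fan A' G) (2 * (A s).length - 1) := by
  induction G with
  | nil => exact absurd rfl hG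
  | cons g G ih =>
    rw [Fan_cons]
    by_cases hG' : G = []
    · subst hG'
      have : Fan A' ([] : List Θ) = [] := rfl
      rw [this, List.append_nil]
      exact arm_adv hA (hA' g (by simp)) (h g (by simp)) rest
    · refine (arm_stay (h g (by simp)) rest).append ?_
      exact ih hG' (fun s' hs' => hA' s' (List.mem_cons_of_mem _ hs'))
        (fun s' hs' => h s' (List.mem_cons_of_mem _ hs'))

theorem Fan_ne_nil {A : Θ → List Z} {S : List Θ} (hS : S ≠ []) (hA : ∀ s ∈ S, A s ≠ []) :
    Fan A S ≠ [] := by
  cases S with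
  | nil => exact absurd rfl hS
  | cons s S =>
    rw [Fan_cons]
    simp [hA s (by simp)]

theorem Fan_head? {A : Θ → List Z} {s : Θ} {S : List Θ} (hA : A s ≠ []) :
    (Fan A (s :: S)).head? = (A s).head? := by
  rw [Fan_cons]
  cases h : A s with
  | nil => exact absurd h hA
  | cons x l => simp

theorem Fan_length_cons (A : Θ → List Z) (s : Θ) (S : List Θ) :
    (Fan A (s :: S)).length = 2 * (A s).length + (Fan A S).length := by
  rw [Fan_cons]
  simp
  omega

/-- tracking of fans -/
theorem fan_track {A A' : Θ → List Z} {ε : ℝ} (b : Z)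
    (hA : ∀ s, (A s).head? = some b) (hA' : ∀ s, A' s ≠ [])
    (G : Θ → List Θ) (hG : ∀ s, G s ≠ [])
    (h : ∀ s, ∀ s' ∈ G s, Trk (Near (A s) ε) 0 (A' s') ((A s).length - 1))
    (S : List Θ) (hS : S ≠ []) :
    Trk (Near (Fan A S) ε) 0 (Fan A' (S.flatMap G)) ((Fan A S).length - 1) := by
  have hAne : ∀ s, A s ≠ [] := by
    intro s hs
    have := hA s
    rw [hs] at this
    simp at this
  induction S with
  | nil => exact absurd rfl hS
  | cons s S ih =>
    have e1 : (s :: S).flatMap G = G s ++ S.flatMap G := by simp
    rw [e1, Fan_append, Fan_length_cons]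
    have hlen : 0 < (A s).length := List.length_pos_iff.2 (hAne s)
    have hb := fan_block (A := A) (A' := A') s (G s) (hG s) (hAne s) (fun s' _ => hA' s') (h s)
      (Fan A S)
    rw [← Fan_cons] at hb
    by_cases hS' : S = []
    · subst hS'
      have : Fan A' (([] : List Θ).flatMap G) = [] := rfl
      rw [this, List.append_nil]
      have : (Fan A ([] : List Θ)).length = 0 := rfl
      rw [this, Nat.add_zero]
      exact hb
    · have hi := ih hS'
      have hlen2 : 0 < (Fan A S).length := List.length_pos_iff.2 (Fan_ne_nil hS' (fun s _ => hAne s))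
      refine hb.append ?_
      have h2 := hi.shift (R' := Near (Fan A (s :: S)) ε) (2 * (A s).length) (fun m x _ hx => by
        rw [Fan_cons]
        have := hx.append_right (L := A s ++ (A s).reverse)
        rw [List.length_append, List.length_reverse, ← two_mul] at this
        exact this)
      have e2 : 2 * (A s).length + ((Fan A S).length - 1) = 2 * (A s).length + (Fan A S).length - 1 := by
        omega
      rw [Nat.add_zero, e2] at h2
      -- first element of the fine fan
      obtain ⟨s1, S1, rfl⟩ : ∃ s1 S1, S = s1 :: S1 := by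
        cases S with
        | nil => exact absurd rfl hS'
        | cons a b => exact ⟨a, b, rfl⟩
      obtain ⟨g, G1, hg⟩ : ∃ g G1, G s1 = g :: G1 := by
        cases hgs : G s1 with
        | nil => exact absurd hgs (hG s1)
        | cons a b => exact ⟨a, b, rfl⟩
      obtain ⟨x, l, hx⟩ : ∃ x l, A' g = x :: l := by
        cases hgs : A' g with
        | nil => exact absurd hgs (hA' g)
        | cons a b => exact ⟨a, b, rfl⟩
      have hF : ∃ l', Fan A' ((s1 :: S1).flatMap G) = x :: l' := by
        refine ⟨l ++ (A' g).reverse ++ Fan A' (G1 ++ S1.flatMap G), ?_⟩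
        have : (s1 :: S1).flatMap G = g :: (G1 ++ S1.flatMap G) := by simp [hg]
        rw [this, Fan_cons, hx]
        simp
      obtain ⟨l', hl'⟩ := hF
      rw [hl'] at h2 ⊢
      refine h2.pre (fun m hm1 hm2 => ?_)
      have hm : m = 2 * (A s).length - 1 ∨ m = 2 * (A s).length := by omega
      rcases hm with rfl | rfl
      · -- near the base point
        have hx0 : dist b x ≤ ε := by
          have h3 := h s1 g (by rw [hg]; simp)
          rw [hx] at h3
          obtain ⟨z, hz, hd⟩ := h3.head
          have : (A s1)[0]? = some b := by rw [← List.head?_eq_getElem?]; exact hA s1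
          rw [this] at hz
          cases hz
          exact hd
        have h4 : Near (A s) ε 0 x := ⟨b, by rw [← List.head?_eq_getElem?]; exact hA s, hx0⟩
        have h5 := (h4.rev.append_right (L := A s)).append_left (L' := Fan A (s1 :: S1))
        rw [← Fan_cons] at h5
        have : (A s).length + ((A s).length - 1 - 0) = 2 * (A s).length - 1 := by omega
        rwa [this] at h5
      · exact h2.head

end Fan

end Pool.Agent.WC
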