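import Pool.Agent.WC.Defs

/-! Proof by helper2 (team lemma job). -/

set_option autoImplicit false
open TopologicalSpace Filter Topology Set

namespace Pool.Agent.WC

theorem EC_of_preconnected {X : Type*} [MetricSpace X] {S : Set X} (hS : IsPreconnected S)
    {ε : ℝ} (hε : 0 < ε) : EC ε S := by
  intro x hx y hy
  by_contra hcon
  let Q : X → X → Prop := fun a b => a ∈ S ∧ b ∈ S ∧ dist a b ≤ ε
  let U : Set X := ⋃ z ∈ {z | z ∈ S ∧ Relation.ReflTransGen Q x z}, Metric.ball z ε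
  let V : Set X := ⋃ z ∈ {z | z ∈ S ∧ ¬ Relation.ReflTransGen Q x z}, Metric.ball z ε
  have hU : IsOpen U := isOpen_biUnion fun _ _ => Metric.isOpen_ball
  have hV : IsOpen V := isOpen_biUnion fun _ _ => Metric.isOpen_ball
  have hmU : ∀ z, z ∈ S → Relation.ReflTransGen Q x z → z ∈ U := by
    intro z hz h
    exact mem_biUnion (show z ∈ {z | z ∈ S ∧ Relation.ReflTransGen Q x z} from ⟨hz, h⟩)
      (Metric.mem_ball_self hε)
  have hmV : ∀ z, z ∈ S → ¬ Relation.ReflTransGen Q x z → z ∈ V := by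
    intro z hz h
    exact mem_biUnion (show z ∈ {z | z ∈ S ∧ ¬ Relation.ReflTransGen Q x z} from ⟨hz, h⟩)
      (Metric.mem_ball_self hε)
  have hcov : S ⊆ U ∪ V := by
    intro z hz
    by_cases h : Relation.ReflTransGen Q x z
    · exact Or.inl (hmU z hz h)
    · exact Or.inr (hmV z hz h)
  obtain ⟨z, hzS, hzU, hzV⟩ := hS U V hU hV hcov ⟨x, hx, hmU x hx Relation.ReflTransGen.refl⟩
    ⟨y, hy, hmV y hy hcon⟩
  simp only [U, V, mem_iUnion] at hzU hzV
  obtain ⟨a, ⟨haS, ha⟩, hza⟩ := hzU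
  obtain ⟨b, ⟨hbS, hb⟩, hzb⟩ := hzV
  rw [Metric.mem_ball] at hza hzb
  exact hb ((ha.tail ⟨haS, hzS, by rw [dist_comm]; exact hza.le⟩).tail ⟨hzS, hbS, hzb.le⟩)

theorem wc_near {X : Type*} [MetricSpace X] [CompactSpace X] {S T : NonemptyCompacts X} {r : ℝ}
    (h : dist S T < r) {x : X} (hx : x ∈ S) : ∃ y ∈ T, dist x y < r := by
  rw [Metric.NonemptyCompacts.dist_eq] at h
  exact Metric.exists_dist_lt_of_hausdorffDist_lt (s := (S : Set X)) (t := (T : Set X)) hx h
    (Metric.hausdorffEDist_ne_top_of_nonempty_of_bounded S.nonempty T.nonempty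
      S.isCompact.isBounded T.isCompact.isBounded)

theorem conn_of_lim {X : Type*} [MetricSpace X] [CompactSpace X] (𝒰 : Ultrafilter ℕ)
    (S : ℕ → NonemptyCompacts X) (K : NonemptyCompacts X) (hT : Tendsto S 𝒰 (𝓝 K))
    (ε : ℕ → ℝ) (hε : Tendsto ε 𝒰 (𝓝 0)) (hS : ∀ n, EC (ε n) (S n : Set X)) :
    IsConnected (K : Set X) := by
  refine ⟨K.nonempty, ?_⟩
  rw [isPreconnected_closed_iff]
  intro t t' ht ht' hcov hne hne'
  by_contra hcon
  rw [not_nonempty_iff_eq_empty] at hcon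
  obtain ⟨A, hA⟩ : ∃ A, A = (K : Set X) ∩ t := ⟨_, rfl⟩
  obtain ⟨B, hB⟩ : ∃ B, B = (K : Set X) ∩ t' := ⟨_, rfl⟩
  have hAc : IsCompact A := by rw [hA]; exact K.isCompact.inter_right ht
  have hBc : IsClosed B := by rw [hB]; exact K.isCompact.isClosed.inter ht'
  have hdis : Disjoint A B := by
    rw [Set.disjoint_left]
    intro z hz hz'
    rw [hA] at hz
    rw [hB] at hz'
    have : z ∈ (K : Set X) ∩ (t ∩ t') := ⟨hz.1, hz.2, hz'.2⟩
    rw [hcon] at this
    exact this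
  obtain ⟨δ, hδ, hδd⟩ := hdis.exists_thickenings hAc hBc
  have hev1 : ∀ᶠ n in (𝒰 : Filter ℕ), dist (S n) K < δ / 2 :=
    hT.eventually (Metric.ball_mem_nhds K (by positivity))
  have hev2 : ∀ᶠ n in (𝒰 : Filter ℕ), ε n < δ / 2 :=
    hε.eventually (gt_mem_nhds (by positivity))
  obtain ⟨n, hn1, hn2⟩ := (hev1.and hev2).exists
  have hn1' : dist K (S n) < δ / 2 := by rw [dist_comm]; exact hn1
  have hcase : ∀ x ∈ S n, x ∈ Metric.thickening (δ / 2) A ∨ x ∈ Metric.thickening (δ / 2) B := by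
    intro x hx
    obtain ⟨y, hy, hxy⟩ := wc_near hn1 hx
    rcases hcov hy with h | h
    · left
      rw [Metric.mem_thickening_iff]
      exact ⟨y, by rw [hA]; exact ⟨hy, h⟩, hxy⟩
    · right
      rw [Metric.mem_thickening_iff]
      exact ⟨y, by rw [hB]; exact ⟨hy, h⟩, hxy⟩
  obtain ⟨a, haK, hat⟩ := hne
  obtain ⟨b, hbK, hbt⟩ := hne'
  obtain ⟨x, hx, hax⟩ := wc_near hn1' haK
  obtain ⟨y, hy, hby⟩ := wc_near hn1' hbK
  have hxA : x ∈ Metric.thickening (δ / 2) A := by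
    rw [Metric.mem_thickening_iff]
    exact ⟨a, by rw [hA]; exact ⟨haK, hat⟩, by rw [dist_comm]; exact hax⟩
  have hyB : y ∈ Metric.thickening (δ / 2) B := by
    rw [Metric.mem_thickening_iff]
    exact ⟨b, by rw [hB]; exact ⟨hbK, hbt⟩, by rw [dist_comm]; exact hby⟩
  have hmA : Metric.thickening (δ / 2) A ⊆ Metric.thickening δ A :=
    Metric.thickening_mono (by linarith) A
  have hmB : Metric.thickening (δ / 2) B ⊆ Metric.thickening δ B :=
    Metric.thickening_mono (by linarith) B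
  have hchain := hS n x hx y hy
  have key : y ∈ Metric.thickening (δ / 2) A := by
    clear hby hyB
    clear hy
    induction hchain with
    | refl => exact hxA
    | tail _ hstep ih =>
      obtain ⟨h1, h2, h3⟩ := hstep
      rcases hcase _ h2 with h | h
      · exact h
      · exfalso
        rw [Metric.mem_thickening_iff] at h
        obtain ⟨z, hz, hzd⟩ := h
        have h4 := dist_triangle _ _ z |>.trans_lt (add_lt_add_of_le_of_lt h3 hzd)
        refine (Set.disjoint_left.1 hδd) (hmA ih) ?_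
        rw [Metric.mem_thickening_iff]
        exact ⟨z, hz, by linarith⟩
  exact (Set.disjoint_left.1 hδd) (hmA key) (hmB hyB)

theorem isClosed_conn (X : Type*) [MetricSpace X] [CompactSpace X] :
    IsClosed {K : NonemptyCompacts X | IsConnected (K : Set X)} := by
  apply IsSeqClosed.isClosed
  intro S K hS hT
  have hε : Tendsto (fun n : ℕ => 1 / ((n : ℝ) + 1)) (hyperfilter ℕ : Filter ℕ) (𝓝 0) :=
    tendsto_one_div_add_atTop_nhds_zero_nat.mono_left Nat.hyperfilter_le_atTop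
  exact conn_of_lim (hyperfilter ℕ) S K (hT.mono_left Nat.hyperfilter_le_atTop)
    (fun n : ℕ => 1 / ((n : ℝ) + 1)) hε
    (fun n => EC_of_preconnected (hS n).isPreconnected (by positivity))

theorem lemmaU {X : Type*} [MetricSpace X] [CompactSpace X]
    (ω : NonemptyCompacts X → ℝ) (hc : Continuous ω) (hm : SMC ω) (η : ℝ) (hη : 0 < η) :
    ∃ ε > 0, ∀ S T : NonemptyCompacts X, EC ε (S : Set X) → EC ε (T : Set X) →
      (∀ x ∈ S, ∃ y ∈ T, dist x y ≤ ε) → ω T ≤ ω S + ε → dist S T ≤ η := by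
  by_contra hcon
  push Not at hcon
  have hcon' : ∀ n : ℕ, ∃ S T : NonemptyCompacts X, EC (1 / ((n : ℝ) + 1)) (S : Set X) ∧
      EC (1 / ((n : ℝ) + 1)) (T : Set X) ∧
      (∀ x ∈ S, ∃ y ∈ T, dist x y ≤ 1 / ((n : ℝ) + 1)) ∧ ω T ≤ ω S + 1 / ((n : ℝ) + 1) ∧
      η < dist S T := by
    intro n
    obtain ⟨S, T, h1, h2, h3, h4, h5⟩ := hcon (1 / ((n : ℝ) + 1)) (by positivity)
    exact ⟨S, T, h1, h2, h3, h4, h5⟩
  choose S T h1 h2 h3 h4 h5 using hcon'
  have hlim : ∀ F : ℕ → NonemptyCompacts X, ∃ K, Tendsto F (hyperfilter ℕ : Filter ℕ) (𝓝 K) :=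
    fun F => ⟨_, ((hyperfilter ℕ).map F).le_nhds_lim⟩
  obtain ⟨S', hS'⟩ := hlim S
  obtain ⟨T', hT'⟩ := hlim T
  have hε : Tendsto (fun n : ℕ => 1 / ((n : ℝ) + 1)) (hyperfilter ℕ : Filter ℕ) (𝓝 0) :=
    tendsto_one_div_add_atTop_nhds_zero_nat.mono_left Nat.hyperfilter_le_atTop
  have hcS : IsConnected (S' : Set X) := conn_of_lim (hyperfilter ℕ) S S' hS' _ hε h1
  have hcT : IsConnected (T' : Set X) := conn_of_lim (hyperfilter ℕ) T T' hT' _ hε h2
  have hsub : (S' : Set X) ⊆ (T' : Set X) := by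
    intro x hx
    rw [← T'.isCompact.isClosed.closure_eq, Metric.mem_closure_iff]
    intro r hr
    have e1 : ∀ᶠ n in (hyperfilter ℕ : Filter ℕ), dist (S n) S' < r / 3 :=
      hS'.eventually (Metric.ball_mem_nhds S' (by positivity))
    have e2 : ∀ᶠ n in (hyperfilter ℕ : Filter ℕ), dist (T n) T' < r / 3 :=
      hT'.eventually (Metric.ball_mem_nhds T' (by positivity))
    have e3 : ∀ᶠ n : ℕ in (hyperfilter ℕ : Filter ℕ), 1 / ((n : ℝ) + 1) < r / 3 :=
      hε.eventually (gt_mem_nhds (by positivity))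
    obtain ⟨n, ⟨k1, k2⟩, k3⟩ := ((e1.and e2).and e3).exists
    obtain ⟨x', hx', d1⟩ := wc_near (by rw [dist_comm]; exact k1 : dist S' (S n) < r / 3) hx
    obtain ⟨y', hy', d2⟩ := h3 n x' hx'
    obtain ⟨y, hy, d3⟩ := wc_near k2 hy'
    refine ⟨y, hy, ?_⟩
    have d4 := dist_triangle x x' y
    have d5 := dist_triangle x' y' y
    linarith
  have hω : ω T' ≤ ω S' := by
    have t1 : Tendsto (fun n => ω (T n)) (hyperfilter ℕ : Filter ℕ) (𝓝 (ω T')) :=
      (hc.tendsto T').comp hT'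
    have t2 : Tendsto (fun n => ω (S n) + 1 / ((n : ℝ) + 1)) (hyperfilter ℕ : Filter ℕ)
        (𝓝 (ω S' + 0)) := ((hc.tendsto S').comp hS').add hε
    have := le_of_tendsto_of_tendsto t1 t2 (Eventually.of_forall h4)
    rwa [add_zero] at this
  have heq : S' = T' := by
    apply SetLike.coe_injective
    by_contra hne
    have := hm S' T' hcS hcT (Set.ssubset_iff_subset_ne.2 ⟨hsub, hne⟩)
    linarith
  have hd : Tendsto (fun n => dist (S n) (T n)) (hyperfilter ℕ : Filter ℕ) (𝓝 (dist S' T')) :=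
    hS'.dist hT'
  have := ge_of_tendsto hd (Eventually.of_forall fun n => (h5 n).le)
  rw [heq, dist_self] at this
  linarith

end Pool.Agent.WC
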