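import Pool.Agent.WC.Unif
import Pool.Agent.WC.ArmDefs

/-! Proof by helper179 (team lemma job). -/

set_option autoImplicit false
open TopologicalSpace Filter Topology Set

namespace Pool.Agent.WC

theorem mem_seg' {X : Type*} [TopologicalSpace X] (p : ℕ → X) {u v : ℕ} (h : u ≤ v) (y : X) :
    y ∈ seg p u v ↔ ∃ i, u ≤ i ∧ i ≤ v ∧ p i = y := by
  show y ∈ p '' Set.Icc (min u v) (max u v) ↔ _
  rw [min_eq_left h, max_eq_right h]
  constructor
  · rintro ⟨i, hi, rfl⟩
    exact ⟨i, hi.1, hi.2, rfl⟩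
  · rintro ⟨i, h1, h2, rfl⟩
    exact ⟨i, ⟨h1, h2⟩, rfl⟩

theorem EC_mono' {X : Type*} [PseudoMetricSpace X] {a b : ℝ} (h : a ≤ b) {S : Set X} (hS : EC a S) :
    EC b S := by
  intro x hx y hy
  refine Relation.ReflTransGen.mono ?_ _ _ (hS x hx y hy)
  intro c d hcd
  exact ⟨hcd.1, hcd.2.1, hcd.2.2.trans h⟩

theorem seg_EC' {X : Type*} [MetricSpace X] (p : ℕ → X) (E : ℝ) (N : ℕ)
    (hp : ∀ i, i < N → dist (p i) (p (i + 1)) ≤ E) {u v : ℕ} (huv : u ≤ v) (hv : v ≤ N) :
    EC E (seg p u v : Set X) := by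
  have key : ∀ i, u ≤ i → ∀ j, i ≤ j → j ≤ v →
      Relation.ReflTransGen (fun a b => a ∈ (seg p u v : Set X) ∧ b ∈ (seg p u v : Set X) ∧
        dist a b ≤ E) (p i) (p j) := by
    intro i hi j hij
    induction j, hij using Nat.le_induction with
    | base => intro _; exact Relation.ReflTransGen.refl
    | succ j hj ih =>
      intro hjv
      refine (ih (by omega)).tail ⟨?_, ?_, hp j (by omega)⟩
      · exact (mem_seg' p huv _).2 ⟨j, by omega, by omega, rfl⟩
      · exact (mem_seg' p huv _).2 ⟨j + 1, by omega, by omega, rfl⟩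
  intro x hx y hy
  obtain ⟨i, hi1, hi2, rfl⟩ := (mem_seg' p huv x).1 hx
  obtain ⟨j, hj1, hj2, rfl⟩ := (mem_seg' p huv y).1 hy
  rcases le_total i j with hij | hij
  · exact key i hi1 j hij hj2
  · refine Relation.ReflTransGen.mono ?_ _ _ (Relation.ReflTransGen.swap _ _ (key j hj1 i hij hi2))
    intro a b hab
    exact ⟨hab.2.1, hab.1, by rw [dist_comm]; exact hab.2.2⟩

theorem dist_le' {X : Type*} [MetricSpace X] (S T : NonemptyCompacts X) (r : ℝ) (hr : 0 ≤ r)
    (h1 : ∀ x ∈ S, ∃ y ∈ T, dist x y ≤ r) (h2 : ∀ x ∈ T, ∃ y ∈ S, dist x y ≤ r) : dist S T ≤ r := by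
  rw [Metric.NonemptyCompacts.dist_eq]
  exact Metric.hausdorffDist_le_of_mem_dist hr h1 h2

/-- TARGET -/
theorem windows {X : Type*} [MetricSpace X] [CompactSpace X] [Nonempty X]
    (ω : NonemptyCompacts X → ℝ) (hc : Continuous ω) (hm : SMC ω) (t : ℝ)
    (ht0 : ∀ x : X, ω {x} < t) (ht1 : t < ω ⊤) (ε : ℝ) (hε : 0 < ε) :
    ∃ E > 0, ∀ (N : ℕ) (p : ℕ → X), (∀ i, i < N → dist (p i) (p (i + 1)) ≤ E) →
      (∀ x, ∃ i, i ≤ N ∧ dist x (p i) ≤ E) →
      ∃ r : ℕ → ℕ, (∀ x, x < N → r x ≤ r (x + 1) + 1 ∧ r (x + 1) ≤ r x + 1) ∧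
        (∀ x, x ≤ N → EC ε (wseg p N (r x) x : Set X) ∧ |ω (wseg p N (r x) x) - t| ≤ ε) ∧
        (∀ u v, u ≤ v → v ≤ N → |ω (seg p u v) - t| ≤ E →
          dist (seg p u v) (wseg p N (r ((u + v) / 2)) ((u + v) / 2)) ≤ ε) := by
  obtain ⟨εU, hεU, hU⟩ := lemmaU ω hc hm ε hε
  obtain ⟨ε2, hε2, hε2a, hε2b⟩ : ∃ ε2 : ℝ, 0 < ε2 ∧ ε2 ≤ ε ∧ ε2 ≤ εU / 2 :=
    ⟨min ε (εU / 2), lt_min hε (by linarith), min_le_left _ _, min_le_right _ _⟩
  have huc : UniformContinuous ω := CompactSpace.uniformContinuous_of_continuous hc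
  obtain ⟨ρ', hρ', hρ''⟩ := Metric.uniformContinuous_iff.1 huc (min ε2 (ω ⊤ - t))
    (lt_min hε2 (by linarith))
  obtain ⟨ρ, hρ, hω⟩ : ∃ ρ > 0, ∀ S T : NonemptyCompacts X, dist S T ≤ ρ →
      |ω S - ω T| < ε2 ∧ |ω S - ω T| < ω ⊤ - t := by
    refine ⟨ρ' / 2, by linarith, fun S T h => ?_⟩
    have h1 : dist (ω S) (ω T) < min ε2 (ω ⊤ - t) := hρ'' (by linarith)
    rw [Real.dist_eq] at h1
    exact ⟨lt_of_lt_of_le h1 (min_le_left _ _), lt_of_lt_of_le h1 (min_le_right _ _)⟩
  obtain ⟨ε1, hε1, hU1⟩ := lemmaU ω hc hm ρ hρ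
  obtain ⟨E, hE, hEa, hEb, hEc, hEd⟩ : ∃ E : ℝ, 0 < E ∧ E ≤ εU / 2 ∧ E ≤ ε1 ∧ E ≤ ρ ∧ E ≤ ε :=
    ⟨min (min (εU / 2) ε1) (min ρ ε), lt_min (lt_min (by linarith) hε1) (lt_min hρ hε),
      (min_le_left _ _).trans (min_le_left _ _), (min_le_left _ _).trans (min_le_right _ _),
      (min_le_right _ _).trans (min_le_left _ _), (min_le_right _ _).trans (min_le_right _ _)⟩
  refine ⟨E, hE, fun N p hp hd => ?_⟩
  set good : ℕ → ℕ → Prop := fun x r => ∃ u v, x ≤ u + r ∧ u ≤ v ∧ v ≤ x + r ∧ v ≤ N ∧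
    t ≤ ω (seg p u v) with hgood
  have hEU : E ≤ εU := by linarith
  have G0 : ∀ x, x ≤ N → good x N := by
    intro x hx
    refine ⟨0, N, by omega, Nat.zero_le _, by omega, le_rfl, ?_⟩
    have h1 : dist (seg p 0 N) ⊤ ≤ ρ := by
      refine le_trans (dist_le' _ _ E hE.le ?_ ?_) hEc
      · intro y _
        exact ⟨y, Set.mem_univ y, by rw [dist_self]; exact hE.le⟩
      · intro y _
        obtain ⟨i, hi, hi2⟩ := hd y
        exact ⟨p i, (mem_seg' p (Nat.zero_le N) _).2 ⟨i, Nat.zero_le _, hi, rfl⟩, hi2⟩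
    have h2 := (abs_lt.1 (hω _ _ h1).2).1
    linarith
  have G1 : ∀ x r, good x r → good (x + 1) (r + 1) := by
    rintro x r ⟨u, v, h1, h2, h3, h4, h5⟩
    exact ⟨u, v, by omega, h2, by omega, h4, h5⟩
  have G2 : ∀ x r, good (x + 1) r → good x (r + 1) := by
    rintro x r ⟨u, v, h1, h2, h3, h4, h5⟩
    exact ⟨u, v, by omega, h2, by omega, h4, h5⟩
  have hmem : ∀ x, x ≤ N → good x (sInf {r | good x r}) := fun x hx =>
    Nat.sInf_mem (s := {r | good x r}) ⟨N, G0 x hx⟩
  have hle : ∀ x m, good x m → sInf {r | good x r} ≤ m := fun x m h => Nat.sInf_le h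
  generalize hr : (fun x => sInf {r | good x r}) = r at *
  have hmem' : ∀ x, x ≤ N → good x (r x) := by
    intro x hx
    have := hmem x hx
    rw [← hr]; exact this
  have hle' : ∀ x m, good x m → r x ≤ m := by
    intro x m h
    have := hle x m h
    rw [← hr]; exact this
  have hwin : ∀ x, x ≤ N → ∀ r0, x - r0 ≤ min (x + r0) N := fun x hx r0 => by omega
  -- the window has size about t
  have hW : ∀ x, x ≤ N → |ω (wseg p N (r x) x) - t| ≤ ε2 := by
    intro x hx
    obtain ⟨u, v, h1, h2, h3, h4, h5⟩ := hmem' x hx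
    have hw := hwin x hx (r x)
    rw [abs_le]
    constructor
    · by_cases hcase : ω (wseg p N (r x) x) ≤ ω (seg p u v) + ε1
      · have h6 := hU1 (seg p u v) (wseg p N (r x) x)
          (EC_mono' hEb (seg_EC' p E N hp h2 h4)) (EC_mono' hEb (seg_EC' p E N hp hw (min_le_right _ _)))
          (fun y hy => ⟨y, ?_, by rw [dist_self]; exact hε1.le⟩) hcase
        · have h7 := (abs_lt.1 (hω _ _ h6).1).2
          linarith
        · obtain ⟨i, hi1, hi2, rfl⟩ := (mem_seg' p h2 y).1 hy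
          exact (mem_seg' p hw _).2 ⟨i, by omega, by omega, rfl⟩
      · push Not at hcase
        linarith
    · have hr1 : 1 ≤ r x := by
        by_contra hr0
        have hr0' : r x = 0 := by omega
        rw [hr0'] at h1 h3
        have huv : u = v := by omega
        have hux : u = x := by omega
        subst huv
        subst hux
        have h6 : seg p u u = {p u} := by
          ext y
          constructor
          · intro hy
            obtain ⟨i, hi1, hi2, hi3⟩ := (mem_seg' p le_rfl y).1 hy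
            have : i = u := by omega
            subst this
            exact hi3.symm
          · intro hy
            have hy' : y = p u := hy
            exact (mem_seg' p le_rfl y).2 ⟨u, le_rfl, le_rfl, hy'.symm⟩
        rw [h6] at h5
        exact absurd h5 (not_le.2 (ht0 _))
      have hw' := hwin x hx (r x - 1)
      have h6 : ω (seg p (x - (r x - 1)) (min (x + (r x - 1)) N)) < t := by
        by_contra h7
        push Not at h7
        have h8 := hle' x (r x - 1) ⟨x - (r x - 1), min (x + (r x - 1)) N, by omega, hw', by omega,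
          by omega, h7⟩
        omega
      have h7 : dist (seg p (x - (r x - 1)) (min (x + (r x - 1)) N)) (wseg p N (r x) x) ≤ ρ := by
        refine le_trans (dist_le' _ _ E hE.le ?_ ?_) hEc
        · intro y hy
          obtain ⟨i, hi1, hi2, rfl⟩ := (mem_seg' p hw' y).1 hy
          exact ⟨p i, (mem_seg' p hw _).2 ⟨i, by omega, by omega, rfl⟩, by rw [dist_self]; exact hE.le⟩
        · intro y hy
          obtain ⟨i, hi1, hi2, rfl⟩ := (mem_seg' p hw y).1 hy
          by_cases hA : x - (r x - 1) ≤ i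
          · by_cases hB : i ≤ min (x + (r x - 1)) N
            · exact ⟨p i, (mem_seg' p hw' _).2 ⟨i, hA, hB, rfl⟩, by rw [dist_self]; exact hE.le⟩
            · refine ⟨p (i - 1), (mem_seg' p hw' _).2 ⟨i - 1, by omega, by omega, rfl⟩, ?_⟩
              have h9 := hp (i - 1) (by omega)
              rw [show i - 1 + 1 = i by omega, dist_comm] at h9
              exact h9
          · refine ⟨p (i + 1), (mem_seg' p hw' _).2 ⟨i + 1, by omega, by omega, rfl⟩, hp i (by omega)⟩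
      have h8 := (abs_lt.1 (hω _ _ h7).1).1
      linarith
  refine ⟨r, ?_, ?_, ?_⟩
  · intro x hx
    exact ⟨hle' _ _ (G2 _ _ (hmem' (x + 1) hx)), hle' _ _ (G1 _ _ (hmem' x hx.le))⟩
  · intro x hx
    exact ⟨EC_mono' hEd (seg_EC' p E N hp (hwin x hx _) (min_le_right _ _)), (hW x hx).trans hε2a⟩
  · intro u v huv hvN hS
    have hq1 : u ≤ (u + v) / 2 := by omega
    have hq2 : (u + v) / 2 ≤ v := by omega
    have hqv : v ≤ (u + v) / 2 + ((u + v) / 2 - u) + 1 := by omega
    have hqv' : (u + v) / 2 + ((u + v) / 2 - u) ≤ v := by omega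
    generalize (u + v) / 2 = q at *
    have hqN : q ≤ N := by omega
    have hw := hwin q hqN (r q)
    have hWq := abs_le.1 (hW q hqN)
    have hS' := abs_le.1 hS
    have hECS : EC εU (seg p u v : Set X) := EC_mono' hEU (seg_EC' p E N hp huv hvN)
    have hECT : EC εU (wseg p N (r q) q : Set X) :=
      EC_mono' hEU (seg_EC' p E N hp hw (min_le_right _ _))
    by_cases hcase : q - u ≤ r q
    · refine hU _ _ hECS hECT ?_ (by linarith [hWq.2, hS'.1])
      intro y hy
      obtain ⟨i, hi1, hi2, rfl⟩ := (mem_seg' p huv y).1 hy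
      by_cases hB : i ≤ q + r q
      · exact ⟨p i, (mem_seg' p hw _).2 ⟨i, by omega, by omega, rfl⟩, by rw [dist_self]; exact hεU.le⟩
      · refine ⟨p (i - 1), (mem_seg' p hw _).2 ⟨i - 1, by omega, by omega, rfl⟩, ?_⟩
        have h9 := hp (i - 1) (by omega)
        rw [show i - 1 + 1 = i by omega, dist_comm] at h9
        exact h9.trans hEU
    · rw [dist_comm]
      refine hU _ _ hECT hECS ?_ (by linarith [hWq.1, hS'.2])
      intro y hy
      obtain ⟨i, hi1, hi2, rfl⟩ := (mem_seg' p hw y).1 hy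
      exact ⟨p i, (mem_seg' p huv _).2 ⟨i, by omega, by omega, rfl⟩, by rw [dist_self]; exact hεU.le⟩

end Pool.Agent.WC
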