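import Pool.Agent.WC.ArmDefs

/-! Proof by helper170 (team lemma job). -/

set_option autoImplicit false
open TopologicalSpace Filter Topology Set

namespace Pool.Agent.WC

/-- clamp -/
def cl170 (a b v : ℕ) : ℕ := max a (min b v)

/-- admissible position function -/
def Q170 (R : ℕ → ℕ → Prop) (pos : ℕ → ℕ) (a b : ℕ) : Prop :=
  ∀ x y v, a ≤ x → x ≤ b → a ≤ y → y ≤ b → x ≤ v + 6 → v ≤ x + 6 → y ≤ v + 6 → v ≤ y + 6 →
    ∀ p, min (pos x) (pos y) ≤ p → p ≤ max (pos x) (pos y) → R p v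

theorem lin170 {R : ℕ → ℕ → Prop} {pos : ℕ → ℕ} {a b : ℕ} (hQ : Q170 R pos a b) (hab : a ≤ b) :
    ∀ (W : List ℕ), List.IsChain (fun a b => a ≤ b + 1 ∧ b ≤ a + 1) W →
      (∀ v ∈ W, a ≤ v + 3 ∧ v ≤ b + 3) → ∀ x0, a ≤ x0 → x0 ≤ b →
      (∀ h ∈ W.head?, x0 ≤ h + 6 ∧ h ≤ x0 + 6) → ∀ l ∈ W.getLast?,
      Trk R (pos x0) W (pos (cl170 a b l)) := by
  intro W
  induction W with
  | nil => intro _ _ x0 _ _ _ l hl; simp at hl
  | cons v W' ih =>
    intro hch hv x0 h1 h2 hh l hl
    have hx0 := hh v (by simp)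
    have hvv := hv v (by simp)
    cases W' with
    | nil =>
      have : l = v := by simpa using hl.symm
      subst this
      refine Trk.single (hQ x0 (cl170 a b l) l h1 h2 ?_ ?_ hx0.1 hx0.2 ?_ ?_)
      all_goals (unfold cl170; omega)
    | cons w W'' =>
      rw [List.isChain_cons_cons] at hch
      have hvw := hch.1
      refine Trk.cons (j := pos (cl170 a b v)) (hQ x0 (cl170 a b v) v h1 h2 ?_ ?_ hx0.1 hx0.2 ?_ ?_) ?_
      · unfold cl170; omega
      · unfold cl170; omega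
      · unfold cl170; omega
      · unfold cl170; omega
      · refine ih hch.2 (fun z hz => hv z (List.mem_cons_of_mem _ hz)) (cl170 a b v) ?_ ?_ ?_ l ?_
        · unfold cl170; omega
        · unfold cl170; omega
        · intro h hh'
          have : h = w := by simpa using hh'.symm
          subst this
          unfold cl170
          constructor <;> omega
        · rw [List.getLast?_cons_cons] at hl
          exact hl

theorem turn0170 {R : ℕ → ℕ → Prop} {pA pB : ℕ → ℕ} {a b a' b' : ℕ} (hA : Q170 R pA a b)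
    (hB : Q170 R pB a' b') (hab' : a' ≤ b') (eA eB v : ℕ)
    (heA : a ≤ eA ∧ eA ≤ b) (heB : a' ≤ eB ∧ eB ≤ b') (hvA : eA ≤ v + 6 ∧ v ≤ eA + 6)
    (hvB : eB ≤ v + 6 ∧ v ≤ eB + 6) (hadj : pA eA ≤ pB eB + 1 ∧ pB eB ≤ pA eA + 1)
    (W2 : List ℕ) (hch : List.IsChain (fun a b => a ≤ b + 1 ∧ b ≤ a + 1) (v :: W2))
    (hW : ∀ z ∈ v :: W2, a' ≤ z + 3 ∧ z ≤ b' + 3) (x0 : ℕ) (h1 : a ≤ x0) (h2 : x0 ≤ b)
    (hx0 : x0 ≤ v + 6 ∧ v ≤ x0 + 6) (l : ℕ) (hl : l ∈ (v :: W2).getLast?) :
    Trk R (pA x0) (v :: W2) (pB (cl170 a' b' l)) := by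
  have hvv := hW v (by simp)
  have hstep : ∀ p, min (pA x0) (pB (cl170 a' b' v)) ≤ p → p ≤ max (pA x0) (pB (cl170 a' b' v)) → R p v := by
    intro p hp1 hp2
    by_cases hc : min (pA x0) (pA eA) ≤ p ∧ p ≤ max (pA x0) (pA eA)
    · exact hA x0 eA v h1 h2 heA.1 heA.2 hx0.1 hx0.2 hvA.1 hvA.2 p hc.1 hc.2
    · refine hB eB (cl170 a' b' v) v heB.1 heB.2 ?_ ?_ hvB.1 hvB.2 ?_ ?_ p ?_ ?_
      · unfold cl170; omega
      · unfold cl170; omega
      · unfold cl170; omega
      · unfold cl170; omega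
      · omega
      · omega
  cases W2 with
  | nil =>
    have : l = v := by simpa using hl.symm
    subst this
    exact Trk.single hstep
  | cons w W2 =>
    rw [List.isChain_cons_cons] at hch
    have hvw := hch.1
    refine Trk.cons hstep ?_
    refine lin170 hB hab' (w :: W2) hch.2 (fun z hz => hW z (List.mem_cons_of_mem _ hz)) _ ?_ ?_ ?_ l ?_
    · unfold cl170; omega
    · unfold cl170; omega
    · intro h hh'
      have : h = w := by simpa using hh'.symm
      subst this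
      unfold cl170
      constructor <;> omega
    · rw [List.getLast?_cons_cons] at hl
      exact hl

theorem turn170 {R : ℕ → ℕ → Prop} {pA pB : ℕ → ℕ} {a b a' b' : ℕ} (hA : Q170 R pA a b)
    (hB : Q170 R pB a' b') (hab : a ≤ b) (hab' : a' ≤ b') (eA eB v : ℕ)
    (heA : a ≤ eA ∧ eA ≤ b) (heB : a' ≤ eB ∧ eB ≤ b') (hvA : eA ≤ v + 6 ∧ v ≤ eA + 6)
    (hvB : eB ≤ v + 6 ∧ v ≤ eB + 6) (hadj : pA eA ≤ pB eB + 1 ∧ pB eB ≤ pA eA + 1)
    (W : List ℕ) (hch : List.IsChain (fun a b => a ≤ b + 1 ∧ b ≤ a + 1) W) (hvW : v ∈ W)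
    (hW : ∀ z ∈ W, a' ≤ z + 3 ∧ z ≤ b' + 3) (hW' : ∀ z ∈ W, a ≤ z + 3 ∧ z ≤ b + 3)
    (x0 : ℕ) (h1 : a ≤ x0) (h2 : x0 ≤ b)
    (hx0 : ∀ h ∈ W.head?, x0 ≤ h + 6 ∧ h ≤ x0 + 6) (l : ℕ) (hl : l ∈ W.getLast?) :
    Trk R (pA x0) W (pB (cl170 a' b' l)) := by
  obtain ⟨W1, W2, rfl⟩ := List.append_of_mem hvW
  have hl2 : l ∈ (v :: W2).getLast? := by
    rw [List.getLast?_append_of_ne_nil _ (by simp)] at hl
    exact hl
  have hch' := hch
  rw [List.isChain_append] at hch
  obtain ⟨hc1, hc2, hc3⟩ := hch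
  have hWB : ∀ z ∈ v :: W2, a' ≤ z + 3 ∧ z ≤ b' + 3 := fun z hz => hW z (List.mem_append_right _ hz)
  rcases List.eq_nil_or_concat W1 with rfl | ⟨W1', w, rfl⟩
  · simp only [List.nil_append] at hx0 ⊢
    exact turn0170 hA hB hab' eA eB v heA heB hvA hvB hadj W2 hc2 hWB x0 h1 h2 (hx0 v (by simp)) l hl2
  · have hww : w ≤ v + 1 ∧ v ≤ w + 1 := hc3 w (by simp) v (by simp)
    have hw3 := hW' w (by simp)
    refine Trk.append (j := pA (cl170 a b w)) ?_ ?_
    · refine lin170 hA hab _ hc1 (fun z hz => hW' z (List.mem_append_left _ hz)) x0 h1 h2 ?_ w (by simp)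
      intro h hh
      apply hx0 h
      rw [List.head?_append_of_ne_nil _ (by simp)]
      exact hh
    · refine turn0170 hA hB hab' eA eB v heA heB hvA hvB hadj W2 hc2 hWB _ ?_ ?_ ?_ l hl2
      · unfold cl170; omega
      · unfold cl170; omega
      · unfold cl170; constructor <;> omega

theorem stay170 {R : ℕ → ℕ → Prop} {pos : ℕ → ℕ} {a b : ℕ} (hQ : Q170 R pos a b) (hab : a ≤ b)
    (W : List ℕ) (hch : List.IsChain (fun a b => a ≤ b + 1 ∧ b ≤ a + 1) W)
    (hW : ∀ z ∈ W, a ≤ z + 3 ∧ z ≤ b + 3) (x0 : ℕ) (h1 : a ≤ x0) (h2 : x0 ≤ b)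
    (hx0 : ∀ h ∈ W.head?, x0 ≤ h + 6 ∧ h ≤ x0 + 6) (h : ℕ) (hh : h ∈ W.head?) :
    Trk R (pos x0) (W ++ W.reverse) (pos (cl170 a b h)) := by
  have hne : W ≠ [] := by rintro rfl; simp at hh
  have hl : W.getLast hne ∈ W.getLast? := by simp [List.getLast?_eq_getLast_of_ne_nil hne]
  set l := W.getLast hne
  have hlW : l ∈ W := List.getLast_mem hne
  have hl3 := hW l hlW
  refine Trk.append (lin170 hQ hab W hch hW x0 h1 h2 hx0 l hl) ?_
  refine lin170 hQ hab W.reverse ?_ (fun z hz => hW z (List.mem_reverse.1 hz)) _ ?_ ?_ ?_ h ?_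
  · rw [List.isChain_reverse]
    exact hch.imp (fun a b h => ⟨h.2, h.1⟩)
  · unfold cl170; omega
  · unfold cl170; omega
  · intro z hz
    rw [List.head?_reverse] at hz
    have : z = l := by
      have h3 : some z = some l := (Option.mem_def.1 hz).symm.trans (Option.mem_def.1 hl)
      exact Option.some.inj h3
    subst this
    unfold cl170; constructor <;> omega
  · rw [List.getLast?_reverse]
    exact hh

theorem adv170 {R : ℕ → ℕ → Prop} {pU pD pU' : ℕ → ℕ} {a b a' b' : ℕ} (hU : Q170 R pU a b)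
    (hD : Q170 R pD a b) (hU' : Q170 R pU' a' b') (hab : a ≤ b) (hab' : a' ≤ b')
    (adj1 : pU b ≤ pD b + 1 ∧ pD b ≤ pU b + 1) (adj2 : pD a ≤ pU' a' + 1 ∧ pU' a' ≤ pD a + 1)
    (haa : a ≤ a' + 1 ∧ a' ≤ a + 1) (hbb : b ≤ b' + 1 ∧ b' ≤ b + 1)
    (W : List ℕ) (hch : List.IsChain (fun a b => a ≤ b + 1 ∧ b ≤ a + 1) W)
    (hW : ∀ z ∈ W, a' ≤ z + 2 ∧ z ≤ b' + 2) (hT : ∃ v ∈ W, b' ≤ v + 2) (hB : ∃ v ∈ W, v ≤ a' + 2)
    (x0 : ℕ) (h1 : a ≤ x0) (h2 : x0 ≤ b)
    (hx0 : ∀ h ∈ W.head?, x0 ≤ h + 6 ∧ h ≤ x0 + 6) (h : ℕ) (hh : h ∈ W.head?) :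
    Trk R (pU x0) (W ++ W.reverse) (pU' (cl170 a' b' h)) := by
  have hne : W ≠ [] := by rintro rfl; simp at hh
  have hl : W.getLast hne ∈ W.getLast? := by simp [List.getLast?_eq_getLast_of_ne_nil hne]
  set l := W.getLast hne
  have hlW : l ∈ W := List.getLast_mem hne
  have hl3 := hW l hlW
  obtain ⟨vT, hvT, hvT2⟩ := hT
  obtain ⟨vB, hvB, hvB2⟩ := hB
  have hvT3 := hW vT hvT
  have hvB3 := hW vB hvB
  have hW3 : ∀ z ∈ W, a ≤ z + 3 ∧ z ≤ b + 3 := by
    intro z hz
    have := hW z hz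
    constructor <;> omega
  refine Trk.append (turn170 hU hD hab hab b b vT ⟨hab, le_rfl⟩ ⟨hab, le_rfl⟩ ⟨by omega, by omega⟩
    ⟨by omega, by omega⟩ adj1 W hch hvT hW3 hW3 x0 h1 h2 hx0 l hl) ?_
  refine turn170 hD hU' hab hab' a a' vB ⟨le_rfl, hab⟩ ⟨le_rfl, hab'⟩ ⟨by omega, by omega⟩
    ⟨by omega, by omega⟩ adj2 W.reverse ?_ (List.mem_reverse.2 hvB)
    (fun z hz => by have := hW z (List.mem_reverse.1 hz); constructor <;> omega)
    (fun z hz => hW3 z (List.mem_reverse.1 hz)) _ ?_ ?_ ?_ h ?_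
  · rw [List.isChain_reverse]
    exact hch.imp (fun a b h => ⟨h.2, h.1⟩)
  · unfold cl170; omega
  · unfold cl170; omega
  · intro z hz
    rw [List.head?_reverse] at hz
    have : z = l := by
      have h3 : some z = some l := (Option.mem_def.1 hz).symm.trans (Option.mem_def.1 hl)
      exact Option.some.inj h3
    subst this
    unfold cl170; constructor <;> omega
  · rw [List.getLast?_reverse]
    exact hh

theorem zig_succ170 (m M : ℕ → ℕ) (n : ℕ) : zig m M (n + 1) = zig m M n ++ blk (m n) (M n) := by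
  unfold zig
  rw [List.range_succ, List.flatMap_append]
  simp

theorem blk_len170 (m M : ℕ) : (blk m M).length = 2 * (M + 1 - m) := by
  unfold blk
  rw [List.length_append, List.length_reverse, List.length_range']
  omega

theorem blk_up170 (m M x : ℕ) (h1 : m ≤ x) (h2 : x ≤ M) : (blk m M)[x - m]? = some x := by
  unfold blk
  rw [List.getElem?_append_left (by rw [List.length_range']; omega), List.getElem?_range' (by omega)]
  congr 1
  omega

theorem blk_dn170 (m M x : ℕ) (h1 : m ≤ x) (h2 : x ≤ M) :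
    (blk m M)[(M + 1 - m) + (M - x)]? = some x := by
  unfold blk
  rw [List.getElem?_append_right (by rw [List.length_range']; omega)]
  rw [List.getElem?_reverse (by rw [List.length_range']; omega), List.length_range',
    List.getElem?_range' (by omega)]
  congr 1
  omega

theorem zig_get170 (m M : ℕ → ℕ) (n : ℕ) : ∀ k i, k < n → i < (blk (m k) (M k)).length →
    (zig m M n)[(zig m M k).length + i]? = (blk (m k) (M k))[i]? := by
  induction n with
  | zero => intro k i hk; omega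
  | succ n ih =>
    intro k i hk hi
    rw [zig_succ170]
    by_cases hkn : k = n
    · subst hkn
      rw [List.getElem?_append_right (by omega)]
      congr 1
      omega
    · have hk' : k < n := by omega
      have h := ih k i hk' hi
      rw [← h]
      apply List.getElem?_append_left
      by_contra hc
      push Not at hc
      have h2 : (zig m M n)[(zig m M k).length + i]? = none := List.getElem?_eq_none hc
      rw [h2] at h
      have h3 := List.getElem?_eq_none_iff.1 h.symm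
      omega


theorem QU170 (m M : ℕ → ℕ) (K k : ℕ) (hk : k ≤ K) :
    Q170 (fun p v => ∃ x, (zig m M (K + 1))[p]? = some x ∧ x ≤ v + 6 ∧ v ≤ x + 6)
      (fun x => (zig m M k).length + (x - m k)) (m k) (M k) := by
  intro x y v hx1 hx2 hy1 hy2 hxv1 hxv2 hyv1 hyv2 p hp1 hp2
  simp only at hp1 hp2
  obtain ⟨z, hz, hz1, hz2⟩ : ∃ z, p = (zig m M k).length + (z - m k) ∧ min x y ≤ z ∧ z ≤ max x y :=
    ⟨p - (zig m M k).length + m k, by omega, by omega, by omega⟩
  refine ⟨z, ?_, by omega, by omega⟩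
  rw [hz, zig_get170 m M (K + 1) k (z - m k) (by omega) (by rw [blk_len170]; omega)]
  exact blk_up170 _ _ _ (by omega) (by omega)

theorem QD170 (m M : ℕ → ℕ) (K k : ℕ) (hk : k ≤ K) :
    Q170 (fun p v => ∃ x, (zig m M (K + 1))[p]? = some x ∧ x ≤ v + 6 ∧ v ≤ x + 6)
      (fun x => (zig m M k).length + ((M k + 1 - m k) + (M k - x))) (m k) (M k) := by
  intro x y v hx1 hx2 hy1 hy2 hxv1 hxv2 hyv1 hyv2 p hp1 hp2
  simp only at hp1 hp2
  obtain ⟨z, hz, hz1, hz2⟩ : ∃ z, p = (zig m M k).length + ((M k + 1 - m k) + (M k - z)) ∧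
      min x y ≤ z ∧ z ≤ max x y :=
    ⟨M k - (p - (zig m M k).length - (M k + 1 - m k)), by omega, by omega, by omega⟩
  refine ⟨z, ?_, by omega, by omega⟩
  rw [hz, zig_get170 m M (K + 1) k _ (by omega) (by rw [blk_len170]; omega)]
  exact blk_dn170 _ _ _ (by omega) (by omega)

/-- TARGET -/
theorem zig_track (m M : ℕ → ℕ) (K : ℕ) (hmM : ∀ k, m k ≤ M k)
    (hm : ∀ k, m k ≤ m (k + 1) + 1 ∧ m (k + 1) ≤ m k + 1)
    (hM : ∀ k, M k ≤ M (k + 1) + 1 ∧ M (k + 1) ≤ M k + 1)
    (h0 : m 0 = M 0) (hK : m K = M K)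
    (κ : ℕ → ℕ) (κ0 : κ 0 = 0) (κs : ∀ i, κ (i + 1) = κ i ∨ κ (i + 1) = κ i + 1)
    (V : ℕ → List ℕ) (hV : ∀ i, V i ≠ [])
    (hc : ∀ i, List.IsChain (fun a b => a ≤ b + 1 ∧ b ≤ a + 1) (V i))
    (hr : ∀ i, ∀ v ∈ V i, m (κ i) ≤ v + 2 ∧ v ≤ M (κ i) + 2)
    (ht : ∀ i, ∃ v ∈ V i, M (κ i) ≤ v + 2) (hbt : ∀ i, ∃ v ∈ V i, v ≤ m (κ i) + 2)
    (hh : ∀ i, ∀ a ∈ (V i).head?, ∀ b ∈ (V (i + 1)).head?, a ≤ b + 1 ∧ b ≤ a + 1)
    (n : ℕ) (hn : κ n = K) :
    Trk (fun p v => ∃ x, (zig m M (K + 1))[p]? = some x ∧ x ≤ v + 6 ∧ v ≤ x + 6) 0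
      ((List.range (n + 1)).flatMap (fun i => V i ++ (V i).reverse))
      ((zig m M (K + 1)).length - 2) := by
  have hhead : ∀ i, (V i).head (hV i) ∈ (V i).head? := fun i => by
    rw [List.head?_eq_some_head (hV i)]; rfl
  have hheadmem : ∀ i, (V i).head (hV i) ∈ V i := fun i => List.head_mem (hV i)
  have hmono : ∀ i j, i ≤ j → κ i ≤ κ j := by
    intro i j hij
    induction j, hij using Nat.le_induction with
    | base => exact le_rfl
    | succ j _ ih => rcases κs j with h | h <;> omega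
  have key : ∀ i, κ i ≤ K →
      Trk (fun p v => ∃ x, (zig m M (K + 1))[p]? = some x ∧ x ≤ v + 6 ∧ v ≤ x + 6) 0
        ((List.range (i + 1)).flatMap (fun i => V i ++ (V i).reverse))
        ((zig m M (κ i)).length + (cl170 (m (κ i)) (M (κ i)) ((V i).head (hV i)) - m (κ i))) := by
    intro i
    induction i with
    | zero =>
      intro hk
      have e : (List.range (0 + 1)).flatMap (fun i => V i ++ (V i).reverse) = V 0 ++ (V 0).reverse := by
        simp
      rw [e]
      have hst := stay170 (QU170 m M K (κ 0) hk) (hmM _) (V 0) (hc 0)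
        (fun z hz => by have := hr 0 z hz; constructor <;> omega) (m (κ 0)) le_rfl (hmM _)
        (fun h hh' => by
          have := hr 0 h (List.mem_of_mem_head? hh')
          rw [κ0] at this ⊢
          constructor <;> omega) ((V 0).head (hV 0)) (hhead 0)
      have e2 : (zig m M (κ 0)).length + (m (κ 0) - m (κ 0)) = 0 := by
        rw [κ0]
        simp [zig]
      rw [e2] at hst
      exact hst
    | succ i ih =>
      intro hk
      have hk' : κ i ≤ K := (hmono i (i + 1) (by omega)).trans hk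
      have e : (List.range (i + 1 + 1)).flatMap (fun i => V i ++ (V i).reverse) =
          (List.range (i + 1)).flatMap (fun i => V i ++ (V i).reverse) ++
            (V (i + 1) ++ (V (i + 1)).reverse) := by
        rw [List.range_succ, List.flatMap_append]
        simp
      rw [e]
      refine Trk.append (ih hk') ?_
      have hmM' := hmM (κ i)
      have hhd := hr i _ (hheadmem i)
      have hx0 : ∀ h ∈ (V (i + 1)).head?, cl170 (m (κ i)) (M (κ i)) ((V i).head (hV i)) ≤ h + 6 ∧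
          h ≤ cl170 (m (κ i)) (M (κ i)) ((V i).head (hV i)) + 6 := by
        intro h hh'
        have := hh i _ (hhead i) h hh'
        unfold cl170
        constructor <;> omega
      rcases κs i with hs | hs
      · have hst := stay170 (QU170 m M K (κ i) hk') (hmM _) (V (i + 1)) (hc (i + 1))
          (fun z hz => by have := hr (i + 1) z hz; rw [hs] at this; constructor <;> omega)
          (cl170 (m (κ i)) (M (κ i)) ((V i).head (hV i))) (by unfold cl170; omega)
          (by unfold cl170; omega) hx0 ((V (i + 1)).head (hV (i + 1))) (hhead (i + 1))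
        rw [hs]
        exact hst
      · have hk1 : κ i + 1 ≤ K := by omega
        have hm' := hm (κ i)
        have hM' := hM (κ i)
        have hadv := adv170 (QU170 m M K (κ i) hk') (QD170 m M K (κ i) hk') (QU170 m M K (κ i + 1) hk1)
          (hmM _) (hmM _)
          (by constructor <;> omega)
          (by
            rw [zig_succ170, List.length_append, blk_len170]
            constructor <;> omega)
          hm' hM' (V (i + 1)) (hc (i + 1))
          (fun z hz => by have := hr (i + 1) z hz; rw [hs] at this; exact this)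
          (by have := ht (i + 1); rw [hs] at this; exact this)
          (by have := hbt (i + 1); rw [hs] at this; exact this)
          (cl170 (m (κ i)) (M (κ i)) ((V i).head (hV i))) (by unfold cl170; omega)
          (by unfold cl170; omega) hx0 ((V (i + 1)).head (hV (i + 1))) (hhead (i + 1))
        rw [hs]
        exact hadv
  have hfin := key n hn.le
  have e : (zig m M (κ n)).length + (cl170 (m (κ n)) (M (κ n)) ((V n).head (hV n)) - m (κ n)) =
      (zig m M (K + 1)).length - 2 := by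
    rw [hn, zig_succ170, List.length_append, blk_len170]
    unfold cl170
    omega
  rw [e] at hfin
  exact hfin

end Pool.Agent.WC
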